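import Pool.Agent.J4H84.GT.Verma

/-!
# Central characters are invariant under the shifted action (integral differences)
-/

namespace Pool.Agent.J4H84.GT

theorem cc_congr {n : ℕ} {lam mu : ℕ → ℂ} (h : ∀ i < n, lam i = mu i) {z : U n}
    (hz : z ∈ Subalgebra.center ℂ (U n)) : cc n lam z = cc n mu z := by
  have h1 : (fun i : Fin n => lam i) = (fun i : Fin n => mu i) := by
    funext i; exact h i i.2
  have h2 := cc_spec mu hz
  rw [← h1] at h2
  exact cc_unique lam h2

theorem rowMon_single {n : ℕ} (j : Fin n) (s : ℕ) :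
    (rowMon (Pi.single j s) : U (n + 1)) = E (Fin.last n) j.castSucc ^ s := by
  induction s with
  | zero => simp
  | succ s ih =>
    rw [pow_succ', ← ih, X_mul_rowMon, ← Pi.single_add]

theorem exists_mon_pow : ∀ {n : ℕ} (i j : Fin n) (_ : j < i) (s : ℕ),
    ∃ T : Tab n, mon n T = (E i j : U n) ^ s := by
  intro n
  induction n with
  | zero => intro i; exact i.elim0
  | succ n ih =>
    intro i
    refine Fin.lastCases ?_ (fun i => ?_) i
    · intro j
      refine Fin.lastCases ?_ (fun j => ?_) j
      · intro h; exact absurd h (lt_irrefl _)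
      · intro _ s
        refine ⟨tab (Pi.single j s) (zt n), ?_⟩
        have : mon (n + 1) (tab (Pi.single j s) (zt n))
            = incl (Nat.le_succ n) (mon n (zt n)) * rowMon (Pi.single j s) := rfl
        rw [this, mon_zt, map_one, one_mul, rowMon_single]
    · intro j
      refine Fin.lastCases ?_ (fun j => ?_) j
      · intro h; exact absurd h (not_lt.2 (Fin.le_last _))
      · intro h s
        obtain ⟨T, hT⟩ := ih i j (by simpa using h) s
        refine ⟨tab 0 T, ?_⟩
        have : mon (n + 1) (tab 0 T) = incl (Nat.le_succ n) (mon n T) * rowMon 0 := rfl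
        rw [this, rowMon_zero, mul_one, hT, map_pow, incl_E]
        rfl

section
variable {n : ℕ} (lam : ℕ → ℂ) {i i' : Fin n} (hi : (i' : ℕ) = i + 1)

theorem left_mem {u : U n} (w : U n) (h : u ∈ J (fun k : Fin n => lam k)) :
    w * u ∈ J (fun k : Fin n => lam k) := Submodule.smul_mem _ w h

theorem E_mem {a b : Fin n} (h : a < b) : (E a b : U n) ∈ J (fun k : Fin n => lam k) :=
  Submodule.subset_span (Or.inl ⟨a, b, h, rfl⟩)

theorem push_mem {A B F : U n} (hAB : com A F = B) (hBF : com B F = 0)
    (hA : A ∈ J (fun k : Fin n => lam k)) (hB : B ∈ J (fun k : Fin n => lam k)) (s : ℕ) :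
    A * F ^ s ∈ J (fun k : Fin n => lam k) := by
  have hc : Commute B F := (com_eq_zero_iff _ _).1 hBF
  have h1 : ∀ s : ℕ, B * F ^ s ∈ J (fun k : Fin n => lam k) := by
    intro s
    rw [(hc.pow_right s).eq]
    exact left_mem lam _ hB
  induction s with
  | zero => simpa using hA
  | succ s ih =>
    have h2 : A * F = F * A + B := by
      unfold com at hAB
      rw [← hAB]; abel
    rw [pow_succ', ← mul_assoc, h2, add_mul, mul_assoc]
    exact Submodule.add_mem _ (left_mem lam _ ih) (h1 s)

include hi

theorem wt_F (a : Fin n) (s : ℕ) :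
    E a a * (E i' i : U n) ^ s
      - (lam a - (if a = i then (s : ℂ) else 0) + (if a = i' then (s : ℂ) else 0)) •
        (E i' i : U n) ^ s ∈ J (fun k : Fin n => lam k) := by
  induction s with
  | zero =>
    simp only [pow_zero, mul_one, Nat.cast_zero, ite_self, sub_zero, add_zero]
    have : lam a • (1 : U n) = algebraMap ℂ (U n) (lam a) := by
      rw [Algebra.algebraMap_eq_smul_one]
    rw [this]
    exact Submodule.subset_span (Or.inr ⟨a, rfl⟩)
  | succ s ih =>
    have h1 : E a a * (E i' i : U n) = E i' i * E a a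
        + ((if a = i' then (1 : ℂ) else 0) - (if a = i then (1 : ℂ) else 0)) • E i' i := by
      have := com_E a a i' i
      unfold com at this
      rw [sub_eq_iff_eq_add] at this
      rw [this, add_comm]
      congr 1
      rw [sub_smul]
      congr 1
      · split_ifs with h
        · subst h; simp
        · simp
      · by_cases h : a = i
        · subst h; simp
        · have : ¬ (i = a) := fun h' => h h'.symm
          simp [h, this]
    rw [pow_succ', ← mul_assoc, h1, add_mul, mul_assoc]
    have h2 := left_mem lam (E i' i) ih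
    rw [mul_sub, mul_smul_comm] at h2
    convert h2 using 1
    rw [smul_mul_assoc, add_sub_assoc, ← sub_smul, sub_eq_add_neg (E i' i * _), ← neg_smul]
    congr 2
    push_cast
    split_ifs <;> ring

theorem up_F (a b : Fin n) (hab : a < b) (hne : ¬ (a = i ∧ b = i')) (s : ℕ) :
    E a b * (E i' i : U n) ^ s ∈ J (fun k : Fin n => lam k) := by
  have hii : i ≠ i' := by
    intro h; rw [h] at hi; omega
  by_cases h1 : b = i'
  · have h2 : a ≠ i := fun h => hne ⟨h, h1⟩
    subst h1
    apply push_mem lam (B := E a i)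
    · rw [com_E, if_pos rfl, if_neg (Ne.symm h2), sub_zero]
    · rw [com_E, if_neg hii, if_neg (Ne.symm h2), sub_zero]
    · exact E_mem lam hab
    · apply E_mem
      rw [Fin.lt_def] at hab ⊢
      have : (a : ℕ) ≠ i := fun h => h2 (Fin.ext h)
      omega
  · by_cases h2 : a = i
    · subst h2
      have h3 : ¬ (b = i') := h1
      apply push_mem lam (B := - E i' b)
      · rw [com_E, if_neg h3, if_pos rfl, zero_sub]
      · have : com (-(E i' b : U n)) (E i' a) = - com (E i' b) (E i' a) := by
          unfold com; noncomm_ring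
        rw [this, com_E, if_neg h3, if_neg hii, sub_zero, neg_zero]
      · exact E_mem lam hab
      · apply Submodule.neg_mem
        apply E_mem
        rw [Fin.lt_def] at hab ⊢
        have : (b : ℕ) ≠ i' := fun h => h1 (Fin.ext h)
        omega
    · apply push_mem lam (B := 0)
      · rw [com_E, if_neg h1, if_neg (Ne.symm h2), sub_zero]
      · unfold com; simp
      · exact E_mem lam hab
      · exact Submodule.zero_mem _

theorem e_F (s : ℕ) :
    E i i' * (E i' i : U n) ^ (s + 1)
      - (((s : ℂ) + 1) * (lam i - lam i' - s)) • (E i' i : U n) ^ s ∈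
        J (fun k : Fin n => lam k) := by
  have hii : i ≠ i' := by
    intro h; rw [h] at hi; omega
  have hii2 : i < i' := by rw [Fin.lt_def]; omega
  have hcom : E i i' * (E i' i : U n) = E i' i * E i i' + (E i i - E i' i') := by
    have := com_E i i' i' i
    unfold com at this
    rw [if_pos rfl, if_pos rfl, sub_eq_iff_eq_add] at this
    rw [this]; abel
  -- weight of `h`
  have hh : ∀ s : ℕ, (E i i - E i' i') * (E i' i : U n) ^ s
      - (lam i - lam i' - 2 * s) • (E i' i : U n) ^ s ∈ J (fun k : Fin n => lam k) := by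
    intro s
    have h1 := wt_F lam hi i s
    have h2 := wt_F lam hi i' s
    rw [if_pos rfl, if_neg hii] at h1
    rw [if_neg (Ne.symm hii), if_pos rfl] at h2
    have := Submodule.sub_mem _ h1 h2
    convert this using 1
    rw [sub_mul]
    have h3 : (lam i - lam i' - 2 * s) • (E i' i : U n) ^ s
        = (lam i - s + 0) • (E i' i : U n) ^ s - (lam i' - 0 + s) • (E i' i : U n) ^ s := by
      rw [← sub_smul]; congr 1; ring
    rw [h3]; abel
  induction s with
  | zero =>
    rw [zero_add, pow_one, hcom]
    have h1 := left_mem lam (E i' i) (E_mem lam hii2)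
    have h2 := hh 0
    have h3 := Submodule.add_mem _ h1 h2
    convert h3 using 1
    simp
    abel
  | succ s ih =>
    rw [pow_succ', ← mul_assoc, hcom, add_mul, mul_assoc]
    have h1 := left_mem lam (E i' i) ih
    rw [mul_sub, mul_smul_comm, ← pow_succ'] at h1
    have h2 := hh (s + 1)
    have h3 := Submodule.add_mem _ h1 h2
    convert h3 using 1
    have h4 : ((((s + 1 : ℕ) : ℂ) + 1) * (lam i - lam i' - ((s + 1 : ℕ) : ℂ)))
        • (E i' i : U n) ^ (s + 1)
        = (((s : ℂ) + 1) * (lam i - lam i' - s)) • (E i' i : U n) ^ (s + 1)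
          + (lam i - lam i' - 2 * ((s + 1 : ℕ) : ℂ)) • (E i' i : U n) ^ (s + 1) := by
      rw [← add_smul]; congr 1; push_cast; ring
    rw [h4]
    abel

/-- The reflected weight. -/
theorem cc_refl {m : ℕ} (hm : lam i - lam i' = m) {mu : ℕ → ℂ}
    (h1 : mu i = lam i - (m + 1)) (h2 : mu i' = lam i' + (m + 1))
    (h3 : ∀ a : Fin n, a ≠ i → a ≠ i' → mu a = lam a)
    {z : U n} (hz : z ∈ Subalgebra.center ℂ (U n)) : cc n lam z = cc n mu z := by
  have hii : i ≠ i' := by
    intro h; rw [h] at hi; omega
  have hii2 : i < i' := by rw [Fin.lt_def]; omega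
  have hw : HW (Algebra.lmul ℂ (U n)) ((J (fun k : Fin n => lam k)).restrictScalars ℂ)
      ((E i' i : U n) ^ (m + 1)) (fun k : Fin n => mu k) := by
    refine ⟨(hwJ _).stab, ?_, ?_⟩
    · intro a b hab
      rw [Submodule.restrictScalars_mem]
      simp only [Algebra.coe_lmul_eq_mul, LinearMap.mul_apply']
      by_cases hne : a = i ∧ b = i'
      · obtain ⟨rfl, rfl⟩ := hne
        have := e_F lam hi m
        rw [hm, sub_self, mul_zero, zero_smul, sub_zero] at this
        exact this
      · exact up_F lam hi a b hab hne _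
    · intro a
      rw [Submodule.restrictScalars_mem]
      simp only [Algebra.coe_lmul_eq_mul, LinearMap.mul_apply']
      have := wt_F lam hi a (m + 1)
      convert this using 3
      by_cases ha : a = i
      · subst ha
        rw [if_pos rfl, if_neg hii, h1]; push_cast; ring
      · by_cases ha' : a = i'
        · subst ha'
          rw [if_neg ha, if_pos rfl, h2]; push_cast; ring
        · rw [if_neg ha, if_neg ha', h3 a ha ha']; ring
  have h4 := hw.central hz
  rw [Submodule.restrictScalars_mem] at h4
  simp only [Algebra.coe_lmul_eq_mul, LinearMap.mul_apply'] at h4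
  have h5 := left_mem lam ((E i' i : U n) ^ (m + 1)) (cc_spec lam hz)
  rw [Subalgebra.mem_center_iff] at hz
  rw [mul_sub, hz, ← Algebra.commutes, ← Algebra.smul_def] at h5
  have h6 := Submodule.sub_mem _ h4 h5
  rw [sub_sub_sub_cancel_left, ← sub_smul] at h6
  obtain ⟨T, hT⟩ := exists_mon_pow i' i hii2 (m + 1)
  rw [← hT] at h6
  have h7 := indep_J _ (Finsupp.single T (cc n lam z - cc n mu z)) (by
    rw [Finsupp.linearCombination_single]
    exact h6)
  rw [Finsupp.single_eq_zero] at h7
  exact sub_eq_zero.1 h7

end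

/-- The weight with shifted entries `c - N_i`. -/
noncomputable def wtc (n : ℕ) (c : ℂ) (N : Fin n → ℕ) : ℕ → ℂ :=
  fun i => if h : i < n then c - N ⟨i, h⟩ + i else 0

theorem wtc_fin {n : ℕ} (c : ℂ) (N : Fin n → ℕ) (i : Fin n) : wtc n c N i = c - N i + (i : ℕ) := by
  unfold wtc
  rw [dif_pos i.2]

theorem cc_swap_aux {n : ℕ} (c : ℂ) (N : Fin (n + 1) → ℕ) (i : Fin n)
    (hlt : N i.castSucc < N i.succ) {z : U (n + 1)}
    (hz : z ∈ Subalgebra.center ℂ (U (n + 1))) :
    cc (n + 1) (wtc (n + 1) c N) z
      = cc (n + 1) (wtc (n + 1) c (N ∘ Equiv.swap i.castSucc i.succ)) z := by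
  have hle : N i.castSucc + 1 ≤ N i.succ := hlt
  apply cc_refl (i := i.castSucc) (i' := i.succ) (wtc (n + 1) c N) (by simp)
    (m := N i.succ - N i.castSucc - 1)
  · rw [wtc_fin, wtc_fin, Nat.sub_sub, Nat.cast_sub hle]
    simp only [Fin.val_castSucc, Fin.val_succ]
    push_cast; ring
  · rw [wtc_fin, wtc_fin, Nat.sub_sub, Nat.cast_sub hle]
    simp only [Function.comp, Equiv.swap_apply_left]
    push_cast; ring
  · rw [wtc_fin, wtc_fin, Nat.sub_sub, Nat.cast_sub hle]
    simp only [Function.comp, Equiv.swap_apply_right]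
    push_cast; ring
  · intro a h1 h2
    rw [wtc_fin, wtc_fin]
    simp only [Function.comp, Equiv.swap_apply_of_ne_of_ne h1 h2]
  · exact hz

theorem cc_swap {n : ℕ} (c : ℂ) (N : Fin (n + 1) → ℕ) (i : Fin n) {z : U (n + 1)}
    (hz : z ∈ Subalgebra.center ℂ (U (n + 1))) :
    cc (n + 1) (wtc (n + 1) c N) z
      = cc (n + 1) (wtc (n + 1) c (N ∘ Equiv.swap i.castSucc i.succ)) z := by
  rcases lt_trichotomy (N i.castSucc) (N i.succ) with h | h | h
  · exact cc_swap_aux c N i h hz
  · have : N ∘ Equiv.swap i.castSucc i.succ = N := by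
      funext k
      simp only [Function.comp]
      by_cases h1 : k = i.castSucc
      · rw [h1, Equiv.swap_apply_left, h]
      · by_cases h2 : k = i.succ
        · rw [h2, Equiv.swap_apply_right, h]
        · rw [Equiv.swap_apply_of_ne_of_ne h1 h2]
    rw [this]
  · have h1 := cc_swap_aux c (N ∘ Equiv.swap i.castSucc i.succ) i (by
      simp only [Function.comp, Equiv.swap_apply_left, Equiv.swap_apply_right]
      exact h) hz
    rw [h1]
    congr 2
    funext k
    simp [Function.comp]

/-- Invariance under all permutations. -/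
theorem hc_perm {n : ℕ} (c : ℂ) (N : Fin n → ℕ) (σ : Equiv.Perm (Fin n)) {z : U n}
    (hz : z ∈ Subalgebra.center ℂ (U n)) :
    cc n (wtc n c N) z = cc n (wtc n c (N ∘ σ)) z := by
  cases n with
  | zero =>
    have : N ∘ σ = N := by funext k; exact k.elim0
    rw [this]
  | succ n =>
    have hσ : σ ∈ Submonoid.closure (Set.range fun i : Fin n => Equiv.swap i.castSucc i.succ) := by
      rw [Equiv.Perm.mclosure_swap_castSucc_succ]; trivial
    revert N
    induction hσ using Submonoid.closure_induction with
    | mem x hx =>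
      obtain ⟨i, rfl⟩ := hx
      intro N
      exact cc_swap c N i hz
    | one => intro N; rfl
    | mul x y _ _ hx hy =>
      intro N
      rw [hx N, hy (N ∘ x)]
      rfl

end Pool.Agent.J4H84.GT
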