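import Mathlib

/-!
# Generalised weight spaces of a triangular action of a commutative algebra
-/

namespace Pool.Agent.J4H84.GT

open Cardinal

/-- The generalised weight space `{v : I^k v = 0 for some k}`: every product of `k` elements of
`I` kills `v`. -/
def genSet {G V : Type*} [Ring G] [AddCommGroup V] [Module ℂ V] (act : G → Module.End ℂ V)
    (I : Set G) : Set V :=
  {v | ∃ k : ℕ, ∀ l : List G, l.length = k → (∀ a ∈ l, a ∈ I) → act l.prod v = 0}

/-- the generalised weight space as a submodule -/
def genSub {V G : Type*} [AddCommGroup V] [Module ℂ V] [Ring G] [Algebra ℂ G]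
    (π : G →ₐ[ℂ] Module.End ℂ V) (I : Set G) : Submodule ℂ V where
  carrier := genSet π I
  zero_mem' := ⟨0, fun l _ _ => map_zero _⟩
  add_mem' := by
    rintro x y ⟨k, hk⟩ ⟨m, hm⟩
    have hpad : ∀ (k m : ℕ) (x : V),
        (∀ l : List G, l.length = k → (∀ a ∈ l, a ∈ I) → π l.prod x = 0) →
        ∀ l : List G, l.length = k + m → (∀ a ∈ l, a ∈ I) → π l.prod x = 0 := by
      intro k m x hx l hl1 hl2
      have h1 : l.prod = (l.take m).prod * (l.drop m).prod := by
        rw [← List.prod_append, List.take_append_drop]
      rw [h1, map_mul, Module.End.mul_apply, hx (l.drop m) (by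
        rw [List.length_drop]; omega) (fun a ha => hl2 a (List.mem_of_mem_drop ha)), map_zero]
    refine ⟨k + m, fun l hl1 hl2 => ?_⟩
    rw [map_add, hpad k m x hk l hl1 hl2, hpad m k y hm l (by omega) hl2, add_zero]
  smul_mem' := by
    rintro c x ⟨k, hk⟩
    refine ⟨k, fun l hl1 hl2 => ?_⟩
    rw [map_smul, hk l hl1 hl2, smul_zero]

section
variable {ι V G : Type} [LinearOrder ι] [AddCommGroup V] [Module ℂ V] [Ring G] [Algebra ℂ G]

/-- A triangular action. -/
structure Tri (b : Module.Basis ι ℂ V) (π : G →ₐ[ℂ] Module.End ℂ V) (ht : ι → ℕ) (D : G) (d0 : ℂ) :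
    Prop where
  comm : ∀ x y : G, x * y = y * x
  tri : ∀ (g : G) (T S : ι), T < S → b.repr (π g (b T)) S = 0
  fin : ∀ h : ℕ, {T | ht T = h}.Finite
  hD : ∀ T, π D (b T) = (d0 + ht T) • b T

namespace Tri
variable {b : Module.Basis ι ℂ V} {π : G →ₐ[ℂ] Module.End ℂ V} {ht : ι → ℕ} {D : G} {d0 : ℂ}

/-- the diagonal character -/
noncomputable def ch (b : Module.Basis ι ℂ V) (π : G →ₐ[ℂ] Module.End ℂ V) (T : ι) (g : G) : ℂ :=
  b.repr (π g (b T)) T

/-- vectors with coordinates only `≤ T` -/
def Le (b : Module.Basis ι ℂ V) (T : ι) : Submodule ℂ V where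
  carrier := {x | ∀ S, T < S → b.repr x S = 0}
  zero_mem' := by intro S _; simp
  add_mem' := by
    intro x y hx hy S hS
    rw [map_add, Finsupp.add_apply, hx S hS, hy S hS, add_zero]
  smul_mem' := by
    intro c x hx S hS
    rw [map_smul, Finsupp.smul_apply, hx S hS, smul_zero]

theorem mem_Le {T : ι} {x : V} : x ∈ Le b T ↔ ∀ S, T < S → b.repr x S = 0 := Iff.rfl

theorem sum_repr' (x : V) : x = ∑ S ∈ (b.repr x).support, b.repr x S • b S := by
  conv_lhs => rw [← b.linearCombination_repr x]
  rfl

variable (h : Tri b π ht D d0)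
include h

theorem apply_coord (g : G) {T : ι} {x : V} (hx : x ∈ Le b T) :
    b.repr (π g x) T = ch b π T g * b.repr x T ∧ π g x ∈ Le b T := by
  have key : ∀ S', T ≤ S' → b.repr (π g x) S'
      = ∑ S ∈ (b.repr x).support, b.repr x S * b.repr (π g (b S)) S' := by
    intro S' _
    conv_lhs => rw [sum_repr' (b := b) x]
    rw [map_sum, map_sum, Finsupp.finsetSum_apply]
    apply Finset.sum_congr rfl
    intro S _
    rw [map_smul, map_smul, Finsupp.smul_apply, smul_eq_mul]
  constructor
  · rw [key T le_rfl]
    by_cases hT : T ∈ (b.repr x).support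
    · rw [Finset.sum_eq_single T]
      · rw [mul_comm]; rfl
      · intro S hS hST
        have : S < T := by
          rcases lt_trichotomy S T with h1 | h1 | h1
          · exact h1
          · exact absurd h1 hST
          · exact absurd (hx S h1) (Finsupp.mem_support_iff.1 hS)
        rw [h.tri g S T this, mul_zero]
      · intro h1; exact absurd hT h1
    · have h0 : b.repr x T = 0 := Finsupp.notMem_support_iff.1 hT
      rw [h0, mul_zero]
      apply Finset.sum_eq_zero
      intro S hS
      have : S < T := by
        rcases lt_trichotomy S T with h1 | h1 | h1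
        · exact h1
        · subst h1; exact absurd hS hT
        · exact absurd (hx S h1) (Finsupp.mem_support_iff.1 hS)
      rw [h.tri g S T this, mul_zero]
  · intro S' hS'
    rw [key S' hS'.le]
    apply Finset.sum_eq_zero
    intro S hS
    have : S < S' := by
      rcases le_or_gt S T with h1 | h1
      · exact lt_of_le_of_lt h1 hS'
      · exact absurd (hx S h1) (Finsupp.mem_support_iff.1 hS)
    rw [h.tri g S S' this, mul_zero]

theorem ch_mul (T : ι) (g g' : G) : ch b π T (g * g') = ch b π T g * ch b π T g' := by
  have h1 : b T ∈ Le b T := by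
    intro S hS
    rw [b.repr_self, Finsupp.single_apply, if_neg (ne_of_lt hS)]
  have h2 := h.apply_coord g' h1
  have h3 := h.apply_coord g h2.2
  unfold ch
  rw [map_mul, Module.End.mul_apply, h3.1]
  rfl

omit h in
theorem ch_add (T : ι) (g g' : G) : ch b π T (g + g') = ch b π T g + ch b π T g' := by
  unfold ch
  rw [map_add, LinearMap.add_apply, map_add, Finsupp.add_apply]

omit h in
theorem ch_algebraMap (T : ι) (c : ℂ) : ch b π T (algebraMap ℂ G c) = c := by
  unfold ch
  rw [AlgHom.commutes, Module.algebraMap_end_apply, map_smul, b.repr_self, Finsupp.smul_apply]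
  simp

theorem ch_one (T : ι) : ch b π T (1 : G) = 1 := by
  have := ch_algebraMap (b := b) (π := π) (G := G) T 1
  rwa [map_one] at this

/-- the character as an algebra homomorphism -/
noncomputable def chHom (T : ι) : G →ₐ[ℂ] ℂ where
  toFun := ch b π T
  map_one' := h.ch_one T
  map_mul' := h.ch_mul T
  map_zero' := by
    have := ch_algebraMap (b := b) (π := π) (G := G) T 0
    rwa [map_zero] at this
  map_add' := ch_add T
  commutes' := ch_algebraMap T

@[simp] theorem chHom_apply (T : ι) (g : G) : h.chHom T g = ch b π T g := rfl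

theorem ch_D (T : ι) : ch b π T D = d0 + ht T := by
  unfold ch
  rw [h.hD, map_smul, b.repr_self, Finsupp.smul_apply]
  simp

/-- `T` is the leading index of `x` -/
def IsLead (b : Module.Basis ι ℂ V) (x : V) (T : ι) : Prop :=
  b.repr x T ≠ 0 ∧ ∀ S, T < S → b.repr x S = 0

omit h in
theorem exists_lead {x : V} (hx : x ≠ 0) : ∃ T, IsLead b x T := by
  have hne : (b.repr x).support.Nonempty := by
    rw [Finsupp.support_nonempty_iff]
    intro h0
    apply hx
    exact b.repr.map_eq_zero_iff.1 h0
  refine ⟨(b.repr x).support.max' hne, ?_, ?_⟩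
  · exact Finsupp.mem_support_iff.1 (Finset.max'_mem _ hne)
  · intro S hS
    by_contra hcon
    have := Finset.le_max' _ S (Finsupp.mem_support_iff.2 hcon)
    exact absurd hS (not_lt.2 this)

/-- Leading indices of generalised weight vectors. -/
theorem lead_gen {I : Set G} {x : V} (hx : x ∈ genSet π I) {T : ι} (hT : IsLead b x T) :
    ∀ a ∈ I, ch b π T a = 0 := by
  intro a ha
  obtain ⟨k, hk⟩ := hx
  have h1 := hk (List.replicate k a) (by simp) (by
    intro c hc
    rw [List.mem_replicate] at hc
    rw [hc.2]; exact ha)
  rw [List.prod_replicate] at h1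
  have h2 := (h.apply_coord (a ^ k) hT.2).1
  rw [h1, map_zero, Finsupp.zero_apply] at h2
  have h3 : ch b π T (a ^ k) = 0 := by
    rcases mul_eq_zero.1 h2.symm with h4 | h4
    · exact h4
    · exact absurd h4 hT.1
  rw [← h.chHom_apply, map_pow] at h3
  have h4 : k ≠ 0 := by
    intro h0
    rw [h0, pow_zero] at h3
    exact absurd h3 one_ne_zero
  rw [pow_eq_zero_iff h4] at h3
  exact h3

/-- vectors with coordinates of height `s` only are preserved. -/
theorem ht_stable (g : G) {s : ℕ} {x : V} (hx : ∀ S, b.repr x S ≠ 0 → ht S = s) :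
    ∀ S, b.repr (π g x) S ≠ 0 → ht S = s := by
  have h1 : π D x = (d0 + s) • x := by
    conv_lhs => rw [sum_repr' (b := b) x]
    conv_rhs => rw [sum_repr' (b := b) x]
    rw [map_sum, Finset.smul_sum]
    apply Finset.sum_congr rfl
    intro S hS
    rw [map_smul, h.hD, hx S (Finsupp.mem_support_iff.1 hS), smul_comm]
  have h2 : π D (π g x) = (d0 + s) • π g x := by
    rw [← Module.End.mul_apply, ← map_mul, h.comm, map_mul, Module.End.mul_apply, h1, map_smul]
  intro S hS
  have h3 : b.repr (π D (π g x)) S = (d0 + ht S) * b.repr (π g x) S := by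
    conv_lhs => rw [sum_repr' (b := b) (π g x)]
    rw [map_sum, map_sum, Finsupp.finsetSum_apply, Finset.sum_eq_single S]
    · rw [map_smul, h.hD, map_smul, map_smul, b.repr_self]
      simp [mul_comm]
      ring
    · intro S' _ hne
      rw [map_smul, h.hD, map_smul, map_smul, b.repr_self]
      simp [hne]
    · intro hns
      rw [Finsupp.notMem_support_iff.1 hns]; simp
  rw [h2, map_smul, Finsupp.smul_apply, smul_eq_mul] at h3
  have h4 := mul_right_cancel₀ hS h3
  have h5 : (s : ℂ) = ht S := by linear_combination h4
  exact_mod_cast h5.symm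

open Classical in
/-- product of the separating elements -/
noncomputable def sepProd (χ : G → ℂ) (f : ι → G) (A : Finset ι) : G :=
  (A.filter fun S => ch b π S ≠ χ).noncommProd f (fun _ _ _ _ _ => h.comm _ _)

open Classical in
/-- the key killing lemma -/
theorem kill (s : ℕ) (χ : G → ℂ) (f : ι → G) (hf : ∀ S, ch b π S ≠ χ → ch b π S (f S) = 0)
    (I : Set G) (hI : ∀ a ∈ I, χ a = 0) (A : Finset ι) :
    (∀ S ∈ A, ht S = s) → (∀ S, ht S = s → ∀ S' ∈ A, S ≤ S' → S ∈ A) →
    ∀ x : V, (∀ S, b.repr x S ≠ 0 → S ∈ A) →
    ∀ l : List G, (∀ a ∈ l, a ∈ I) → (A.filter fun S => ch b π S = χ).card ≤ l.length →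
      π l.prod (π (h.sepProd χ f A) x) = 0 := by
  induction A using Finset.induction_on_max with
  | empty =>
    intro _ _ x hx l _ _
    have : x = 0 := by
      apply b.repr.map_eq_zero_iff.1
      ext S
      by_contra hcon
      exact absurd (hx S hcon) (Finset.notMem_empty S)
    rw [this, map_zero, map_zero]
  | insert a t hmax ih =>
    intro hA1 hA2 x hx l hl hcard
    have hat : a ∉ t := fun hat => absurd (hmax a hat) (lt_irrefl _)
    have ht1 : ∀ S ∈ t, ht S = s := fun S hS => hA1 S (Finset.mem_insert_of_mem hS)
    have ht2 : ∀ S, ht S = s → ∀ S' ∈ t, S ≤ S' → S ∈ t := by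
      intro S hS S' hS' hle
      have h1 := hA2 S hS S' (Finset.mem_insert_of_mem hS') hle
      rw [Finset.mem_insert] at h1
      rcases h1 with h1 | h1
      · subst h1
        exact absurd (hmax S' hS') (not_lt.2 hle)
      · exact h1
    have hxLe : x ∈ Le b a := by
      intro S hS
      by_contra hcon
      have h1 := hx S hcon
      rw [Finset.mem_insert] at h1
      rcases h1 with h1 | h1
      · subst h1; exact lt_irrefl _ hS
      · exact lt_irrefl _ (hS.trans (hmax S h1))
    have hxs : ∀ S, b.repr x S ≠ 0 → ht S = s := fun S hS => hA1 S (hx S hS)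
    -- applying an element with vanishing diagonal entry at `a`
    have hdown : ∀ c : G, ch b π a c = 0 → ∀ S, b.repr (π c x) S ≠ 0 → S ∈ t := by
      intro c hc S hS
      have h1 := h.apply_coord c hxLe
      have h2 := h.ht_stable c hxs S hS
      have h3 : S < a := by
        rcases lt_trichotomy S a with h4 | h4 | h4
        · exact h4
        · subst h4
          rw [h1.1, hc, zero_mul] at hS
          exact absurd rfl hS
        · exact absurd (h1.2 S h4) hS
      have h4 := hA2 S h2 a (Finset.mem_insert_self _ _) h3.le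
      rw [Finset.mem_insert] at h4
      rcases h4 with h4 | h4
      · exact absurd h4 (ne_of_lt h3)
      · exact h4
    by_cases hχ : ch b π a = χ
    · -- use one element of the list
      have hP : h.sepProd χ f (insert a t) = h.sepProd χ f t := by
        unfold sepProd
        congr 1
        rw [Finset.filter_insert, if_neg (not_not.2 hχ)]
      rw [hP]
      rw [Finset.filter_insert, if_pos hχ, Finset.card_insert_of_notMem (by
        intro h1; exact hat (Finset.mem_filter.1 h1).1)] at hcard
      cases l with
      | nil => simp at hcard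
      | cons c l =>
        rw [List.prod_cons, ← Module.End.mul_apply, ← map_mul]
        have h1 : c * l.prod * h.sepProd χ f t = l.prod * (h.sepProd χ f t * c) := by
          rw [h.comm (h.sepProd χ f t) c, ← mul_assoc, h.comm c l.prod]
        rw [h1, map_mul, Module.End.mul_apply, map_mul, Module.End.mul_apply]
        apply ih ht1 ht2
        · apply hdown
          rw [hχ]
          exact hI c (hl c (by simp))
        · intro c' hc'
          exact hl c' (List.mem_cons_of_mem _ hc')
        · rw [List.length_cons] at hcard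
          omega
    · have hP : h.sepProd χ f (insert a t) = f a * h.sepProd χ f t := by
        unfold sepProd
        have h1 : (insert a t).filter (fun S => ch b π S ≠ χ)
            = insert a (t.filter fun S => ch b π S ≠ χ) := by
          rw [Finset.filter_insert, if_pos hχ]
        have h2 : a ∉ t.filter fun S => ch b π S ≠ χ := by
          intro h3; exact hat (Finset.mem_filter.1 h3).1
        have h3 := Finset.noncommProd_insert_of_notMem (t.filter fun S => ch b π S ≠ χ) a f
          (fun _ _ _ _ _ => h.comm _ _) h2
        rw [← h3]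
        congr 1
      rw [hP]
      rw [Finset.filter_insert, if_neg hχ] at hcard
      rw [h.comm (f a), map_mul, Module.End.mul_apply]
      apply ih ht1 ht2
      · apply hdown
        exact hf a hχ
      · exact hl
      · exact hcard

/-- construction of generalised weight vectors with prescribed leading index -/
theorem exists_gen {I : Set G} {T : ι} (hT : ∀ a ∈ I, ch b π T a = 0) :
    ∃ x ∈ genSet π I, IsLead b x T := by
  classical
  set χ := ch b π T with hχ
  -- separating elements
  have hsep : ∀ S, ∃ g : G, ch b π S ≠ χ → (ch b π S g = 0 ∧ χ g ≠ 0) := by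
    intro S
    by_cases hS : ch b π S = χ
    · exact ⟨0, fun h1 => absurd hS h1⟩
    · have : ∃ g, ch b π S g ≠ χ g := by
        by_contra hcon
        push Not at hcon
        exact hS (funext hcon)
      obtain ⟨g, hg⟩ := this
      refine ⟨g - algebraMap ℂ G (ch b π S g), fun _ => ⟨?_, ?_⟩⟩
      · have := map_sub (h.chHom S) g (algebraMap ℂ G (ch b π S g))
        rw [h.chHom_apply, h.chHom_apply, h.chHom_apply, ch_algebraMap, sub_self] at this
        exact this
      · have := map_sub (h.chHom T) g (algebraMap ℂ G (ch b π S g))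
        rw [h.chHom_apply, h.chHom_apply, h.chHom_apply, ch_algebraMap] at this
        rw [hχ, this]
        exact sub_ne_zero.2 (fun h1 => hg (by rw [hχ]; exact h1.symm))
  choose f hf using hsep
  let A : Finset ι := (h.fin (ht T)).toFinset
  have hA : ∀ S, S ∈ A ↔ ht S = ht T := by
    intro S
    simp [A]
  have hbT : b T ∈ Le b T := by
    intro S hS
    rw [b.repr_self, Finsupp.single_apply, if_neg (ne_of_lt hS)]
  refine ⟨π (h.sepProd χ f A) (b T), ?_, ?_, ?_⟩
  · refine ⟨(A.filter fun S => ch b π S = χ).card, ?_⟩
    intro l hl1 hl2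
    refine h.kill (ht T) χ f (fun S hS => (hf S hS).1) I hT A ?_ ?_ (b T) ?_ l hl2 hl1.ge
    · intro S hS; exact (hA S).1 hS
    · intro S hS _ _ _; exact (hA S).2 hS
    · intro S hS
      rw [b.repr_self, Finsupp.single_apply] at hS
      rw [hA]
      by_contra hcon
      apply hS
      rw [if_neg]
      intro h1
      rw [h1] at hcon
      exact hcon rfl
  · rw [(h.apply_coord _ hbT).1, b.repr_self, Finsupp.single_eq_same, mul_one]
    rw [← h.chHom_apply]
    unfold sepProd
    rw [Finset.map_noncommProd]
    rw [Finset.noncommProd_eq_prod]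
    rw [Finset.prod_ne_zero_iff]
    intro S hS
    rw [Finset.mem_filter] at hS
    exact (hf S hS.2).2
  · exact (h.apply_coord _ hbT).2

omit h in
theorem mem_gen {I : Set G} {x : V} : x ∈ genSub π I ↔ x ∈ genSet π I := Iff.rfl

/-- **Dimension of generalised weight spaces.** -/
theorem rank_gen (I : Set G) :
    Module.rank ℂ (genSub π I) = Cardinal.mk {T : ι // ∀ a ∈ I, ch b π T a = 0} := by
  apply le_antisymm
  · -- injection
    let L : genSub π I →ₗ[ℂ] ({T : ι // ∀ a ∈ I, ch b π T a = 0} →₀ ℂ) :=
      (Finsupp.lcomapDomain (Subtype.val) Subtype.val_injective).comp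
        (b.repr.toLinearMap.comp (genSub π I).subtype)
    have hL : Function.Injective L := by
      rw [← LinearMap.ker_eq_bot, LinearMap.ker_eq_bot']
      rintro ⟨x, hx⟩ hLx
      by_contra hne
      have hx0 : x ≠ 0 := by
        intro h0; apply hne; exact Subtype.ext h0
      obtain ⟨T, hT⟩ := exists_lead (b := b) hx0
      have hT' := h.lead_gen (mem_gen.1 hx) hT
      have h1 := DFunLike.congr_fun hLx ⟨T, hT'⟩
      exact hT.1 h1
    have := LinearMap.rank_le_of_injective L hL
    rwa [rank_finsupp_self'] at this
  · -- independent family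
    have hex : ∀ T : {T : ι // ∀ a ∈ I, ch b π T a = 0}, ∃ x : genSub π I, IsLead b (x : V) T.1 := by
      rintro ⟨T, hT⟩
      obtain ⟨x, hx, hl⟩ := h.exists_gen hT
      exact ⟨⟨x, hx⟩, hl⟩
    choose x hx using hex
    have hli : LinearIndependent ℂ x := by
      rw [linearIndependent_iff]
      intro l hl
      by_contra hne
      have hsupp : l.support.Nonempty := Finsupp.support_nonempty_iff.2 hne
      set T := l.support.max' hsupp with hT
      have hTmem : T ∈ l.support := Finset.max'_mem _ _
      have h1 : (Finsupp.linearCombination ℂ x l : genSub π I) = 0 := hl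
      have h2 := congrArg (fun y : genSub π I => b.repr (y : V) T.1) h1
      simp only [ZeroMemClass.coe_zero, map_zero, Finsupp.coe_zero, Pi.zero_apply] at h2
      rw [Finsupp.linearCombination_apply, Finsupp.sum] at h2
      rw [AddSubmonoidClass.coe_finset_sum, map_sum, Finsupp.finsetSum_apply,
        Finset.sum_eq_single T] at h2
      · rw [Submodule.coe_smul, map_smul, Finsupp.smul_apply, smul_eq_mul, mul_eq_zero] at h2
        rcases h2 with h2 | h2
        · exact (Finsupp.mem_support_iff.1 hTmem) h2
        · exact (hx T).1 h2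
      · intro S hS hne
        have h3 : S < T := lt_of_le_of_ne (Finset.le_max' _ S hS) hne
        rw [Submodule.coe_smul, map_smul, Finsupp.smul_apply, (hx S).2 T.1 h3, smul_zero]
      · intro h3; exact absurd hTmem h3
    exact hli.cardinal_le_rank

end Tri
end

end Pool.Agent.J4H84.GT
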