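import Pool.Agent.J4H84.GT.HC1
import Pool.Agent.J4H84.GT.HC2
import Pool.Agent.J4H84.GT.Lead

/-!
# The Gelfand-Tsetlin subalgebra acting on Verma modules
-/

set_option backward.isDefEq.respectTransparency false

namespace Pool.Agent.J4H84.GT

/-- The Gelfand-Tsetlin subalgebra `Γ ⊆ U(gl(n))`: the subalgebra generated by the centers
`Z_m` of `U(gl(m))`, `1 ≤ m ≤ n`, where `gl(m) ⊆ gl(n)` is the upper left block. -/
noncomputable def GTalg (n : ℕ) : Subalgebra ℂ (U n) :=
  Algebra.adjoin ℂ {x | ∃ (m : ℕ) (_ : 1 ≤ m) (h : m ≤ n) (z : U m),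
    z ∈ Subalgebra.center ℂ (U m) ∧ x = incl h z}

theorem incl_mem_GTalg {m n : ℕ} (hm : 1 ≤ m) (h : m ≤ n) {z : U m}
    (hz : z ∈ Subalgebra.center ℂ (U m)) : incl h z ∈ GTalg n :=
  Algebra.subset_adjoin ⟨m, hm, h, z, hz, rfl⟩

theorem comm_gen {m k n : ℕ} (hm : m ≤ n) (hk : k ≤ n) {z : U m} {w : U k}
    (hz : z ∈ Subalgebra.center ℂ (U m)) (hw : w ∈ Subalgebra.center ℂ (U k)) :
    incl hm z * incl hk w = incl hk w * incl hm z := by
  rcases le_total m k with h | h
  · rw [← incl_incl h hk z, ← map_mul, ← map_mul]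
    rw [Subalgebra.mem_center_iff] at hw
    rw [hw]
  · rw [← incl_incl h hm w, ← map_mul, ← map_mul]
    rw [Subalgebra.mem_center_iff] at hz
    rw [hz]

theorem GTalg_comm' {n : ℕ} {x y : U n} (hx : x ∈ GTalg n) (hy : y ∈ GTalg n) :
    x * y = y * x := by
  have h1 : GTalg n ≤ Subalgebra.centralizer ℂ {x | ∃ (m : ℕ) (_ : 1 ≤ m) (h : m ≤ n) (z : U m),
      z ∈ Subalgebra.center ℂ (U m) ∧ x = incl h z} := by
    unfold GTalg
    rw [Algebra.adjoin_le_iff]
    rintro _ ⟨m, hm1, hm, z, hz, rfl⟩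
    rw [SetLike.mem_coe, Subalgebra.mem_centralizer_iff]
    rintro _ ⟨k, hk1, hk, w, hw, rfl⟩
    exact comm_gen hk hm hw hz
  have h2 : GTalg n ≤ Subalgebra.centralizer ℂ (GTalg n : Set (U n)) := by
    conv_lhs => unfold GTalg
    rw [Algebra.adjoin_le_iff]
    intro g hg
    rw [SetLike.mem_coe, Subalgebra.mem_centralizer_iff]
    intro y hy
    have := h1 hy
    rw [Subalgebra.mem_centralizer_iff] at this
    exact (this g hg).symm
  have h3 := h2 hx
  rw [Subalgebra.mem_centralizer_iff] at h3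
  exact (h3 y hy).symm

theorem GTalg_comm {n : ℕ} (x y : GTalg n) : x * y = y * x :=
  Subtype.ext (GTalg_comm' x.2 y.2)

theorem Gtr_one (m : ℕ) : Gtr m 1 = ∑ i : Fin m, E i i := by
  unfold Gtr
  apply Finset.sum_congr rfl
  intro i _
  rw [G_succ, Finset.sum_eq_single i]
  · rw [G_zero, if_pos rfl, one_mul]
  · intro k _ hk
    rw [G_zero, if_neg (Ne.symm hk), zero_mul]
  · simp

theorem E_mem_GTalg {n : ℕ} (i : Fin n) : (E i i : U n) ∈ GTalg n := by
  have h1 : (i : ℕ) + 1 ≤ n := i.2
  have h2 : incl h1 (Gtr ((i : ℕ) + 1) 1) ∈ GTalg n :=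
    incl_mem_GTalg (by omega) h1 (Gtr_mem _ _)
  have h3 : incl (i.2.le) (Gtr (i : ℕ) 1) ∈ GTalg n := by
    rcases Nat.eq_zero_or_pos (i : ℕ) with h0 | h0
    · have : Gtr (i : ℕ) 1 = 0 := by
        rw [Gtr_one]
        apply Finset.sum_eq_zero
        intro j _
        exact absurd j.2 (by omega)
      rw [this, map_zero]
      exact Subalgebra.zero_mem _
    · exact incl_mem_GTalg h0 _ (Gtr_mem _ _)
  have h4 : (E i i : U n) = incl h1 (Gtr ((i : ℕ) + 1) 1) - incl (i.2.le) (Gtr (i : ℕ) 1) := by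
    rw [Gtr_one, Gtr_one, map_sum, map_sum, Fin.sum_univ_castSucc]
    simp only [incl_E]
    have h5 : Fin.castLE h1 (Fin.last (i : ℕ)) = i := by
      apply Fin.ext; simp
    rw [h5]
    have h6 : ∀ j : Fin (i : ℕ), Fin.castLE h1 j.castSucc = Fin.castLE (i.2.le) j := by
      intro j; apply Fin.ext; simp
    simp only [h6]
    abel
  rw [h4]
  exact Subalgebra.sub_mem _ h2 h3

theorem Dn_mem_GTalg (n : ℕ) : Dn n ∈ GTalg n := by
  unfold Dn
  apply Subalgebra.sum_mem
  intro i _
  exact Subalgebra.smul_mem _ (E_mem_GTalg i) _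

theorem ht_fin : ∀ (n h : ℕ), {T : Tab n | ht n T ≤ h}.Finite := by
  intro n
  induction n with
  | zero =>
    intro h
    haveI : Subsingleton (Tab 0) := inferInstanceAs (Subsingleton PUnit)
    exact Set.toFinite _
  | succ n ih =>
    intro h
    have h1 : ({a : Fin n → ℕ | a ≤ fun _ => h}).Finite := Set.finite_Iic (fun _ : Fin n => h)
    have h2 := (h1.prod (ih h)).image (fun p : (Fin n → ℕ) × Tab n => tab p.1 p.2)
    apply h2.subset
    intro T hT
    have h3 : ht (n + 1) T = ht n (rest T) + ∑ j : Fin n, row T j * (n - j) := rfl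
    rw [Set.mem_setOf_eq, h3] at hT
    refine ⟨(row T, rest T), ⟨?_, ?_⟩, tab_eta T⟩
    · intro j
      have h4 : row T j * (n - j) ≤ ∑ j : Fin n, row T j * (n - j) :=
        Finset.single_le_sum (f := fun j : Fin n => row T j * (n - j))
          (fun _ _ => Nat.zero_le _) (Finset.mem_univ j)
      have h5 : 1 ≤ n - (j : ℕ) := by have := j.2; omega
      have h6 : row T j ≤ row T j * (n - j) := Nat.le_mul_of_pos_right _ h5
      change row T j ≤ h
      omega
    · change ht n (rest T) ≤ h
      omega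

section
variable (n : ℕ) (L : ℕ → ℂ)

/-- the monomial basis of a Verma module -/
noncomputable def bV : Module.Basis (Tab n) ℂ (Verma (fun i : Fin n => L i)) :=
  Module.Basis.mk (v := fun T : Tab n =>
      (Submodule.Quotient.mk (mon n T) : Verma (fun i : Fin n => L i)))
    (by
      rw [linearIndependent_iff]
      intro l hl
      apply indep_J (fun i : Fin n => L i)
      rw [← Submodule.Quotient.mk_eq_zero, ← hl, Finsupp.linearCombination_apply,
        Finsupp.linearCombination_apply, Finsupp.sum, Finsupp.sum]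
      rw [← Submodule.mkQ_apply, map_sum]
      rfl)
    (by
      rintro x -
      obtain ⟨u, rfl⟩ := Submodule.Quotient.mk_surjective _ x
      obtain ⟨l, hl⟩ := exists_comb (fun i : Fin n => L i) u
      rw [← Submodule.Quotient.eq] at hl
      rw [hl, Finsupp.mem_span_range_iff_exists_finsupp]
      refine ⟨l, ?_⟩
      rw [Finsupp.linearCombination_apply, Finsupp.sum, Finsupp.sum, ← Submodule.mkQ_apply,
        map_sum]
      rfl)

theorem bV_apply (T : Tab n) :
    bV n L T = (Submodule.Quotient.mk (mon n T) : Verma (fun i : Fin n => L i)) := by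
  unfold bV
  rw [Module.Basis.mk_apply]

/-- the action of `Γ` -/
noncomputable def actG : GTalg n →ₐ[ℂ] Module.End ℂ (Verma (fun i : Fin n => L i)) :=
  (Algebra.lsmul ℂ ℂ (Verma (fun i : Fin n => L i))).comp (GTalg n).val

theorem actG_apply (g : GTalg n) (x : Verma (fun i : Fin n => L i)) :
    actG n L g x = (g : U n) • x := rfl

theorem smul_mk (u v : U n) :
    u • (Submodule.Quotient.mk v : Verma (fun i : Fin n => L i)) = Submodule.Quotient.mk (u * v) :=
  rfl

theorem csmul_mk (c : ℂ) (v : U n) :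
    c • (Submodule.Quotient.mk v : Verma (fun i : Fin n => L i)) = Submodule.Quotient.mk (c • v) :=
  rfl

/-- the span of the smaller basis vectors -/
theorem span_Lt {T : Tab n} {x : Verma (fun i : Fin n => L i)}
    (hx : x ∈ Submodule.span ℂ {x | ∃ S : Tab n, S < T ∧ x = bV n L S}) :
    ∀ S, T ≤ S → (bV n L).repr x S = 0 := by
  induction hx using Submodule.span_induction with
  | mem x hx =>
    obtain ⟨S', hS', rfl⟩ := hx
    intro S hS
    rw [Module.Basis.repr_self, Finsupp.single_apply, if_neg]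
    intro h
    rw [h] at hS'
    exact absurd hS (not_le.2 hS')
  | zero => intro S _; simp
  | add x y _ _ hx hy =>
    intro S hS
    rw [map_add, Finsupp.add_apply, hx S hS, hy S hS, add_zero]
  | smul c x _ hx =>
    intro S hS
    rw [map_smul, Finsupp.smul_apply, hx S hS, smul_zero]

/-- The centers act triangularly on the basis. -/
theorem tri_gen {k : ℕ} (hk : k ≤ n) {z : U k} (hz : z ∈ Subalgebra.center ℂ (U k)) (T : Tab n) :
    incl hk z • bV n L T - cc k (rw' n L T k) z • bV n L T ∈
      Submodule.span ℂ {x | ∃ S : Tab n, S < T ∧ x = bV n L S} := by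
  have h1 := (hwJ (fun i : Fin n => L i)).tri (lam := L) T hk hz
  simp only [Algebra.coe_lmul_eq_mul, LinearMap.mul_apply', mul_one] at h1
  rw [Submodule.mem_sup] at h1
  obtain ⟨y, hy, w, hw, hyw⟩ := h1
  have h2 : incl hk z • bV n L T - cc k (rw' n L T k) z • bV n L T
      = (Submodule.Quotient.mk w : Verma (fun i : Fin n => L i)) := by
    rw [bV_apply, smul_mk, csmul_mk, ← Submodule.Quotient.mk_sub, ← hyw,
      Submodule.Quotient.mk_add]
    have : (Submodule.Quotient.mk y : Verma (fun i : Fin n => L i)) = 0 := by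
      rw [Submodule.Quotient.mk_eq_zero]
      exact hy
    rw [this, zero_add]
  rw [h2]
  have h3 : Submodule.span ℂ {x | ∃ S : Tab n, S < T ∧ x = mon n S}
      ≤ (Submodule.span ℂ {x | ∃ S : Tab n, S < T ∧ x = bV n L S}).comap
        ((J (fun i : Fin n => L i)).mkQ.restrictScalars ℂ) := by
    rw [Submodule.span_le]
    rintro _ ⟨S, hS, rfl⟩
    apply Submodule.subset_span
    exact ⟨S, hS, (bV_apply n L S).symm⟩
  exact h3 hw

theorem tri_all {g : U n} (hg : g ∈ GTalg n) :
    ∀ T : Tab n, g • bV n L T ∈ Tri.Le (bV n L) T := by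
  unfold GTalg at hg
  have hself : ∀ T : Tab n, bV n L T ∈ Tri.Le (bV n L) T := by
    intro T S hS
    rw [Module.Basis.repr_self, Finsupp.single_apply, if_neg (ne_of_lt hS)]
  have hmono : ∀ S T : Tab n, S ≤ T → Tri.Le (bV n L) S ≤ Tri.Le (bV n L) T := by
    intro S T hST x hx S' hS'
    exact hx S' (lt_of_le_of_lt hST hS')
  induction hg using Algebra.adjoin_induction with
  | mem x hx =>
    obtain ⟨m, hm1, hm, z, hz, rfl⟩ := hx
    intro T
    have h1 := span_Lt n L (tri_gen n L hm hz T)
    have h2 : incl hm z • bV n L T = (incl hm z • bV n L T - cc m (rw' n L T m) z • bV n L T)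
      + cc m (rw' n L T m) z • bV n L T := by abel
    rw [h2]
    apply Submodule.add_mem
    · intro S hS
      exact h1 S hS.le
    · exact Submodule.smul_mem _ _ (hself T)
  | algebraMap c =>
    intro T
    rw [algebraMap_smul]
    exact Submodule.smul_mem _ _ (hself T)
  | add x y _ _ hx hy =>
    intro T
    rw [add_smul]
    exact Submodule.add_mem _ (hx T) (hy T)
  | mul x y _ _ hx hy =>
    intro T
    rw [mul_smul]
    have h1 := hy T
    rw [Tri.sum_repr' (b := bV n L) (y • bV n L T), Finset.smul_sum]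
    apply Submodule.sum_mem
    intro S hS
    rw [smul_comm]
    apply Submodule.smul_mem
    apply hmono S T
    · by_contra hcon
      exact (Finsupp.mem_support_iff.1 hS) (h1 S (not_le.1 hcon))
    · exact hx S

/-- The action of `Γ` on a Verma module is triangular. -/
theorem triV : Tri (bV n L) (actG n L) (ht n) ⟨Dn n, Dn_mem_GTalg n⟩
    (∑ i : Fin n, ((i : ℕ) : ℂ) * L i) where
  comm := GTalg_comm
  tri g T S hTS := by
    rw [actG_apply]
    exact tri_all n L g.2 T S hTS
  fin h := (ht_fin n h).subset (fun T hT => le_of_eq hT)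
  hD T := by
    rw [actG_apply, bV_apply, smul_mk, csmul_mk, Submodule.Quotient.eq]
    exact Dn_mon_J _ T

theorem ch_gen {k : ℕ} (hk1 : 1 ≤ k) (hk : k ≤ n) {z : U k}
    (hz : z ∈ Subalgebra.center ℂ (U k)) (T : Tab n) :
    Tri.ch (bV n L) (actG n L) T ⟨incl hk z, incl_mem_GTalg hk1 hk hz⟩
      = cc k (rw' n L T k) z := by
  have h1 := span_Lt n L (tri_gen n L hk hz T) T le_rfl
  rw [map_sub, Finsupp.sub_apply, sub_eq_zero] at h1
  have h2 : (bV n L).repr (cc k (rw' n L T k) z • bV n L T) T = cc k (rw' n L T k) z := by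
    rw [LinearEquiv.map_smul, Finsupp.smul_apply, Module.Basis.repr_self, Finsupp.single_eq_same,
      smul_eq_mul, mul_one]
  exact h1.trans h2

/-- two patterns give the same character iff all rows have the same central character -/
theorem ch_eq_iff (S T : Tab n) :
    Tri.ch (bV n L) (actG n L) S = Tri.ch (bV n L) (actG n L) T ↔
      ∀ k ≤ n, ∀ z ∈ Subalgebra.center ℂ (U k), cc k (rw' n L S k) z = cc k (rw' n L T k) z := by
  constructor
  · intro h k hk z hz
    rcases Nat.eq_zero_or_pos k with h0 | h0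
    · subst h0
      exact cc_congr (fun i hi => absurd hi (Nat.not_lt_zero i)) hz
    · rw [← ch_gen n L h0 hk hz, ← ch_gen n L h0 hk hz, h]
  · intro h
    have hh := triV n L
    have key : ∀ (g : U n) (hg : g ∈ GTalg n), Tri.ch (bV n L) (actG n L) S ⟨g, hg⟩
        = Tri.ch (bV n L) (actG n L) T ⟨g, hg⟩ := by
      intro g hg
      have hg' := hg
      unfold GTalg at hg'
      induction hg' using Algebra.adjoin_induction with
      | mem x hx =>
        obtain ⟨m, hm1, hm, z, hz, rfl⟩ := hx
        rw [ch_gen n L hm1 hm hz, ch_gen n L hm1 hm hz]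
        exact h m hm z hz
      | algebraMap c =>
        have h1 := Tri.ch_algebraMap (b := bV n L) (π := actG n L) S c
        have h2 := Tri.ch_algebraMap (b := bV n L) (π := actG n L) T c
        exact h1.trans h2.symm
      | add x y hx hy ihx ihy =>
        have e1 := Tri.ch_add (b := bV n L) (π := actG n L) S ⟨x, hx⟩ ⟨y, hy⟩
        have e2 := Tri.ch_add (b := bV n L) (π := actG n L) T ⟨x, hx⟩ ⟨y, hy⟩
        rw [ihx hx, ihy hy] at e1
        exact e1.trans e2.symm
      | mul x y hx hy ihx ihy =>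
        have e1 := hh.ch_mul S ⟨x, hx⟩ ⟨y, hy⟩
        have e2 := hh.ch_mul T ⟨x, hx⟩ ⟨y, hy⟩
        rw [ihx hx, ihy hy] at e1
        exact e1.trans e2.symm
    funext g
    exact key g.1 g.2

end

end Pool.Agent.J4H84.GT
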