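import Mathlib

/-!
# The universal enveloping algebra of `gl(n)` and the Gelfand-Tsetlin subalgebra: basics
-/

set_option backward.isDefEq.respectTransparency false

namespace Pool.Agent.J4H84.GT

attribute [local instance 100] LieRing.ofAssociativeRing

/-- The Lie algebra `gl(n)` over `ℂ` (bracket `A * B - B * A`). -/
abbrev gl (n : ℕ) := Matrix (Fin n) (Fin n) ℂ

/-- The universal enveloping algebra `U(gl(n))`. -/
abbrev U (n : ℕ) := UniversalEnvelopingAlgebra ℂ (gl n)

/-- The generator `E_ij` (elementary matrix) of `U(gl(n))`. -/
noncomputable def E {n : ℕ} (i j : Fin n) : U n :=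
  UniversalEnvelopingAlgebra.ι ℂ (Matrix.single i j (1 : ℂ))

/-- The relations of `gl(n)` for a family in an associative algebra. -/
def Rel {n : ℕ} {A : Type*} [Ring A] (e : Fin n → Fin n → A) : Prop :=
  ∀ i j k l, e i j * e k l - e k l * e i j
    = (if j = k then e i l else 0) - (if l = i then e k j else 0)

theorem rel_E (n : ℕ) : Rel (E : Fin n → Fin n → U n) := by
  intro i j k l
  unfold E
  have h := LieHom.map_lie (UniversalEnvelopingAlgebra.ι ℂ (L := gl n))
    (Matrix.single i j (1 : ℂ)) (Matrix.single k l (1 : ℂ))
  rw [LieRing.of_associative_ring_bracket, LieRing.of_associative_ring_bracket] at h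
  rw [← h, map_sub]
  congr 1
  · split_ifs with hjk
    · subst hjk; rw [Matrix.single_mul_single_same]; simp
    · rw [Matrix.single_mul_single_of_ne _ _ _ _ hjk]; simp
  · split_ifs with hli
    · subst hli; rw [Matrix.single_mul_single_same]; simp
    · rw [Matrix.single_mul_single_of_ne _ _ _ _ hli]; simp

section lift
variable {n : ℕ} {A : Type*} [Ring A] [Algebra ℂ A]

/-- The linear map `gl(n) → A` given by a family. -/
noncomputable def linE (e : Fin n → Fin n → A) : gl n →ₗ[ℂ] A where
  toFun M := ∑ i, ∑ j, M i j • e i j
  map_add' M N := by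
    simp only [Matrix.add_apply, add_smul, Finset.sum_add_distrib]
  map_smul' c M := by
    simp only [Matrix.smul_apply, smul_eq_mul, mul_smul, Finset.smul_sum, RingHom.id_apply]

theorem linE_single (e : Fin n → Fin n → A) (i j : Fin n) (x : ℂ) :
    linE e (Matrix.single i j x) = x • e i j := by
  unfold linE
  simp only [LinearMap.coe_mk, AddHom.coe_mk]
  rw [Finset.sum_eq_single i, Finset.sum_eq_single j]
  · simp
  · intro b _ hb; simp [Ne.symm hb]
  · simp
  · intro b _ hb
    apply Finset.sum_eq_zero
    intro c _
    simp [Ne.symm hb]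
  · simp

theorem linE_lie (e : Fin n → Fin n → A) (he : Rel e) (M N : gl n) :
    linE e (M * N - N * M) = linE e M * linE e N - linE e N * linE e M := by
  induction M using Matrix.induction_on' with
  | h_zero => simp
  | h_add p q hp hq =>
    have h1 : (p + q) * N - N * (p + q) = (p * N - N * p) + (q * N - N * q) := by
      rw [add_mul, mul_add]; abel
    rw [h1, map_add, hp, hq, map_add]
    noncomm_ring
  | h_std_basis i j x =>
    induction N using Matrix.induction_on' with
    | h_zero => simp
    | h_add p q hp hq =>
      have h1 : Matrix.single i j x * (p + q) - (p + q) * Matrix.single i j x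
          = (Matrix.single i j x * p - p * Matrix.single i j x)
            + (Matrix.single i j x * q - q * Matrix.single i j x) := by
        rw [add_mul, mul_add]; abel
      rw [h1, map_add, hp, hq, map_add]
      noncomm_ring
    | h_std_basis k l y =>
      rw [map_sub, linE_single, linE_single]
      have h2 : (x • e i j) * (y • e k l) - (y • e k l) * (x • e i j)
          = (x * y) • (e i j * e k l - e k l * e i j) := by
        rw [smul_mul_smul_comm, smul_mul_smul_comm, mul_comm y x, smul_sub]
      rw [h2, he i j k l, smul_sub]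
      congr 1
      · split_ifs with h
        · subst h; rw [Matrix.single_mul_single_same, linE_single]
        · rw [Matrix.single_mul_single_of_ne _ _ _ _ h]; simp
      · split_ifs with h
        · subst h; rw [Matrix.single_mul_single_same, linE_single, mul_comm y x]
        · rw [Matrix.single_mul_single_of_ne _ _ _ _ h]; simp

/-- The algebra homomorphism `U(gl(n)) → A` given by a family satisfying the relations. -/
noncomputable def liftE (e : Fin n → Fin n → A) (he : Rel e) : U n →ₐ[ℂ] A :=
  UniversalEnvelopingAlgebra.lift ℂ
    { linE e with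
      map_lie' := by
        intro M N
        rw [LieRing.of_associative_ring_bracket, LieRing.of_associative_ring_bracket]
        exact linE_lie e he M N }

@[simp] theorem liftE_E (e : Fin n → Fin n → A) (he : Rel e) (i j : Fin n) :
    liftE e he (E i j) = e i j := by
  unfold liftE E
  rw [UniversalEnvelopingAlgebra.lift_ι_apply]
  have := linE_single e i j (1 : ℂ)
  rw [one_smul] at this
  exact this

/-- Two algebra homomorphisms out of `U(gl(n))` agreeing on the `E_ij` are equal. -/
theorem hom_ext' {f g : U n →ₐ[ℂ] A} (h : ∀ i j, f (E i j) = g (E i j)) : f = g := by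
  apply UniversalEnvelopingAlgebra.hom_ext
  ext M
  simp only [LieHom.coe_comp, Function.comp_apply, AlgHom.coe_toLieHom]
  induction M using Matrix.induction_on' with
  | h_zero => simp
  | h_add p q hp hq => rw [map_add, map_add, map_add, hp, hq]
  | h_std_basis i j x =>
    have : Matrix.single i j x = x • Matrix.single i j (1 : ℂ) := by
      rw [Matrix.smul_single]; simp
    rw [this, map_smul, map_smul, map_smul]
    congr 1
    exact h i j

/-- Every element of `U(gl(n))` lies in the subalgebra generated by the `E_ij`. -/
theorem adjoin_E : Algebra.adjoin ℂ (Set.range fun p : Fin n × Fin n => (E p.1 p.2 : U n)) = ⊤ := by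
  rw [eq_top_iff]
  intro u _
  let S : Subalgebra ℂ (U n) :=
    Algebra.adjoin ℂ (Set.range fun p : Fin n × Fin n => (E p.1 p.2 : U n))
  have hmem : ∀ i j, (E i j : U n) ∈ S := fun i j => Algebra.subset_adjoin ⟨(i, j), rfl⟩
  let e : Fin n → Fin n → S := fun i j => ⟨E i j, hmem i j⟩
  have he : Rel e := by
    intro i j k l
    apply Subtype.ext
    have := rel_E n i j k l
    simp only [e]
    split_ifs with h1 h2 h2 <;> simp_all
  have hc : (S.val.comp (liftE e he)) = AlgHom.id ℂ (U n) := by
    apply hom_ext'
    intro i j
    simp [e]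
  have := DFunLike.congr_fun hc u
  simp only [AlgHom.comp_apply, AlgHom.id_apply] at this
  rw [← this]
  exact (liftE e he u).2

theorem induction_U {P : U n → Prop} (hc : ∀ c : ℂ, P (algebraMap ℂ (U n) c))
    (hE : ∀ i j, P (E i j)) (hadd : ∀ u v, P u → P v → P (u + v))
    (hmul : ∀ u v, P u → P v → P (u * v)) (u : U n) : P u := by
  have hu : u ∈ Algebra.adjoin ℂ (Set.range fun p : Fin n × Fin n => (E p.1 p.2 : U n)) := by
    rw [adjoin_E]; trivial
  refine Algebra.adjoin_induction (p := fun u _ => P u) ?_ ?_ ?_ ?_ hu
  · rintro _ ⟨p, rfl⟩; exact hE _ _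
  · exact hc
  · intro x y _ _ hx hy; exact hadd x y hx hy
  · intro x y _ _ hx hy; exact hmul x y hx hy

end lift

/-- The embedding `U(gl(m)) → U(gl(n))`, `m ≤ n`, induced by the upper left block
`gl(m) ⊆ gl(n)`: it sends `E_ij` to `E_ij`. -/
noncomputable def incl {m n : ℕ} (h : m ≤ n) : U m →ₐ[ℂ] U n :=
  liftE (fun i j => E (Fin.castLE h i) (Fin.castLE h j)) (by
    intro i j k l
    have := rel_E n (Fin.castLE h i) (Fin.castLE h j) (Fin.castLE h k) (Fin.castLE h l)
    simp only [Fin.castLE_inj] at this
    exact this)

@[simp] theorem incl_E {m n : ℕ} (h : m ≤ n) (i j : Fin m) :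
    incl h (E i j) = E (Fin.castLE h i) (Fin.castLE h j) := by
  unfold incl; rw [liftE_E]

theorem incl_incl {k m n : ℕ} (h : k ≤ m) (h' : m ≤ n) (u : U k) :
    incl h' (incl h u) = incl (h.trans h') u := by
  have : (incl h').comp (incl h) = incl (h.trans h') := by
    apply hom_ext'
    intro i j
    simp
  exact DFunLike.congr_fun this u

@[simp] theorem incl_self {n : ℕ} (h : n ≤ n) (u : U n) : incl h u = u := by
  have : incl h = AlgHom.id ℂ (U n) := by
    apply hom_ext'
    intro i j
    simp
  rw [this]; rfl

end Pool.Agent.J4H84.GT
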