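import Pool.Agent.J4H84.GT.Alg

/-!
# Counting the patterns with a given character
-/

set_option backward.isDefEq.respectTransparency false

namespace Pool.Agent.J4H84.GT

open Cardinal

/-- product of symmetric groups -/
abbrev Sig (n : ℕ) := (k : Fin n) → Equiv.Perm (Fin k)

theorem mk_Sig (n : ℕ) : Cardinal.mk (Sig n) = ((∏ k ∈ Finset.Ico 1 n, k.factorial : ℕ) : Cardinal) := by
  rw [Cardinal.mk_fintype, Fintype.card_pi]
  congr 1
  have h1 : ∀ k : Fin n, Fintype.card (Equiv.Perm (Fin k)) = ((k : ℕ)).factorial := by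
    intro k
    rw [Fintype.card_perm, Fintype.card_fin]
  simp only [h1]
  rw [← Finset.prod_range (fun k => k.factorial)]
  rcases Nat.eq_zero_or_pos n with h0 | h0
  · subst h0; simp
  · rw [Finset.range_eq_Ico, Finset.prod_eq_prod_Ico_succ_bot h0]
    simp

/-- the rows determine the pattern -/
theorem rows_inj : ∀ (n : ℕ) (L : ℕ → ℂ) (S S' : Tab n),
    (∀ k < n, ∀ i < k, rw' n L S k i = rw' n L S' k i) → S = S' := by
  intro n
  induction n with
  | zero =>
    intro L S S' _
    haveI : Subsingleton (Tab 0) := inferInstanceAs (Subsingleton PUnit)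
    exact Subsingleton.elim _ _
  | succ n ih =>
    intro L S S' h
    have h1 : row S = row S' := by
      funext i
      have := h n (by omega) i i.2
      rw [rw'_low _ _ le_rfl, rw'_low _ _ le_rfl, rw'_top, rw'_top] at this
      unfold low at this
      rw [dif_pos i.2, dif_pos i.2] at this
      have h2 := sub_right_injective this
      exact_mod_cast h2
    apply tab_ext h1
    apply ih (low n L (row S))
    intro k hk i hi
    have := h k (by omega) i hi
    rw [rw'_low _ _ hk.le, rw'_low _ _ hk.le] at this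
    rw [this, h1]

/-- **Upper bound**: the number of patterns with a given character. -/
theorem card_le (n : ℕ) (L : ℕ → ℂ) (T : Tab n) :
    Cardinal.mk {S : Tab n // ∀ k ≤ n, ∀ z ∈ Subalgebra.center ℂ (U k),
      cc k (rw' n L S k) z = cc k (rw' n L T k) z}
      ≤ ((∏ k ∈ Finset.Ico 1 n, k.factorial : ℕ) : Cardinal) := by
  rw [← mk_Sig]
  have hex : ∀ S : {S : Tab n // ∀ k ≤ n, ∀ z ∈ Subalgebra.center ℂ (U k),
      cc k (rw' n L S k) z = cc k (rw' n L T k) z}, ∀ k : Fin n,
      ∃ σ : Equiv.Perm (Fin k), ∀ j : Fin k, rw' n L S.1 k j - (j : ℕ)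
        = rw' n L T k (σ j) - ((σ j : Fin k) : ℕ) := by
    intro S k
    exact hc_inj (fun z hz => (S.2 k k.2.le z hz).symm)
  choose σ hσ using hex
  apply Cardinal.mk_le_of_injective (f := σ)
  intro S S' hSS'
  apply Subtype.ext
  apply rows_inj n L
  intro k hk i hi
  have h1 := hσ S ⟨k, hk⟩ ⟨i, hi⟩
  have h2 := hσ S' ⟨k, hk⟩ ⟨i, hi⟩
  rw [hSS'] at h1
  have h3 := h1.trans h2.symm
  exact sub_left_injective h3

/-- the pattern with prescribed rows -/
def build : (n : ℕ) → ((k : ℕ) → Fin k → ℕ) → Tab n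
  | 0, _ => PUnit.unit
  | n + 1, R => tab (fun j => R n j - R (n + 1) j.castSucc) (build n R)

theorem rows_build : ∀ (n : ℕ) (R : (k : ℕ) → Fin k → ℕ) (c : ℂ) (L : ℕ → ℂ),
    (∀ k < n, ∀ j : Fin k, R (k + 1) j.castSucc ≤ R k j) →
    (∀ i : Fin n, L i = c - R n i + (i : ℕ)) →
    ∀ k ≤ n, ∀ i : Fin k, rw' n L (build n R) k i = c - R k i + (i : ℕ) := by
  intro n
  induction n with
  | zero =>
    intro R c L _ _ k hk i
    exact absurd i.2 (by omega)
  | succ n ih =>
    intro R c L h1 h2 k hk i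
    rcases Nat.lt_or_ge n k with hk' | hk'
    · obtain rfl : k = n + 1 := by omega
      rw [rw'_top]
      exact h2 i
    · rw [rw'_low _ _ hk']
      apply ih R c (low n L (row (build (n + 1) R))) (fun k hk j => h1 k (by omega) j) _ k hk' i
      intro i
      have h3 : row (build (n + 1) R) = fun j => R n j - R (n + 1) j.castSucc := rfl
      unfold low
      rw [dif_pos i.2, h3]
      have h4 := h2 i.castSucc
      rw [Fin.val_castSucc] at h4
      rw [h4]
      have h5 := h1 n (by omega) i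
      simp only [Fin.eta]
      rw [Nat.cast_sub h5]
      ring

section
variable (n B : ℕ) (N : ℕ → ℕ)

/-- rows given by permutations -/
def Rw (σ : Sig n) (k : ℕ) (j : Fin k) : ℕ :=
  if h : k < n then (B + (n - k) * n) + ((σ ⟨k, h⟩ j : Fin k) : ℕ) else N j

theorem Rw_mono (hB : ∀ i, N i ≤ B) (σ : Sig n) (k : ℕ) (hk : k < n) (j : Fin k) :
    Rw n B N σ (k + 1) j.castSucc ≤ Rw n B N σ k j := by
  have h1 : Rw n B N σ k j = (B + (n - k) * n) + ((σ ⟨k, hk⟩ j : Fin k) : ℕ) := by
    unfold Rw; rw [dif_pos hk]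
  rw [h1]
  by_cases hk1 : k + 1 < n
  · have h2 : Rw n B N σ (k + 1) j.castSucc
        = (B + (n - (k + 1)) * n) + ((σ ⟨k + 1, hk1⟩ j.castSucc : Fin (k + 1)) : ℕ) := by
      unfold Rw; rw [dif_pos hk1]
    rw [h2]
    have h3 := (σ ⟨k + 1, hk1⟩ j.castSucc : Fin (k + 1)).2
    have h4 : (n - k) * n = (n - (k + 1)) * n + n := by
      have : n - k = (n - (k + 1)) + 1 := by omega
      rw [this, add_mul, one_mul]
    omega
  · have h2 : Rw n B N σ (k + 1) j.castSucc = N j.castSucc := by
      unfold Rw; rw [dif_neg hk1]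
    rw [h2]
    have := hB j.castSucc
    omega

/-- **Lower bound.** -/
theorem le_card (hB : ∀ i, N i ≤ B) (c : ℂ) (L : ℕ → ℂ)
    (hL : ∀ i : Fin n, L i = c - N i + (i : ℕ)) :
    ∃ T : Tab n, ((∏ k ∈ Finset.Ico 1 n, k.factorial : ℕ) : Cardinal) ≤
      Cardinal.mk {S : Tab n // ∀ k ≤ n, ∀ z ∈ Subalgebra.center ℂ (U k),
        cc k (rw' n L S k) z = cc k (rw' n L T k) z} := by
  have hrow : ∀ (σ : Sig n) (k : ℕ), k ≤ n → ∀ i : Fin k,
      rw' n L (build n (Rw n B N σ)) k i = c - Rw n B N σ k i + (i : ℕ) := by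
    intro σ
    apply rows_build n (Rw n B N σ) c L (Rw_mono n B N hB σ)
    intro i
    have : Rw n B N σ n i = N i := by unfold Rw; rw [dif_neg (lt_irrefl n)]
    rw [this]; exact hL i
  have hcc : ∀ (σ : Sig n) (k : ℕ), k ≤ n → ∀ z ∈ Subalgebra.center ℂ (U k),
      cc k (rw' n L (build n (Rw n B N σ)) k) z
        = cc k (rw' n L (build n (Rw n B N 1)) k) z := by
    intro σ k hk z hz
    rcases Nat.lt_or_ge k n with hk' | hk'
    · have key : ∀ σ : Sig n, cc k (rw' n L (build n (Rw n B N σ)) k) z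
          = cc k (wtc k c (fun j : Fin k => (B + (n - k) * n) + (j : ℕ))) z := by
        intro σ
        rw [hc_perm c (fun j : Fin k => (B + (n - k) * n) + (j : ℕ)) (σ ⟨k, hk'⟩) hz]
        apply cc_congr _ hz
        intro i hi
        have h1 := hrow σ k hk ⟨i, hi⟩
        have h2 := wtc_fin c ((fun j : Fin k => (B + (n - k) * n) + (j : ℕ)) ∘ (σ ⟨k, hk'⟩))
          ⟨i, hi⟩
        simp only at h1 h2
        rw [h1, h2]
        have h3 : Rw n B N σ k ⟨i, hi⟩
            = (B + (n - k) * n) + ((σ ⟨k, hk'⟩ ⟨i, hi⟩ : Fin k) : ℕ) := by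
          unfold Rw; rw [dif_pos hk']
        rw [h3]
        rfl
      rw [key, key]
    · obtain rfl : k = n := le_antisymm hk hk'
      rw [rw'_top, rw'_top]
  refine ⟨build n (Rw n B N 1), ?_⟩
  rw [← mk_Sig]
  apply Cardinal.mk_le_of_injective (f := fun σ : Sig n =>
    (⟨build n (Rw n B N σ), hcc σ⟩ : {S : Tab n // ∀ k ≤ n, ∀ z ∈ Subalgebra.center ℂ (U k),
        cc k (rw' n L S k) z = cc k (rw' n L (build n (Rw n B N 1)) k) z}))
  intro σ σ' h
  have h1 : build n (Rw n B N σ) = build n (Rw n B N σ') := congrArg Subtype.val h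
  funext k
  ext j
  have h2 := hrow σ k k.2.le j
  have h3 := hrow σ' k k.2.le j
  rw [h1] at h2
  have h4 := h2.symm.trans h3
  have h5 : (Rw n B N σ k j : ℂ) = Rw n B N σ' k j := by linear_combination -h4
  have h6 : Rw n B N σ k j = Rw n B N σ' k j := by exact_mod_cast h5
  unfold Rw at h6
  rw [dif_pos k.2, dif_pos k.2] at h6
  simpa using h6

end

/-! ## Dimensions -/

section
variable (n : ℕ) (L : ℕ → ℂ)

theorem rank_le (I : Ideal (GTalg n)) (hI : I.IsMaximal) :
    Module.rank ℂ (genSub (actG n L) (I : Set (GTalg n)))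
      ≤ ((∏ k ∈ Finset.Ico 1 n, k.factorial : ℕ) : Cardinal) := by
  have h := triV n L
  rw [h.rank_gen]
  by_cases hne : Nonempty {T : Tab n // ∀ a ∈ (I : Set (GTalg n)),
      Tri.ch (bV n L) (actG n L) T a = 0}
  · obtain ⟨T, hT⟩ := hne
    refine le_trans ?_ (card_le n L T)
    -- the kernel
    have hker : ∀ S : Tab n, (∀ a ∈ (I : Set (GTalg n)), Tri.ch (bV n L) (actG n L) S a = 0) →
        ∀ a, Tri.ch (bV n L) (actG n L) S a = 0 → a ∈ I := by
      intro S hS a ha
      by_contra hcon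
      let K : Ideal (GTalg n) := RingHom.ker (h.chHom S).toRingHom
      have hIK : I ≤ K := by
        intro x hx
        exact hS x hx
      have hK : K ≠ ⊤ := by
        intro htop
        have h1 : (1 : GTalg n) ∈ K := by rw [htop]; trivial
        have h2 : h.chHom S 1 = 0 := h1
        rw [map_one] at h2
        exact one_ne_zero h2
      have := hI.eq_of_le hK hIK
      apply hcon
      rw [this]
      exact ha
    apply Cardinal.mk_le_of_injective (f := fun S : {T : Tab n // ∀ a ∈ (I : Set (GTalg n)),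
      Tri.ch (bV n L) (actG n L) T a = 0} => (⟨S.1, by
        rw [← ch_eq_iff]
        funext a
        have h1 : a - algebraMap ℂ (GTalg n) (Tri.ch (bV n L) (actG n L) T a) ∈ I := by
          apply hker T hT
          have := map_sub (h.chHom T) a (algebraMap ℂ (GTalg n) (Tri.ch (bV n L) (actG n L) T a))
          rw [h.chHom_apply, h.chHom_apply, h.chHom_apply, Tri.ch_algebraMap, sub_self] at this
          exact this
        have h2 := S.2 _ h1
        have h3 := map_sub (h.chHom S.1) a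
          (algebraMap ℂ (GTalg n) (Tri.ch (bV n L) (actG n L) T a))
        rw [h.chHom_apply, h.chHom_apply, h.chHom_apply, Tri.ch_algebraMap, h2] at h3
        exact (sub_eq_zero.1 h3.symm)⟩ : {S : Tab n // ∀ k ≤ n, ∀ z ∈ Subalgebra.center ℂ (U k),
          cc k (rw' n L S k) z = cc k (rw' n L T k) z}))
    intro S S' hSS'
    apply Subtype.ext
    simpa using hSS'
  · rw [not_nonempty_iff] at hne
    rw [Cardinal.mk_eq_zero]
    exact bot_le

theorem exists_rank (c : ℂ) (N : ℕ → ℕ) (B : ℕ) (hB : ∀ i, N i ≤ B)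
    (hL : ∀ i : Fin n, L i = c - N i + (i : ℕ)) :
    ∃ I : Ideal (GTalg n), I.IsMaximal ∧
      ((∏ k ∈ Finset.Ico 1 n, k.factorial : ℕ) : Cardinal)
        = Module.rank ℂ (genSub (actG n L) (I : Set (GTalg n))) := by
  obtain ⟨T, hT⟩ := le_card n B N hB c L hL
  have h := triV n L
  let K : Ideal (GTalg n) := RingHom.ker (h.chHom T).toRingHom
  have hmem : ∀ a, a ∈ K ↔ Tri.ch (bV n L) (actG n L) T a = 0 := fun a => Iff.rfl
  have hmax : K.IsMaximal := by
    rw [Ideal.isMaximal_iff]
    refine ⟨?_, ?_⟩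
    · intro h1
      have h2 : h.chHom T 1 = 0 := h1
      rw [map_one] at h2
      exact one_ne_zero h2
    · intro J x hKJ hxK hxJ
      set t := Tri.ch (bV n L) (actG n L) T x with ht
      have ht0 : t ≠ 0 := fun h0 => hxK ((hmem x).2 h0)
      have h1 : x - algebraMap ℂ (GTalg n) t ∈ K := by
        rw [hmem]
        have := map_sub (h.chHom T) x (algebraMap ℂ (GTalg n) t)
        rw [h.chHom_apply, h.chHom_apply, h.chHom_apply, Tri.ch_algebraMap, ← ht, sub_self] at this
        exact this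
      have h2 : algebraMap ℂ (GTalg n) t ∈ J := by
        have := J.sub_mem hxJ (hKJ h1)
        rwa [sub_sub_cancel] at this
      have h3 := J.mul_mem_left (algebraMap ℂ (GTalg n) t⁻¹) h2
      rwa [← map_mul, inv_mul_cancel₀ ht0, map_one] at h3
  refine ⟨K, hmax, le_antisymm ?_ (rank_le n L K hmax)⟩
  rw [h.rank_gen]
  refine hT.trans ?_
  apply Cardinal.mk_le_of_injective (f := fun S : {S : Tab n // ∀ k ≤ n,
      ∀ z ∈ Subalgebra.center ℂ (U k), cc k (rw' n L S k) z = cc k (rw' n L T k) z} =>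
    (⟨S.1, by
      intro a ha
      have h1 := (ch_eq_iff n L S.1 T).2 S.2
      rw [h1]
      exact (hmem a).1 ha⟩ : {T' : Tab n // ∀ a ∈ (K : Set (GTalg n)),
        Tri.ch (bV n L) (actG n L) T' a = 0}))
  intro S S' hSS'
  apply Subtype.ext
  simpa using hSS'

end

end Pool.Agent.J4H84.GT
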