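import Pool.Agent.J4H45.GT.StmE
set_option autoImplicit false

/-!
(EMD) of project GE: the main theorem for any advantage.
-/

namespace Pool.Agent.J4H84.GT

open Pool.Agent.J4H45.GT

theorem t_EMD (hEMN : S_EMN) (hEAM : S_EAM) : S_EMD := by
  intro N h δ ht hδ hδ2
  obtain ⟨r, hr⟩ : ∃ r : ℕ, r = ⌈25 / δ ^ 2⌉₊ := ⟨_, rfl⟩
  have hr1 : 25 / δ ^ 2 ≤ (r : ℝ) := by rw [hr]; exact Nat.le_ceil _
  have hδ3 : 0 < δ ^ 2 := by positivity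
  have hr2 : (r : ℝ) ≤ 26 / δ ^ 2 := by
    have h1 := Nat.ceil_lt_add_one (show (0 : ℝ) ≤ 25 / δ ^ 2 by positivity)
    rw [← hr] at h1
    have h2 : (1 : ℝ) ≤ 1 / δ ^ 2 := by
      rw [le_div_iff₀ hδ3]
      nlinarith
    have h3 : 26 / δ ^ 2 = 25 / δ ^ 2 + 1 / δ ^ 2 := by ring
    linarith
  have hrpos : 1 ≤ r := by
    have : (0 : ℝ) < r := lt_of_lt_of_le (by positivity) hr1
    have : 0 < r := by exact_mod_cast this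
    omega
  have hr4 : δ ^ 2 * (r : ℝ) ≤ 26 := by
    rw [le_div_iff₀ hδ3] at hr2
    linarith
  obtain ⟨k, u, hk, hu, hEMN'⟩ := hEMN N (r * h) (Nat.one_le_iff_ne_zero.2 (by positivity))
  refine ⟨k, u, ?_, ?_, ?_⟩
  · refine le_trans ?_ hk
    have : h ≤ r * h := Nat.le_mul_of_pos_left h hrpos
    gcongr
  · have hu' : (u : ℝ) ≤ 2200000 * ((r : ℝ) * h) ^ 2 := by exact_mod_cast hu
    calc δ ^ 4 * (u : ℝ) ≤ δ ^ 4 * (2200000 * ((r : ℝ) * h) ^ 2) :=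
          mul_le_mul_of_nonneg_left hu' (by positivity)
      _ = 2200000 * (δ ^ 2 * (r : ℝ)) ^ 2 * (h : ℝ) ^ 2 := by ring
      _ ≤ 2200000 * 26 ^ 2 * (h : ℝ) ^ 2 := by
          apply mul_le_mul_of_nonneg_right _ (by positivity)
          apply mul_le_mul_of_nonneg_left _ (by norm_num)
          exact pow_le_pow_left₀ (by positivity) hr4 2
      _ ≤ 10 ^ 10 * (h : ℝ) ^ 2 := mul_le_mul_of_nonneg_right (by norm_num) (by positivity)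
  intro S κ _ Γ _ _ ℓ Ω _ p D hcard hs hD
  obtain ⟨D', hD'1, hD'2⟩ := hEAM N k u h r S κ Γ ℓ Ω p D δ hδ hr1 hs hD
  have hmain := hEMN' (r * S) (Fin r × κ) (fun c => Γ c.2) (fun c => ℓ c.2) (Fin r → Ω)
    (fun ω => ∏ l, p (ω l)) D' (fun c => hcard c.2) hD'1 hD'2
  push_cast at hmain
  have hr3 : (1 : ℝ) ≤ r := by exact_mod_cast hrpos
  have hs0 : (0 : ℝ) ≤ S := by positivity
  have h1 : (r : ℝ) * S + 1 ≤ r * (S + 1) := by nlinarith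
  have h2 : (N : ℝ) ^ 2 ≤ 10 ^ 31 * (r : ℝ) ^ 5 * ((h : ℝ) ^ 4 * (S + 1)) := by
    refine hmain.trans ?_
    calc 10 ^ 31 * ((r : ℝ) * h) ^ 4 * (r * S + 1) ≤ 10 ^ 31 * ((r : ℝ) * h) ^ 4 * (r * (S + 1)) :=
          mul_le_mul_of_nonneg_left h1 (by positivity)
      _ = _ := by ring
  have h3 : δ ^ 10 * (r : ℝ) ^ 5 ≤ 26 ^ 5 := by
    calc δ ^ 10 * (r : ℝ) ^ 5 = (δ ^ 2 * r) ^ 5 := by ring
      _ ≤ 26 ^ 5 := pow_le_pow_left₀ (by positivity) hr4 5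
  have h4 : (0 : ℝ) ≤ (h : ℝ) ^ 4 * (S + 1) := by positivity
  calc δ ^ 10 * (N : ℝ) ^ 2 ≤ δ ^ 10 * (10 ^ 31 * (r : ℝ) ^ 5 * ((h : ℝ) ^ 4 * (S + 1))) :=
        mul_le_mul_of_nonneg_left h2 (by positivity)
    _ = 10 ^ 31 * (δ ^ 10 * (r : ℝ) ^ 5) * ((h : ℝ) ^ 4 * (S + 1)) := by ring
    _ ≤ 10 ^ 31 * 26 ^ 5 * ((h : ℝ) ^ 4 * (S + 1)) := by
        apply mul_le_mul_of_nonneg_right _ h4
        exact mul_le_mul_of_nonneg_left h3 (by positivity)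
    _ ≤ 10 ^ 39 * ((h : ℝ) ^ 4 * (S + 1)) := mul_le_mul_of_nonneg_right (by norm_num) h4
    _ = _ := by ring

end Pool.Agent.J4H84.GT
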