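import Pool.Agent.J4H84.GT.Verma

/-!
# Central characters separate the orbits of the shifted action (Gelfand invariants)
-/

namespace Pool.Agent.J4H84.GT

open PowerSeries

/-- powers of the matrix `(E_ij)` -/
noncomputable def G {n : ℕ} : ℕ → Fin n → Fin n → U n
  | 0, i, j => if i = j then 1 else 0
  | p + 1, i, j => ∑ k, G p i k * E k j

theorem G_zero {n : ℕ} (i j : Fin n) : G 0 i j = (if i = j then 1 else 0 : U n) := rfl
theorem G_succ {n : ℕ} (p : ℕ) (i j : Fin n) : G (p + 1) i j = ∑ k, G p i k * (E k j : U n) := rfl

theorem com_one_right {A : Type*} [Ring A] (a : A) : com a 1 = 0 := by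
  unfold com; simp
theorem com_zero_right {A : Type*} [Ring A] (a : A) : com a 0 = 0 := by
  unfold com; simp

theorem com_G {n : ℕ} (p : ℕ) : ∀ a b k l : Fin n, com (E a b : U n) (G p k l)
    = (if b = k then G p a l else 0) - (if l = a then G p k b else 0) := by
  induction p with
  | zero =>
    intro a b k l
    rw [G_zero, G_zero, G_zero]
    by_cases h : k = l
    · subst h
      rw [if_pos rfl, com_one_right]
      by_cases h1 : b = k
      · subst h1
        by_cases h2 : a = b
        · subst h2; simp
        · have : ¬ (b = a) := fun h => h2 h.symm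
          simp [h2, this]
      · have : ¬ (k = b) := fun h => h1 h.symm
        simp [h1, this]
    · rw [if_neg h, com_zero_right]
      by_cases h1 : b = k
      · subst h1
        by_cases h2 : l = a
        · subst h2
          simp
        · have : ¬ (a = l) := fun h => h2 h.symm
          simp [h2, this]
      · have h3 : ¬ (k = b) := fun h => h1 h.symm
        simp [h1, h3]
  | succ p ih =>
    intro a b k l
    rw [G_succ, com_sum_right]
    simp only [com_mul_right, ih, com_E, sub_mul, mul_sub]
    rw [Finset.sum_add_distrib, Finset.sum_sub_distrib, Finset.sum_sub_distrib]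
    have h1 : ∑ x, (if b = k then G p a x else 0) * E x l = if b = k then G (p + 1) a l else 0 := by
      split_ifs
      · rw [G_succ]
      · simp
    have h2 : ∑ x, (if x = a then G p k b else 0) * E x l = G p k b * E a l := by
      rw [Finset.sum_eq_single a]
      · simp
      · intro x _ hx; simp [hx]
      · simp
    have h3 : ∑ x, G p k x * (if b = x then E a l else 0) = G p k b * E a l := by
      rw [Finset.sum_eq_single b]
      · simp
      · intro x _ hx; simp [Ne.symm hx]
      · simp
    have h4 : ∑ x, G p k x * (if l = a then E x b else 0) = if l = a then G (p + 1) k b else 0 := by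
      split_ifs
      · rw [G_succ]
      · simp
    rw [h1, h2, h3, h4]
    abel

/-- Gelfand invariants -/
noncomputable def Gtr (n p : ℕ) : U n := ∑ i, G p i i

theorem mem_center_of_com {n : ℕ} {z : U n} (h : ∀ i j : Fin n, com (E i j : U n) z = 0) :
    z ∈ Subalgebra.center ℂ (U n) := by
  rw [Subalgebra.mem_center_iff]
  intro u
  induction u using induction_U with
  | hc c => exact Algebra.commutes c z
  | hE i j => exact (com_eq_zero_iff _ _).1 (h i j)
  | hadd u v hu hv => rw [add_mul, mul_add, hu, hv]
  | hmul u v hu hv => rw [mul_assoc, hv, ← mul_assoc, hu, mul_assoc]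

theorem Gtr_mem (n p : ℕ) : Gtr n p ∈ Subalgebra.center ℂ (U n) := by
  apply mem_center_of_com
  intro a b
  unfold Gtr
  rw [com_sum_right]
  simp only [com_G]
  rw [Finset.sum_sub_distrib, Finset.sum_ite_eq, Finset.sum_ite_eq']
  simp

/-- eigenvalues -/
noncomputable def al (n : ℕ) (lam : ℕ → ℂ) : ℕ → ℕ → ℂ
  | 0, _ => 1
  | p + 1, j => lam j * al n lam p j + ∑ k ∈ Finset.Ioo j n, (al n lam p j - al n lam p k)

theorem sum_ite_Ioo {n : ℕ} (j : Fin n) (f : ℕ → ℂ) :
    ∑ k : Fin n, (if j < k then f k else 0) = ∑ k ∈ Finset.Ioo (j : ℕ) n, f k := by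
  have h1 : ∑ k : Fin n, (if j < k then f k else 0)
      = ∑ k ∈ Finset.range n, (if (j : ℕ) < k then f k else 0) := by
    rw [Finset.sum_range]
    apply Finset.sum_congr rfl
    intro k _
    rfl
  rw [h1, ← Finset.sum_filter]
  apply Finset.sum_congr _ (fun _ _ => rfl)
  ext k
  simp only [Finset.mem_filter, Finset.mem_range, Finset.mem_Ioo]
  tauto

theorem G_mod_J {n : ℕ} (lam : ℕ → ℂ) (p : ℕ) :
    (∀ j k : Fin n, j < k → G p j k ∈ J (fun i : Fin n => lam i)) ∧
    (∀ j : Fin n, G p j j - algebraMap ℂ (U n) (al n lam p j) ∈ J (fun i : Fin n => lam i)) := by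
  induction p with
  | zero =>
    constructor
    · intro j k hjk
      rw [G_zero, if_neg (ne_of_lt hjk)]
      exact Submodule.zero_mem _
    · intro j
      rw [G_zero, if_pos rfl]
      simp [al]
  | succ p ih =>
    obtain ⟨ih1, ih2⟩ := ih
    have hup : ∀ (u : U n) (i j : Fin n), i < j → u * E i j ∈ J (fun i : Fin n => lam i) := by
      intro u i j hij
      exact Submodule.smul_mem _ u (Submodule.subset_span (Or.inl ⟨i, j, hij, rfl⟩))
    have hwt : ∀ (u : U n) (i : Fin n),
        u * E i i - algebraMap ℂ (U n) (lam i) * u ∈ J (fun i : Fin n => lam i) := by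
      intro u i
      have := Submodule.smul_mem (J (fun i : Fin n => lam i)) u
        (Submodule.subset_span (Or.inr ⟨i, rfl⟩))
      rwa [smul_eq_mul, mul_sub, ← Algebra.commutes] at this
    -- move
    have hmove : ∀ (j l k : Fin n), G p j l * E l k
        = E l k * G p j l - ((if k = j then G p l l else 0) - G p j k) := by
      intro j l k
      have := com_G p l k j l
      rw [if_pos rfl] at this
      rw [← this]
      unfold com
      abel
    constructor
    · intro j k hjk
      rw [G_succ]
      apply Submodule.sum_mem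
      intro l _
      rcases lt_trichotomy l k with h | h | h
      · exact hup _ _ _ h
      · subst h
        have h1 := hwt (G p j l) l
        have h2 := Submodule.smul_mem _ (algebraMap ℂ (U n) (lam l)) (ih1 j l hjk)
        rw [smul_eq_mul] at h2
        have := Submodule.add_mem _ h1 h2
        rwa [sub_add_cancel] at this
      · rw [hmove, if_neg (ne_of_gt hjk), zero_sub, sub_neg_eq_add]
        apply Submodule.add_mem
        · exact Submodule.smul_mem _ _ (ih1 j l (hjk.trans h))
        · exact ih1 j k hjk
    · intro j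
      have h0 : al n lam (p + 1) j = ∑ l : Fin n, ((if l = j then lam j * al n lam p j else 0)
          + (if j < l then (al n lam p j - al n lam p l) else 0)) := by
        rw [Finset.sum_add_distrib, sum_ite_Ioo j (fun k => al n lam p j - al n lam p k)]
        simp [al]
      rw [G_succ, h0, map_sum, ← Finset.sum_sub_distrib]
      apply Submodule.sum_mem
      intro l _
      rcases lt_trichotomy l j with h | h | h
      · rw [if_neg (ne_of_lt h), if_neg (not_lt.2 h.le), add_zero, map_zero, sub_zero]
        exact hup _ _ _ h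
      · subst h
        rw [if_pos rfl, if_neg (lt_irrefl _), add_zero, map_mul]
        have h1 := hwt (G p l l) l
        have h2 := Submodule.smul_mem _ (algebraMap ℂ (U n) (lam l)) (ih2 l)
        rw [smul_eq_mul, mul_sub] at h2
        have := Submodule.add_mem _ h1 h2
        rwa [sub_add_sub_cancel] at this
      · rw [if_neg (ne_of_gt h), if_pos h, zero_add, hmove, if_pos rfl, map_sub]
        have h1 : E l j * G p j l - (G p l l - G p j j)
            - (algebraMap ℂ (U n) (al n lam p j) - algebraMap ℂ (U n) (al n lam p l))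
            = E l j * G p j l - (G p l l - algebraMap ℂ (U n) (al n lam p l))
              + (G p j j - algebraMap ℂ (U n) (al n lam p j)) := by abel
        rw [h1]
        apply Submodule.add_mem
        · apply Submodule.sub_mem
          · exact Submodule.smul_mem _ _ (ih1 j l h)
          · exact ih2 l
        · exact ih2 j

theorem cc_Gtr (n : ℕ) (lam : ℕ → ℂ) (p : ℕ) :
    cc n lam (Gtr n p) = ∑ k ∈ Finset.range n, al n lam p k := by
  apply cc_unique
  rw [Finset.sum_range, map_sum]
  unfold Gtr
  rw [← Finset.sum_sub_distrib]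
  apply Submodule.sum_mem
  intro i _
  exact (G_mod_J lam p).2 i

/-! ## Power series -/

/-- generating series -/
noncomputable def ss (n : ℕ) (lam : ℕ → ℂ) (j : ℕ) : ℂ⟦X⟧ := PowerSeries.mk fun p => al n lam p j

/-- the shifted entries -/
noncomputable def xx (n : ℕ) (lam : ℕ → ℂ) (j : ℕ) : ℂ := lam j + ((n - 1 - j : ℕ) : ℂ)

theorem ss_rec (n : ℕ) (lam : ℕ → ℂ) (j : ℕ) :
    (1 - PowerSeries.C (xx n lam j) * X) * ss n lam j
      = 1 - X * ∑ k ∈ Finset.Ioo j n, ss n lam k := by
  have h1 : ss n lam j = 1 + X * (PowerSeries.C (xx n lam j) * ss n lam j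
      - ∑ k ∈ Finset.Ioo j n, ss n lam k) := by
    ext p
    cases p with
    | zero => simp [ss, al]
    | succ p =>
      rw [map_add, PowerSeries.coeff_succ_X_mul, map_sub, PowerSeries.coeff_C_mul, map_sum]
      simp only [ss, PowerSeries.coeff_mk]
      rw [PowerSeries.coeff_one, if_neg (Nat.succ_ne_zero p), zero_add]
      have : al n lam (p + 1) j = lam j * al n lam p j
        + ∑ k ∈ Finset.Ioo j n, (al n lam p j - al n lam p k) := rfl
      rw [this, Finset.sum_sub_distrib, Finset.sum_const, Nat.card_Ioo, nsmul_eq_mul]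
      unfold xx
      have h2 : n - j - 1 = n - 1 - j := by omega
      rw [h2]
      ring
  linear_combination h1

theorem telescope {R : Type*} [CommRing R] (P A B : ℕ → R) (n : ℕ)
    (h : ∀ j < n, A j * P j = B j * P (j + 1)) :
    P 0 * ∏ j ∈ Finset.range n, A j = P n * ∏ j ∈ Finset.range n, B j := by
  induction n with
  | zero => simp
  | succ n ih =>
    rw [Finset.prod_range_succ, Finset.prod_range_succ]
    have h1 := ih (fun j hj => h j (by omega))
    have h2 := h n (by omega)
    calc P 0 * ((∏ j ∈ Finset.range n, A j) * A n)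
        = (P 0 * ∏ j ∈ Finset.range n, A j) * A n := by ring
      _ = (P n * ∏ j ∈ Finset.range n, B j) * A n := by rw [h1]
      _ = (A n * P n) * ∏ j ∈ Finset.range n, B j := by ring
      _ = (B n * P (n + 1)) * ∏ j ∈ Finset.range n, B j := by rw [h2]
      _ = _ := by ring

theorem series_id (n : ℕ) (lam : ℕ → ℂ) :
    (1 - X * ∑ k ∈ Finset.range n, ss n lam k) *
      ∏ j ∈ Finset.range n, (1 - PowerSeries.C (xx n lam j) * X)
      = ∏ j ∈ Finset.range n, (1 - PowerSeries.C (xx n lam j + 1) * X) := by
  have h := telescope (fun j => (1 - X * ∑ k ∈ Finset.Ico j n, ss n lam k : ℂ⟦X⟧))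
    (fun j => 1 - PowerSeries.C (xx n lam j) * X)
    (fun j => 1 - PowerSeries.C (xx n lam j + 1) * X) n (by
      intro j hj
      have h1 := ss_rec n lam j
      have h2 : ∑ k ∈ Finset.Ico j n, ss n lam k
          = ss n lam j + ∑ k ∈ Finset.Ico (j + 1) n, ss n lam k := by
        rw [Finset.sum_eq_sum_Ico_succ_bot hj]
      have h3 : Finset.Ioo j n = Finset.Ico (j + 1) n := by
        ext k; simp only [Finset.mem_Ioo, Finset.mem_Ico]; omega
      rw [h3] at h1
      simp only [h2, map_add, map_one]
      linear_combination (-X) * h1)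
  simp only [Finset.Ico_self, Finset.sum_empty, mul_zero, sub_zero, one_mul] at h
  rw [← Finset.range_eq_Ico] at h
  exact h

theorem prod_eq_of_cc {n : ℕ} {lam mu : ℕ → ℂ}
    (h : ∀ z ∈ Subalgebra.center ℂ (U n), cc n lam z = cc n mu z) :
    (∏ j ∈ Finset.range n, (1 - PowerSeries.C (xx n lam j + 1) * X : ℂ⟦X⟧)) *
        ∏ j ∈ Finset.range n, (1 - PowerSeries.C (xx n mu j) * X)
      = (∏ j ∈ Finset.range n, (1 - PowerSeries.C (xx n mu j + 1) * X)) *
        ∏ j ∈ Finset.range n, (1 - PowerSeries.C (xx n lam j) * X) := by
  have h1 : ∑ k ∈ Finset.range n, ss n lam k = ∑ k ∈ Finset.range n, ss n mu k := by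
    ext p
    rw [map_sum, map_sum]
    simp only [ss, PowerSeries.coeff_mk]
    rw [← cc_Gtr, ← cc_Gtr]
    exact h _ (Gtr_mem n p)
  rw [← series_id n lam, ← series_id n mu, h1]
  ring

theorem eval_eq_of_cc {n : ℕ} {lam mu : ℕ → ℂ}
    (h : ∀ z ∈ Subalgebra.center ℂ (U n), cc n lam z = cc n mu z) (t : ℂ) :
    (∏ j ∈ Finset.range n, (1 - (xx n lam j + 1) * t)) *
        ∏ j ∈ Finset.range n, (1 - xx n mu j * t)
      = (∏ j ∈ Finset.range n, (1 - (xx n mu j + 1) * t)) *
        ∏ j ∈ Finset.range n, (1 - xx n lam j * t) := by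
  have h1 := prod_eq_of_cc h
  have h2 : ((∏ j ∈ Finset.range n, (1 - Polynomial.C (xx n lam j + 1) * Polynomial.X)) *
        ∏ j ∈ Finset.range n, (1 - Polynomial.C (xx n mu j) * Polynomial.X) : Polynomial ℂ)
      = (∏ j ∈ Finset.range n, (1 - Polynomial.C (xx n mu j + 1) * Polynomial.X)) *
        ∏ j ∈ Finset.range n, (1 - Polynomial.C (xx n lam j) * Polynomial.X) := by
    apply Polynomial.coe_injective ℂ
    have hc : ∀ f : ℕ → ℂ, ((∏ j ∈ Finset.range n, (1 - Polynomial.C (f j) * Polynomial.X) :
        Polynomial ℂ) : ℂ⟦X⟧) = ∏ j ∈ Finset.range n, (1 - PowerSeries.C (f j) * X) := by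
      intro f
      rw [← Polynomial.coeToPowerSeries.ringHom_apply, map_prod]
      apply Finset.prod_congr rfl
      intro j _
      simp
    rw [Polynomial.coe_mul, Polynomial.coe_mul, hc, hc, hc, hc]
    exact h1
  have h3 := congrArg (Polynomial.eval t) h2
  simpa [Polynomial.eval_mul, Polynomial.eval_prod] using h3

/-! ## From the product identity to a permutation -/

theorem mset_of_prod {A B : Multiset ℂ} (hc : A.card = B.card)
    (h : ∀ t : ℂ, (A.map fun a => 1 - a * t).prod = (B.map fun b => 1 - b * t).prod) : A = B := by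
  have h1 : (A.map fun a => Polynomial.X - Polynomial.C a).prod
      = (B.map fun b => Polynomial.X - Polynomial.C b).prod := by
    apply Polynomial.eq_of_infinite_eval_eq
    apply Set.Infinite.mono (s := {u : ℂ | u ≠ 0})
    · intro u hu
      have hu' : u ≠ 0 := hu
      have key : ∀ D : Multiset ℂ, Polynomial.eval u
          (D.map fun a => Polynomial.X - Polynomial.C a).prod
          = u ^ D.card * (D.map fun a => 1 - a * u⁻¹).prod := by
        intro D
        induction D using Multiset.induction_on with
        | empty => simp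
        | cons a D ih =>
          rw [Multiset.map_cons, Multiset.prod_cons, Polynomial.eval_mul, ih, Multiset.map_cons,
            Multiset.prod_cons, Multiset.card_cons]
          simp only [Polynomial.eval_sub, Polynomial.eval_X, Polynomial.eval_C]
          field_simp
          ring
      change Polynomial.eval u _ = Polynomial.eval u _
      rw [key, key, hc, h u⁻¹]
    · exact (Set.finite_singleton (0 : ℂ)).infinite_compl
  have h2 := congrArg Polynomial.roots h1
  rwa [Polynomial.roots_multiset_prod_X_sub_C, Polynomial.roots_multiset_prod_X_sub_C] at h2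

theorem mset_shift {S T : Multiset ℂ}
    (h : S.map (fun x => x + 1) + T = T.map (fun x => x + 1) + S) : S = T := by
  classical
  have hcount : ∀ (D : Multiset ℂ) (z : ℂ), (D.map (fun x => x + 1)).count z = D.count (z - 1) := by
    intro D z
    have := Multiset.count_map_eq_count' (fun x : ℂ => x + 1) D (add_left_injective 1) (z - 1)
    rw [← this]
    congr 1
    ring
  have hstep : ∀ z : ℂ, (S.count z : ℤ) - T.count z = S.count (z - 1) - T.count (z - 1) := by
    intro z
    have h1 := congrArg (Multiset.count z) h
    rw [Multiset.count_add, Multiset.count_add, hcount, hcount] at h1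
    omega
  have hm : ∀ (m : ℕ) (z : ℂ),
      (S.count z : ℤ) - T.count z = S.count (z - m) - T.count (z - m) := by
    intro m
    induction m with
    | zero => intro z; simp
    | succ m ih =>
      intro z
      rw [ih z, hstep (z - m)]
      have : z - (m : ℂ) - 1 = z - ((m + 1 : ℕ) : ℂ) := by push_cast; ring
      rw [this]
  ext z
  have : ∃ m : ℕ, z - (m : ℂ) ∉ (S + T) := by
    by_contra hcon
    push Not at hcon
    have hinj : Function.Injective (fun m : ℕ => z - (m : ℂ)) := by
      intro a b hab
      simpa using hab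
    have hinf := Set.infinite_range_of_injective hinj
    apply hinf
    apply Set.Finite.subset (Finset.finite_toSet (S + T).toFinset)
    rintro _ ⟨m, rfl⟩
    simp only [Finset.mem_coe, Multiset.mem_toFinset]
    exact hcon m
  obtain ⟨m, hmem⟩ := this
  rw [Multiset.mem_add, not_or] at hmem
  have h1 := hm m z
  rw [Multiset.count_eq_zero_of_notMem hmem.1, Multiset.count_eq_zero_of_notMem hmem.2] at h1
  omega

theorem perm_of_mset {n : ℕ} (x y : Fin n → ℂ)
    (h : (Finset.univ.val.map x : Multiset ℂ) = Finset.univ.val.map y) :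
    ∃ σ : Equiv.Perm (Fin n), ∀ j, y j = x (σ j) := by
  classical
  have h1 : ∀ c : ℂ, Nonempty ({ a // y a = c } ≃ { b // x b = c }) := by
    intro c
    rw [← Fintype.card_eq, Fintype.card_subtype, Fintype.card_subtype]
    have h2 := congrArg (Multiset.count c) h
    rw [Multiset.count_map, Multiset.count_map] at h2
    have h3 : ∀ f : Fin n → ℂ, (Finset.univ.filter fun a => f a = c).card
        = (Multiset.filter (fun a => c = f a) Finset.univ.val).card := by
      intro f
      change (Multiset.filter (fun a => f a = c) Finset.univ.val).card = _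
      congr 1
      apply Multiset.filter_congr
      intro a _
      exact eq_comm
    rw [h3, h3]
    exact h2.symm
  let e := Equiv.ofFiberEquiv (fun c => (h1 c).some)
  exact ⟨e, fun j => (Equiv.ofFiberEquiv_map (fun c => (h1 c).some) j).symm⟩

/-- If two weights have the same central character then the shifted entries agree up to a
permutation. -/
theorem hc_inj {n : ℕ} {lam mu : ℕ → ℂ}
    (h : ∀ z ∈ Subalgebra.center ℂ (U n), cc n lam z = cc n mu z) :
    ∃ σ : Equiv.Perm (Fin n), ∀ j : Fin n, mu j - (j : ℕ) = lam (σ j) - ((σ j : Fin n) : ℕ) := by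
  have key : (Finset.univ.val.map (fun j : Fin n => xx n lam j) : Multiset ℂ)
      = Finset.univ.val.map (fun j : Fin n => xx n mu j) := by
    apply mset_shift
    apply mset_of_prod
    · simp [add_comm]
    · intro t
      have h1 := eval_eq_of_cc h t
      rw [Multiset.map_add, Multiset.map_add, Multiset.prod_add, Multiset.prod_add,
        Multiset.map_map, Multiset.map_map, Multiset.map_map, Multiset.map_map, Multiset.map_map,
        Multiset.map_map]
      simp only [Finset.prod_range] at h1
      exact h1
  obtain ⟨σ, hσ⟩ := perm_of_mset _ _ key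
  refine ⟨σ, fun j => ?_⟩
  have h1 := hσ j
  unfold xx at h1
  have h2 : ∀ i : Fin n, ((n - 1 - (i : ℕ) : ℕ) : ℂ) = (n : ℂ) - 1 - (i : ℕ) := by
    intro i
    have hi := i.2
    have : n - 1 - (i : ℕ) = n - (1 + i) := by omega
    rw [this, Nat.cast_sub (by omega)]
    push_cast; ring
  rw [h2, h2] at h1
  linear_combination h1

end Pool.Agent.J4H84.GT
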