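import Pool.Agent.J4H84.GT.Model

/-!
# Linear independence of the monomials in the model
-/

namespace Pool.Agent.J4H84.GT

/-- the submonoid generated by the lowering elements -/
def Low (n : ℕ) : Submonoid (U n) := Submonoid.closure {u | ∃ k l : Fin n, l < k ∧ u = E k l}

theorem castLE_succ {n : ℕ} (i : Fin n) : Fin.castLE (Nat.le_succ n) i = i.castSucc := rfl

theorem incl_low {n : ℕ} {u : U n} (hu : u ∈ Low n) : incl (Nat.le_succ n) u ∈ Low (n + 1) := by
  have h : Low n ≤ (Low (n + 1)).comap (incl (Nat.le_succ n)).toMonoidHom := by
    unfold Low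
    rw [Submonoid.closure_le]
    rintro _ ⟨k, l, hkl, rfl⟩
    apply Submonoid.subset_closure
    refine ⟨k.castSucc, l.castSucc, by simpa using hkl, ?_⟩
    change incl (Nat.le_succ n) (E k l) = _
    rw [incl_E]; rfl
  exact h hu

theorem rowMon_low {n : ℕ} (a : Fin n → ℕ) : rowMon a ∈ Low (n + 1) := by
  unfold rowMon
  apply Submonoid.list_prod_mem
  intro x hx
  rw [List.mem_ofFn] at hx
  obtain ⟨j, rfl⟩ := hx
  apply Submonoid.pow_mem
  apply Submonoid.subset_closure
  exact ⟨Fin.last n, j.castSucc, Fin.castSucc_lt_last j, rfl⟩

theorem mon_low : (n : ℕ) → (T : Tab n) → mon n T ∈ Low n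
  | 0, _ => by unfold mon; exact Submonoid.one_mem _
  | n + 1, T => by
    unfold mon
    exact Submonoid.mul_mem _ (incl_low (mon_low n _)) (rowMon_low _)

section
variable {n : ℕ} {V : Type} [AddCommGroup V] [Module ℂ V]
variable (e : Fin n → Fin n → Module.End ℂ V) (he : Rel e) (c : ℂ)

/-- the induced representation -/
noncomputable def rep : U (n + 1) →ₐ[ℂ] Module.End ℂ ((Fin n → ℕ) →₀ V) :=
  liftE (mkData e he c).ind (mkData e he c).rel_ind

/-- vectors supported on exponents larger than `a` -/
def Gt (a : Fin n → ℕ) : Submodule ℂ ((Fin n → ℕ) →₀ V) :=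
  Finsupp.supported V ℂ {b | toLex a < toLex b}

theorem single_mem_Gt {a b : Fin n → ℕ} (h : toLex a < toLex b) (v : V) :
    Finsupp.single b v ∈ (Gt a : Submodule ℂ ((Fin n → ℕ) →₀ V)) := by
  unfold Gt
  exact Finsupp.single_mem_supported ℂ v h

theorem Gt_mono {a b : Fin n → ℕ} (h : toLex a ≤ toLex b) :
    (Gt b : Submodule ℂ ((Fin n → ℕ) →₀ V)) ≤ Gt a := by
  unfold Gt
  apply Finsupp.supported_mono
  intro x hx
  exact lt_of_le_of_lt h hx

theorem Gt_le_of_single {a : Fin n → ℕ} {W : Submodule ℂ ((Fin n → ℕ) →₀ V)}
    (h : ∀ b, toLex a < toLex b → ∀ v, Finsupp.single b v ∈ W) : Gt a ≤ W := by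
  intro f hf
  rw [← Finsupp.sum_single f]
  apply Submodule.sum_mem
  intro b hb
  apply h
  unfold Gt at hf
  rw [Finsupp.mem_supported] at hf
  exact hf hb

/-- the property of `u`: acts on the leading term through the coefficients -/
def Good (u : U n) : Prop :=
  ∀ a w, rep e he c (incl (Nat.le_succ n) u) (Finsupp.single a w)
    - Finsupp.single a (liftE e he u w) ∈ (Gt a : Submodule ℂ ((Fin n → ℕ) →₀ V))

variable {e he c}

theorem good_Gt {u : U n} (hu : Good e he c u) (a : Fin n → ℕ) :
    Gt a ≤ (Gt a).comap (rep e he c (incl (Nat.le_succ n) u)) := by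
  apply Gt_le_of_single
  intro b hb v
  rw [Submodule.mem_comap]
  have h1 := hu b v
  have h2 := Gt_mono hb.le h1
  have h3 := single_mem_Gt hb (liftE e he u v)
  have := Submodule.add_mem _ h2 h3
  simpa using this

theorem good_one : Good e he c (1 : U n) := by
  intro a w
  simp

theorem good_mul {u v : U n} (hu : Good e he c u) (hv : Good e he c v) : Good e he c (u * v) := by
  intro a w
  simp only [map_mul, Module.End.mul_apply]
  have h1 := hv a w
  have h2 := good_Gt hu a h1
  rw [Submodule.mem_comap, map_sub] at h2
  have h3 := hu a (liftE e he v w)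
  have := Submodule.add_mem _ h2 h3
  simpa using this

theorem good_E {k l : Fin n} (h : l < k) : Good e he c (E k l) := by
  intro a w
  rw [incl_E, castLE_succ, castLE_succ]
  unfold rep
  rw [liftE_E, liftE_E, Data.ind_cc]
  simp only [mkData, LinearMap.sub_apply, Module.End.mul_apply, opE_single, opD_single, map_smul,
    opX_single]
  rw [sub_sub_cancel_left]
  apply Submodule.neg_mem
  by_cases h0 : a k = 0
  · simp [h0]
  · apply Submodule.smul_mem
    apply single_mem_Gt
    refine ⟨l, ?_, ?_⟩
    · intro j hj
      have h1 : j ≠ l := ne_of_lt hj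
      have h2 : j ≠ k := ne_of_lt (hj.trans h)
      simp [h1, h2]
    · have h1 : l ≠ k := ne_of_lt h
      simp [h1]

theorem good_low {u : U n} (hu : u ∈ Low n) : Good e he c u := by
  unfold Low at hu
  induction hu using Submonoid.closure_induction with
  | mem x hx => obtain ⟨k, l, hkl, rfl⟩ := hx; exact good_E hkl
  | one => exact good_one
  | mul x y _ _ hx hy => exact good_mul hx hy

theorem rep_pow (j : Fin n) (s : ℕ) (a : Fin n → ℕ) (w : V) :
    rep e he c (E (Fin.last n) j.castSucc ^ s) (Finsupp.single a w)
      = Finsupp.single (a + Pi.single j s) w := by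
  unfold rep
  rw [map_pow, liftE_E, Data.ind_lc]
  induction s with
  | zero => simp
  | succ s ih =>
    rw [pow_succ', Module.End.mul_apply, ih]
    simp only [mkData, opX_single]
    rw [add_assoc, ← Pi.single_add]

theorem rep_rowMon (a b : Fin n → ℕ) (w : V) :
    rep e he c (rowMon a) (Finsupp.single b w) = Finsupp.single (b + a) w := by
  unfold rowMon
  have key : ∀ l : List (Fin n),
      rep e he c ((l.map fun j : Fin n => (E (Fin.last n) j.castSucc : U (n + 1)) ^ a j).prod)
        (Finsupp.single b w) = Finsupp.single (b + (l.map fun j => Pi.single j (a j)).sum) w := by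
    intro l
    induction l with
    | nil => simp
    | cons j l ih =>
      rw [List.map_cons, List.prod_cons, map_mul, Module.End.mul_apply, ih, rep_pow,
        List.map_cons, List.sum_cons]
      congr 1
      abel
  have h1 : (List.ofFn fun j : Fin n => (E (Fin.last n) j.castSucc : U (n + 1)) ^ a j)
      = (List.finRange n).map fun j : Fin n => (E (Fin.last n) j.castSucc : U (n + 1)) ^ a j := by
    rw [List.ofFn_eq_map]
  rw [h1, key]
  congr 2
  have h2 : ((List.finRange n).map fun j => (Pi.single j (a j) : Fin n → ℕ)).sum
      = ∑ j, Pi.single j (a j) := by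
    rw [← List.ofFn_eq_map, List.sum_ofFn]
  rw [h2]
  funext k
  simp [Finset.sum_apply, Pi.single_apply]

/-- The monomials applied to the vacuum. -/
theorem rep_mon (T : Tab (n + 1)) (v0 : V) :
    rep e he c (mon (n + 1) T) (Finsupp.single 0 v0)
      - Finsupp.single (row T) (liftE e he (mon n (rest T)) v0) ∈
        (Gt (row T) : Submodule ℂ ((Fin n → ℕ) →₀ V)) := by
  have : mon (n + 1) T = incl (Nat.le_succ n) (mon n (rest T)) * rowMon (row T) := rfl
  rw [this, map_mul, Module.End.mul_apply, rep_rowMon, zero_add]
  exact good_low (mon_low _ _) _ _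

theorem indep_step (v0 : V)
    (h : LinearIndependent ℂ (fun T : Tab n => liftE e he (mon n T) v0)) :
    LinearIndependent ℂ (fun T : Tab (n + 1) =>
      rep e he c (mon (n + 1) T) (Finsupp.single 0 v0)) := by
  rw [linearIndependent_iff]
  intro l hl
  -- evaluate
  have hval : ∀ (T : Tab (n + 1)) (a : Fin n → ℕ), toLex a ≤ toLex (row T) →
      (rep e he c (mon (n + 1) T) (Finsupp.single 0 v0)) a
        = if row T = a then liftE e he (mon n (rest T)) v0 else 0 := by
    intro T a ha
    have h1 := rep_mon (e := e) (he := he) (c := c) T v0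
    unfold Gt at h1
    rw [Finsupp.mem_supported'] at h1
    have h2 := h1 a (by
      intro h3
      exact absurd (lt_of_le_of_lt ha h3) (lt_irrefl _))
    rw [Finsupp.sub_apply, sub_eq_zero] at h2
    rw [h2, Finsupp.single_apply]
  have key : ∀ a : Lex (Fin n → ℕ), ∀ T : Tab n, l (tab (ofLex a) T) = 0 := by
    intro a
    induction a using WellFoundedLT.induction with
    | _ a ih =>
      have h1 : (Finsupp.linearCombination ℂ (fun T : Tab (n + 1) =>
        rep e he c (mon (n + 1) T) (Finsupp.single 0 v0)) l) (ofLex a) = 0 := by
        rw [hl]; rfl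
      rw [Finsupp.linearCombination_apply, Finsupp.sum, Finsupp.finsetSum_apply] at h1
      -- comap
      have hinj : Function.Injective (fun T : Tab n => tab (ofLex a) T) := by
        intro S T hST
        have := congrArg rest hST
        simpa using this
      let la : Tab n →₀ ℂ := l.comapDomain (fun T : Tab n => tab (ofLex a) T) hinj.injOn
      have h2 : Finsupp.linearCombination ℂ (fun T : Tab n => liftE e he (mon n T) v0) la = 0 := by
        rw [Finsupp.linearCombination_apply, Finsupp.sum, ← h1]
        have h3 : ∀ T ∈ l.support, (l T • rep e he c (mon (n + 1) T) (Finsupp.single 0 v0))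
            (ofLex a) = if row T = ofLex a then l T • liftE e he (mon n (rest T)) v0 else 0 := by
          intro T hT
          by_cases hle : toLex (ofLex a) ≤ toLex (row T)
          · rw [Finsupp.smul_apply, hval T _ hle]
            split_ifs <;> simp
          · exfalso
            have hlt : toLex (row T) < a := not_le.1 hle
            have := ih _ hlt (rest T)
            rw [ofLex_toLex, tab_eta] at this
            exact (Finsupp.mem_support_iff.1 hT) this
        rw [Finset.sum_congr rfl h3, ← Finset.sum_filter]
        refine Finset.sum_bij (fun T _ => tab (ofLex a) T) ?_ ?_ ?_ ?_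
        · intro T hT
          rw [Finset.mem_filter]
          simp only [la, Finsupp.comapDomain_support, Finset.mem_preimage] at hT
          exact ⟨hT, by simp⟩
        · intro S _ T _ hST
          exact hinj hST
        · intro T hT
          rw [Finset.mem_filter] at hT
          refine ⟨rest T, ?_, ?_⟩
          · simp only [la, Finsupp.comapDomain_support, Finset.mem_preimage]
            rw [← hT.2, tab_eta]; exact hT.1
          · rw [← hT.2, tab_eta]
        · intro T _
          simp [la]
      have h4 := (linearIndependent_iff.1 h) la h2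
      intro T
      have := DFunLike.congr_fun h4 T
      simpa [la] using this
  ext T
  have := key (toLex (row T)) (rest T)
  simpa using this

end

/-- Existence of a highest weight module with linearly independent monomials. -/
theorem exists_model : ∀ (n : ℕ) (lam : Fin n → ℂ),
    ∃ (V : Type) (_ : AddCommGroup V) (_ : Module ℂ V) (e : Fin n → Fin n → Module.End ℂ V)
      (he : Rel e) (v0 : V), (∀ i j, i < j → e i j v0 = 0) ∧ (∀ i, e i i v0 = lam i • v0) ∧
        LinearIndependent ℂ (fun T : Tab n => liftE e he (mon n T) v0) := by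
  intro n
  induction n with
  | zero =>
    intro lam
    refine ⟨ℂ, inferInstance, inferInstance, fun i => i.elim0, fun i => i.elim0, 1,
      fun i => i.elim0, fun i => i.elim0, ?_⟩
    have hs : Subsingleton (Tab 0) := inferInstanceAs (Subsingleton PUnit)
    have hu : Unique (Tab 0) := inferInstanceAs (Unique PUnit)
    rw [linearIndependent_unique_iff]
    simp [mon]
  | succ n ih =>
    intro lam
    obtain ⟨V, _, _, e, he, v0, h1, h2, h3⟩ := ih (fun i => lam i.castSucc)
    refine ⟨(Fin n → ℕ) →₀ V, inferInstance, inferInstance, (mkData e he (lam (Fin.last n))).ind,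
      (mkData e he (lam (Fin.last n))).rel_ind, Finsupp.single 0 v0, ?_, ?_, ?_⟩
    · intro i j hij
      revert hij
      refine Fin.lastCases ?_ (fun i => ?_) i
      · intro hij
        exact absurd hij (not_lt.2 (Fin.le_last j))
      · intro hij
        revert hij
        refine Fin.lastCases ?_ (fun j => ?_) j
        · intro _
          rw [Data.ind_cl]
          simp [mkData, Data.S, Data.H]
        · intro hij
          rw [Data.ind_cc]
          have : e i j v0 = 0 := h1 i j (by simpa using hij)
          simp [mkData, this]
    · intro i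
      refine Fin.lastCases ?_ (fun i => ?_) i
      · rw [Data.ind_ll]
        simp [mkData, Data.H, Module.algebraMap_end_apply]
      · rw [Data.ind_cc]
        simp [mkData, h2 i]
    · exact indep_step v0 h3

end Pool.Agent.J4H84.GT
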