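import Pool.Agent.J4H84.GT.Weyl

/-!
# An explicit model with linearly independent PBW monomials
-/

namespace Pool.Agent.J4H84.GT

/-- The exponents of a monomial in the lowering operators `E_kj` (`k > j`): the last row
`(E_{n+1,1}, …, E_{n+1,n})` first, then the rest (so the lexicographic order compares the last
row first). -/
def Tab : ℕ → Type
  | 0 => PUnit
  | n + 1 => (Lex (Fin n → ℕ)) ×ₗ Tab n

/-- The linear order on patterns: the last row is compared first (lexicographically). -/
noncomputable def linTab : (n : ℕ) → LinearOrder (Tab n)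
  | 0 => (inferInstance : LinearOrder PUnit)
  | n + 1 => @Prod.Lex.instLinearOrder (Lex (Fin n → ℕ)) (Tab n) _ (linTab n)

noncomputable instance (n : ℕ) : LinearOrder (Tab n) := linTab n

/-- pattern from last row and the rest -/
def tab {n : ℕ} (a : Fin n → ℕ) (T : Tab n) : Tab (n + 1) := toLex (toLex a, T)

/-- last row -/
def row {n : ℕ} (T : Tab (n + 1)) : Fin n → ℕ := ofLex (ofLex T).1

/-- the rest -/
def rest {n : ℕ} (T : Tab (n + 1)) : Tab n := (ofLex T).2

@[simp] theorem row_tab {n : ℕ} (a : Fin n → ℕ) (T : Tab n) : row (tab a T) = a := rfl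
@[simp] theorem rest_tab {n : ℕ} (a : Fin n → ℕ) (T : Tab n) : rest (tab a T) = T := rfl
@[simp] theorem tab_eta {n : ℕ} (T : Tab (n + 1)) : tab (row T) (rest T) = T := rfl

theorem tab_lt_iff {n : ℕ} (a b : Fin n → ℕ) (S T : Tab n) :
    tab a S < tab b T ↔ toLex a < toLex b ∨ (a = b ∧ S < T) := by
  have := @Prod.Lex.toLex_lt_toLex (Lex (Fin n → ℕ)) (Tab n) _ _ (toLex a, S) (toLex b, T)
  refine Iff.trans ?_ (this.trans ?_)
  · rfl
  · simp

theorem tab_ext {n : ℕ} {S T : Tab (n + 1)} (h1 : row S = row T) (h2 : rest S = rest T) :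
    S = T := by
  rw [← tab_eta S, ← tab_eta T, h1, h2]

/-- The product `E_{n+1,1}^{a_1} ⋯ E_{n+1,n}^{a_n}`. -/
noncomputable def rowMon {n : ℕ} (a : Fin n → ℕ) : U (n + 1) :=
  (List.ofFn fun j : Fin n => (E (Fin.last n) j.castSucc : U (n + 1)) ^ a j).prod

/-- The monomials. -/
noncomputable def mon : (n : ℕ) → Tab n → U n
  | 0, _ => 1
  | n + 1, T => incl (Nat.le_succ n) (mon n (rest T)) * rowMon (row T)

/-! ## The operators -/

section ops
variable {n : ℕ} {V : Type} [AddCommGroup V] [Module ℂ V]

/-- shift operator -/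
noncomputable def opX (j : Fin n) : Module.End ℂ ((Fin n → ℕ) →₀ V) :=
  Finsupp.lmapDomain V ℂ (fun a => a + Pi.single j 1)

/-- derivative -/
noncomputable def opD (j : Fin n) : Module.End ℂ ((Fin n → ℕ) →₀ V) :=
  Finsupp.lsum ℂ (fun a : Fin n → ℕ => (a j : ℂ) • Finsupp.lsingle (a - Pi.single j 1))

/-- coefficientwise operator -/
noncomputable def opE (f : Module.End ℂ V) : Module.End ℂ ((Fin n → ℕ) →₀ V) :=
  Finsupp.mapRange.linearMap f

@[simp] theorem opX_single (j : Fin n) (a : Fin n → ℕ) (v : V) :
    opX j (Finsupp.single a v) = Finsupp.single (a + Pi.single j 1) v := by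
  unfold opX; simp

@[simp] theorem opD_single (j : Fin n) (a : Fin n → ℕ) (v : V) :
    opD j (Finsupp.single a v) = (a j : ℂ) • Finsupp.single (a - Pi.single j 1) v := by
  unfold opD; simp

@[simp] theorem opE_single (f : Module.End ℂ V) (a : Fin n → ℕ) (v : V) :
    opE f (Finsupp.single a v) = Finsupp.single a (f v) := by
  unfold opE; simp

theorem sub_add_single {a : Fin n → ℕ} {i : Fin n} (h : a i ≠ 0) :
    a - Pi.single i 1 + Pi.single i 1 = a := by
  funext k
  simp only [Pi.add_apply, Pi.sub_apply]
  by_cases hk : k = i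
  · subst hk; simp; omega
  · simp [hk]

theorem add_sub_single_ne {a : Fin n → ℕ} {i j : Fin n} (h : i ≠ j) :
    a + Pi.single j 1 - Pi.single i 1 = a - Pi.single i 1 + Pi.single j 1 := by
  funext k
  simp only [Pi.add_apply, Pi.sub_apply]
  by_cases hk : k = i
  · subst hk; simp [h]
  · simp [hk]

/-- The data on the induced space. -/
noncomputable def mkData (e : Fin n → Fin n → Module.End ℂ V) (he : Rel e) (c : ℂ) :
    Data n (Module.End ℂ ((Fin n → ℕ) →₀ V)) where
  X := opX
  D := opD
  e i j := opE (e i j)
  c := algebraMap ℂ _ c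
  XX i j := by
    apply Finsupp.lhom_ext
    intro a v
    simp only [com, LinearMap.sub_apply, Module.End.mul_apply, opX_single, LinearMap.zero_apply]
    rw [add_right_comm, sub_self]
  DD i j := by
    apply Finsupp.lhom_ext
    intro a v
    simp only [com, LinearMap.sub_apply, Module.End.mul_apply, opD_single, LinearMap.zero_apply,
      map_smul, smul_smul]
    by_cases h : i = j
    · subst h; simp
    · have h1 : (a - Pi.single j 1 - Pi.single i 1 : Fin n → ℕ)
          = a - Pi.single i 1 - Pi.single j 1 := by
        rw [tsub_right_comm]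
      rw [h1]
      simp [h, Ne.symm h, mul_comm]
  DX i j := by
    apply Finsupp.lhom_ext
    intro a v
    simp only [com, LinearMap.sub_apply, Module.End.mul_apply, opD_single, opX_single, map_smul]
    by_cases h : i = j
    · subst h
      by_cases h0 : a i = 0
      · simp [h0]
      · rw [sub_add_single h0]
        simp only [Pi.add_apply, Pi.single_eq_same, add_tsub_cancel_right, if_true,
          Module.End.one_apply]
        rw [← sub_smul]; simp
    · rw [add_sub_single_ne h]
      simp [h]
  eX i j k := by
    apply Finsupp.lhom_ext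
    intro a v
    simp [com]
  eD i j k := by
    apply Finsupp.lhom_ext
    intro a v
    simp [com]
  ee i j k l := by
    apply Finsupp.lhom_ext
    intro a v
    have := he i j k l
    have h2 := LinearMap.congr_fun this v
    simp only [com, LinearMap.sub_apply, Module.End.mul_apply, opE_single] at h2 ⊢
    rw [← Finsupp.single_sub, h2]
    split_ifs <;> simp
  cX i := by
    unfold com; rw [Algebra.commutes, sub_self]
  cD i := by
    unfold com; rw [Algebra.commutes, sub_self]
  ce i j := by
    unfold com; rw [Algebra.commutes, sub_self]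

end ops

end Pool.Agent.J4H84.GT
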