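import Pool.Agent.J4H84.GT.Indep

/-!
# Highest weight vectors modulo a submodule, spanning by monomials
-/

namespace Pool.Agent.J4H84.GT

/-! ## Commutation rules for `rowMon` -/

theorem ind_fun {n : ℕ} {P : (Fin n → ℕ) → Prop} (h0 : P 0)
    (h1 : ∀ a k, P a → P (a + Pi.single k 1)) (a : Fin n → ℕ) : P a := by
  have key : ∀ s : ℕ, ∀ a : Fin n → ℕ, ∑ i, a i = s → P a := by
    intro s
    induction s with
    | zero =>
      intro a ha
      have : a = 0 := by
        funext i
        have := Finset.sum_eq_zero_iff.1 ha i (Finset.mem_univ i)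
        simpa using this
      rw [this]; exact h0
    | succ s ih =>
      intro a ha
      have : ∃ k, a k ≠ 0 := by
        by_contra hcon
        push Not at hcon
        rw [Finset.sum_eq_zero (fun i _ => hcon i)] at ha
        omega
      obtain ⟨k, hk⟩ := this
      have h2 := sub_add_single hk
      rw [← h2]
      apply h1
      apply ih
      have h3 : ∑ i, (a - Pi.single k 1 + Pi.single k 1 : Fin n → ℕ) i = s + 1 := by
        rw [h2]; exact ha
      simp only [Pi.add_apply, Finset.sum_add_distrib] at h3
      have h4 : ∑ i, (Pi.single k 1 : Fin n → ℕ) i = 1 := by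
        simp [Pi.single_apply]
      omega
  exact key _ a rfl

theorem com_E {n : ℕ} (i j k l : Fin n) :
    com (E i j : U n) (E k l) = (if j = k then E i l else 0) - (if l = i then E k j else 0) :=
  rel_E n i j k l

theorem com_XX {n : ℕ} (j k : Fin n) :
    com (E (Fin.last n) j.castSucc : U (n + 1)) (E (Fin.last n) k.castSucc) = 0 := by
  rw [com_E]
  simp [(Fin.castSucc_ne_last j), (Fin.castSucc_ne_last k)]

@[simp] theorem rowMon_zero {n : ℕ} : (rowMon (0 : Fin n → ℕ) : U (n + 1)) = 1 := by
  unfold rowMon
  apply List.prod_eq_one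
  intro x hx
  rw [List.mem_ofFn] at hx
  obtain ⟨j, rfl⟩ := hx
  simp

theorem X_mul_rowMon {n : ℕ} (k : Fin n) (a : Fin n → ℕ) :
    (E (Fin.last n) k.castSucc : U (n + 1)) * rowMon a = rowMon (a + Pi.single k 1) := by
  have key : ∀ l : List (Fin n), l.Nodup →
      (k ∈ l → (E (Fin.last n) k.castSucc : U (n + 1)) *
        (l.map fun j : Fin n => (E (Fin.last n) j.castSucc : U (n + 1)) ^ a j).prod
        = (l.map fun j : Fin n => (E (Fin.last n) j.castSucc : U (n + 1)) ^
            (a + Pi.single k 1 : Fin n → ℕ) j).prod) ∧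
      (k ∉ l → (l.map fun j : Fin n => (E (Fin.last n) j.castSucc : U (n + 1)) ^ a j).prod
        = (l.map fun j : Fin n => (E (Fin.last n) j.castSucc : U (n + 1)) ^
            (a + Pi.single k 1 : Fin n → ℕ) j).prod) := by
    intro l
    induction l with
    | nil => intro _; simp
    | cons j l ih =>
      intro hnd
      rw [List.nodup_cons] at hnd
      obtain ⟨ih1, ih2⟩ := ih hnd.2
      constructor
      · intro hk
        rw [List.map_cons, List.prod_cons, List.map_cons, List.prod_cons]
        by_cases hjk : j = k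
        · subst hjk
          rw [← ih2 hnd.1, ← mul_assoc, ← pow_succ']
          simp
        · have hk' : k ∈ l := by
            rcases List.mem_cons.1 hk with h | h
            · exact absurd h.symm hjk
            · exact h
          rw [← ih1 hk']
          have hc : Commute (E (Fin.last n) k.castSucc : U (n + 1))
              (E (Fin.last n) j.castSucc ^ a j) := by
            apply Commute.pow_right
            exact (com_eq_zero_iff _ _).1 (com_XX k j)
          rw [← mul_assoc, hc.eq, mul_assoc]
          simp [hjk]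
      · intro hk
        rw [List.mem_cons, not_or] at hk
        rw [List.map_cons, List.prod_cons, List.map_cons, List.prod_cons, ← ih2 hk.2]
        have : j ≠ k := fun h => hk.1 h.symm
        simp [this]
  unfold rowMon
  rw [List.ofFn_eq_map, List.ofFn_eq_map]
  exact (key _ (List.nodup_finRange n)).1 (List.mem_finRange k)

theorem E_rowMon {n : ℕ} (i j : Fin n) (a : Fin n → ℕ) :
    (E i.castSucc j.castSucc : U (n + 1)) * rowMon a
      = rowMon a * E i.castSucc j.castSucc
        - (a i : ℂ) • rowMon (a - Pi.single i 1 + Pi.single j 1) := by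
  induction a using ind_fun with
  | h0 => simp
  | h1 a k ih =>
    rw [← X_mul_rowMon]
    have h1 : (E i.castSucc j.castSucc : U (n + 1)) * E (Fin.last n) k.castSucc
        = E (Fin.last n) k.castSucc * E i.castSucc j.castSucc
          - (if k = i then E (Fin.last n) j.castSucc else 0) := by
      have := com_E (n := n + 1) i.castSucc j.castSucc (Fin.last n) k.castSucc
      simp only [com, Fin.castSucc_ne_last, if_false, Fin.castSucc_inj, zero_sub] at this
      rw [sub_eq_iff_eq_add] at this
      rw [this]; abel
    have h2 : (E i.castSucc j.castSucc : U (n + 1)) * (E (Fin.last n) k.castSucc * rowMon a)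
        = rowMon (a + Pi.single k 1) * E i.castSucc j.castSucc
          - (a i : ℂ) • rowMon (a - Pi.single i 1 + Pi.single j 1 + Pi.single k 1)
          - (if k = i then rowMon (a + Pi.single j 1) else 0) := by
      rw [← mul_assoc, h1, sub_mul, mul_assoc, ih, mul_sub, mul_smul_comm,
        X_mul_rowMon k (a - Pi.single i 1 + Pi.single j 1), ← mul_assoc, X_mul_rowMon k a]
      congr 1
      split_ifs
      · rw [X_mul_rowMon]
      · simp
    rw [h2, X_mul_rowMon k a]
    by_cases hki : k = i
    · subst hki
      simp only [if_true]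
      have h3 : (a + Pi.single k 1 - Pi.single k 1 + Pi.single j 1 : Fin n → ℕ)
          = a + Pi.single j 1 := by
        rw [add_tsub_cancel_right]
      rw [h3]
      by_cases h0 : a k = 0
      · simp [h0]
      · have h4 : (a - Pi.single k 1 + Pi.single j 1 + Pi.single k 1 : Fin n → ℕ)
            = a + Pi.single j 1 := by
          rw [add_right_comm, sub_add_single h0]
        rw [h4]
        simp only [Pi.add_apply, Pi.single_eq_same, Nat.cast_add, Nat.cast_one, add_smul, one_smul]
        abel
    · simp only [hki, if_false, sub_zero]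
      have h4 : (a + Pi.single k 1 : Fin n → ℕ) i = a i := by
        simp [Ne.symm hki]
      rw [h4]
      have h5 : (a - Pi.single i 1 + Pi.single j 1 + Pi.single k 1 : Fin n → ℕ)
          = a + Pi.single k 1 - Pi.single i 1 + Pi.single j 1 := by
        rw [add_sub_single_ne (Ne.symm hki), add_right_comm]
      rw [h5]

/-- Moving `E_nj` through `incl u`. -/
theorem X_incl {n : ℕ} (u : U n) : ∀ j : Fin n, ∃ w : Fin n → U n,
    (E (Fin.last n) j.castSucc : U (n + 1)) * incl (Nat.le_succ n) u
      = ∑ k, incl (Nat.le_succ n) (w k) * E (Fin.last n) k.castSucc := by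
  induction u using induction_U with
  | hc c =>
    intro j
    refine ⟨fun k => if k = j then algebraMap ℂ _ c else 0, ?_⟩
    rw [Finset.sum_eq_single j]
    · simp [Algebra.commutes]
    · intro b _ hb; simp [hb]
    · simp
  | hE i l =>
    intro j
    have h1 : (E (Fin.last n) j.castSucc : U (n + 1)) * E i.castSucc l.castSucc
        = E i.castSucc l.castSucc * E (Fin.last n) j.castSucc
          + (if j = i then E (Fin.last n) l.castSucc else 0) := by
      have := com_E (n := n + 1) (Fin.last n) j.castSucc i.castSucc l.castSucc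
      simp only [com, Fin.castSucc_ne_last, if_false, Fin.castSucc_inj, sub_zero] at this
      rw [sub_eq_iff_eq_add] at this
      rw [this]; abel
    refine ⟨fun k => (if k = j then E i l else 0) + (if k = l then (if j = i then 1 else 0) else 0),
      ?_⟩
    rw [incl_E, castLE_succ, castLE_succ, h1]
    simp only [map_add, add_mul, Finset.sum_add_distrib]
    congr 1
    · rw [Finset.sum_eq_single j]
      · simp [castLE_succ]
      · intro b _ hb; simp [hb]
      · simp
    · rw [Finset.sum_eq_single l]
      · by_cases hji : j = i <;> simp [hji]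
      · intro b _ hb; simp [hb]
      · simp
  | hadd u v hu hv =>
    intro j
    obtain ⟨w, hw⟩ := hu j
    obtain ⟨w', hw'⟩ := hv j
    refine ⟨fun k => w k + w' k, ?_⟩
    rw [map_add, mul_add, hw, hw', ← Finset.sum_add_distrib]
    apply Finset.sum_congr rfl
    intro k _
    rw [map_add, add_mul]
  | hmul u v hu hv =>
    intro j
    obtain ⟨w, hw⟩ := hu j
    choose w' hw' using hv
    refine ⟨fun l => ∑ k, w k * w' k l, ?_⟩
    rw [map_mul, ← mul_assoc, hw, Finset.sum_mul]
    have : ∀ k, incl (Nat.le_succ n) (w k) * E (Fin.last n) k.castSucc * incl (Nat.le_succ n) v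
        = ∑ l, incl (Nat.le_succ n) (w k * w' k l) * E (Fin.last n) l.castSucc := by
      intro k
      rw [mul_assoc, hw' k, Finset.mul_sum]
      apply Finset.sum_congr rfl
      intro l _
      rw [map_mul, mul_assoc]
    simp only [this]
    rw [Finset.sum_comm]
    apply Finset.sum_congr rfl
    intro l _
    rw [map_sum, Finset.sum_mul]

/-! ## Highest weight vectors modulo a submodule -/

section HW
variable {N : Type*} [AddCommGroup N] [Module ℂ N]

/-- `v` is a highest weight vector of weight `lam` modulo the stable subspace `N0`. -/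
structure HW {n : ℕ} (π : U n →ₐ[ℂ] Module.End ℂ N) (N0 : Submodule ℂ N) (v : N)
    (lam : Fin n → ℂ) : Prop where
  stab : ∀ u, ∀ x ∈ N0, π u x ∈ N0
  up : ∀ i j, i < j → π (E i j) v ∈ N0
  wt : ∀ i, π (E i i) v - lam i • v ∈ N0

/-- the subspace generated by `U(gl(n))` from the vectors `E^b v` with `b < a`, and `N0` -/
def below {n : ℕ} (π : U (n + 1) →ₐ[ℂ] Module.End ℂ N) (N0 : Submodule ℂ N) (v : N)
    (a : Fin n → ℕ) : Submodule ℂ N :=
  N0 ⊔ Submodule.span ℂ {x | ∃ b : Fin n → ℕ, toLex b < toLex a ∧
    ∃ u : U n, x = π (incl (Nat.le_succ n) u) (π (rowMon b) v)}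

theorem below_le {n : ℕ} {π : U (n + 1) →ₐ[ℂ] Module.End ℂ N} {N0 : Submodule ℂ N} {v : N}
    {a : Fin n → ℕ} {K : Submodule ℂ N} (h0 : N0 ≤ K)
    (h1 : ∀ b : Fin n → ℕ, toLex b < toLex a → ∀ u : U n,
      π (incl (Nat.le_succ n) u) (π (rowMon b) v) ∈ K) : below π N0 v a ≤ K := by
  apply sup_le h0
  rw [Submodule.span_le]
  rintro _ ⟨b, hb, u, rfl⟩
  exact h1 b hb u

theorem mem_below {n : ℕ} {π : U (n + 1) →ₐ[ℂ] Module.End ℂ N} {N0 : Submodule ℂ N} {v : N}
    {a b : Fin n → ℕ} (hb : toLex b < toLex a) (u : U n) :
    π (incl (Nat.le_succ n) u) (π (rowMon b) v) ∈ below π N0 v a := by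
  apply Submodule.mem_sup_right
  exact Submodule.subset_span ⟨b, hb, u, rfl⟩

theorem mem_below' {n : ℕ} {π : U (n + 1) →ₐ[ℂ] Module.End ℂ N} {N0 : Submodule ℂ N} {v : N}
    {a b : Fin n → ℕ} (hb : toLex b < toLex a) :
    π (rowMon b) v ∈ below π N0 v a := by
  have := mem_below (π := π) (N0 := N0) (v := v) hb 1
  simpa using this

theorem lex_lower {n : ℕ} {a : Fin n → ℕ} {i j : Fin n} (hij : i < j) (h0 : a i ≠ 0) :
    toLex (a - Pi.single i 1 + Pi.single j 1 : Fin n → ℕ) < toLex a := by
  refine ⟨i, ?_, ?_⟩
  · intro k hk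
    have h1 : k ≠ i := ne_of_lt hk
    have h2 : k ≠ j := ne_of_lt (hk.trans hij)
    simp [h1, h2]
  · have h1 : i ≠ j := ne_of_lt hij
    simp [h1]
    omega

theorem HW.step {n : ℕ} {π : U (n + 1) →ₐ[ℂ] Module.End ℂ N} {N0 : Submodule ℂ N} {v : N}
    {lam : Fin (n + 1) → ℂ} (h : HW π N0 v lam) (a : Fin n → ℕ) :
    HW (π.comp (incl (Nat.le_succ n))) (below π N0 v a) (π (rowMon a) v)
      (fun i => lam i.castSucc - a i) where
  stab u := by
    have : below π N0 v a ≤ (below π N0 v a).comap (π (incl (Nat.le_succ n) u)) := by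
      apply below_le
      · intro x hx
        rw [Submodule.mem_comap]
        exact Submodule.mem_sup_left (h.stab _ x hx)
      · intro b hb w
        rw [Submodule.mem_comap, ← Module.End.mul_apply, ← map_mul, ← map_mul]
        exact mem_below hb _
    intro x hx
    exact this hx
  up i j hij := by
    change π (incl (Nat.le_succ n) (E i j)) (π (rowMon a) v) ∈ _
    rw [incl_E, castLE_succ, castLE_succ, ← Module.End.mul_apply, ← map_mul, E_rowMon, map_sub,
      LinearMap.sub_apply, map_smul, LinearMap.smul_apply, map_mul, Module.End.mul_apply]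
    apply Submodule.sub_mem
    · apply Submodule.mem_sup_left
      apply h.stab
      exact h.up _ _ (by simpa using hij)
    · by_cases h0 : a i = 0
      · simp [h0]
      · apply Submodule.smul_mem
        exact mem_below' (lex_lower hij h0)
  wt i := by
    change π (incl (Nat.le_succ n) (E i i)) (π (rowMon a) v) - _ ∈ _
    rw [incl_E, castLE_succ, ← Module.End.mul_apply, ← map_mul, E_rowMon, map_sub,
      LinearMap.sub_apply, map_smul, LinearMap.smul_apply, map_mul, Module.End.mul_apply]
    have h1 : (a i : ℂ) • π (rowMon (a - Pi.single i 1 + Pi.single i 1)) v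
        = (a i : ℂ) • π (rowMon a) v := by
      by_cases h0 : a i = 0
      · simp [h0]
      · rw [sub_add_single h0]
    rw [h1, sub_smul]
    have h2 : π (rowMon a) (π (E i.castSucc i.castSucc) v) - (a i : ℂ) • π (rowMon a) v
        - (lam i.castSucc • π (rowMon a) v - (a i : ℂ) • π (rowMon a) v)
        = π (rowMon a) (π (E i.castSucc i.castSucc) v - lam i.castSucc • v) := by
      rw [map_sub, map_smul]; abel
    rw [h2]
    apply Submodule.mem_sup_left
    apply h.stab
    exact h.wt _

theorem apply_mem_of_stable {n : ℕ} {π : U n →ₐ[ℂ] Module.End ℂ N} {W : Submodule ℂ N}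
    (h : ∀ i j, ∀ x ∈ W, π (E i j) x ∈ W) (u : U n) : ∀ x ∈ W, π u x ∈ W := by
  induction u using induction_U with
  | hc c =>
    intro x hx
    rw [AlgHom.commutes, Module.algebraMap_end_apply]
    exact Submodule.smul_mem _ _ hx
  | hE i j => exact h i j
  | hadd u v hu hv =>
    intro x hx
    rw [map_add, LinearMap.add_apply]
    exact Submodule.add_mem _ (hu x hx) (hv x hx)
  | hmul u v hu hv =>
    intro x hx
    rw [map_mul, Module.End.mul_apply]
    exact hu _ (hv _ hx)

/-- `U(gl(n+1)) v` is spanned modulo `N0` by the `U(gl(n)) E^a v`. -/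
theorem HW.span1 {n : ℕ} {π : U (n + 1) →ₐ[ℂ] Module.End ℂ N} {N0 : Submodule ℂ N} {v : N}
    {lam : Fin (n + 1) → ℂ} (h : HW π N0 v lam) {K : Submodule ℂ N} (h0 : N0 ≤ K)
    (h1 : ∀ (b : Fin n → ℕ) (u : U n), π (incl (Nat.le_succ n) u) (π (rowMon b) v) ∈ K)
    (u : U (n + 1)) : π u v ∈ K := by
  -- the set of good submodules
  let Sset : Set (Submodule ℂ N) := {W | N0 ≤ W ∧ v ∈ W ∧
    ∀ (i : Fin (n + 1)) (j : Fin n), ∀ x ∈ W, π (E i j.castSucc) x ∈ W}
  let K2 : Submodule ℂ N := sInf Sset
  have hK2 : K2 ∈ Sset := by
    refine ⟨le_sInf fun W hW => hW.1, ?_, ?_⟩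
    · rw [Submodule.mem_sInf]; exact fun W hW => hW.2.1
    · intro i j x hx
      rw [Submodule.mem_sInf] at hx ⊢
      exact fun W hW => hW.2.2 i j x (hx W hW)
  -- stability under `E_{i,last}`
  let W : Submodule ℂ N :=
    K2 ⊓ ⨅ i : Fin (n + 1), K2.comap (π (E i (Fin.last n)))
  have hmemW : ∀ x, x ∈ W ↔ x ∈ K2 ∧ ∀ i, π (E i (Fin.last n)) x ∈ K2 := by
    intro x
    simp [W, Submodule.mem_iInf]
  have hW : W ∈ Sset := by
    refine ⟨?_, ?_, ?_⟩
    · intro x hx
      rw [hmemW]
      exact ⟨hK2.1 hx, fun i => hK2.1 (h.stab _ x hx)⟩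
    · rw [hmemW]
      refine ⟨hK2.2.1, fun i => ?_⟩
      refine Fin.lastCases ?_ (fun i => ?_) i
      · have := h.wt (Fin.last n)
        have h2 := Submodule.add_mem _ (hK2.1 this) (Submodule.smul_mem _ (lam (Fin.last n)) hK2.2.1)
        simpa using h2
      · exact hK2.1 (h.up _ _ (Fin.castSucc_lt_last i))
    · intro i j x hx
      rw [hmemW] at hx ⊢
      refine ⟨hK2.2.2 i j x hx.1, fun k => ?_⟩
      have h2 : π (E k (Fin.last n)) (π (E i j.castSucc) x)
          = π (E i j.castSucc) (π (E k (Fin.last n)) x)
            + ((if Fin.last n = i then π (E k j.castSucc) x else 0)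
              - (if j.castSucc = k then π (E i (Fin.last n)) x else 0)) := by
        have := com_E (n := n + 1) k (Fin.last n) i j.castSucc
        unfold com at this
        rw [sub_eq_iff_eq_add] at this
        rw [← Module.End.mul_apply, ← map_mul, this]
        rw [map_add, map_sub, LinearMap.add_apply, LinearMap.sub_apply, map_mul,
          Module.End.mul_apply, add_comm]
        congr 1
        congr 1
        · split_ifs <;> simp
        · split_ifs <;> simp
      rw [h2]
      apply Submodule.add_mem
      · exact hK2.2.2 i j _ (hx.2 k)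
      · apply Submodule.sub_mem
        · split_ifs
          · exact hK2.2.2 k j x hx.1
          · exact Submodule.zero_mem _
        · split_ifs
          · exact hx.2 i
          · exact Submodule.zero_mem _
  have hle : K2 ≤ W := sInf_le hW
  have hstab : ∀ i j, ∀ x ∈ K2, π (E i j) x ∈ K2 := by
    intro i j
    refine Fin.lastCases ?_ (fun j => ?_) j
    · intro x hx
      exact ((hmemW x).1 (hle hx)).2 i
    · exact hK2.2.2 i j
  have hu : π u v ∈ K2 := apply_mem_of_stable hstab u v hK2.2.1
  -- now `K2` is contained in the span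
  let K1 : Submodule ℂ N := N0 ⊔ Submodule.span ℂ {x | ∃ (b : Fin n → ℕ) (u : U n),
    x = π (incl (Nat.le_succ n) u) (π (rowMon b) v)}
  have hgen : ∀ (b : Fin n → ℕ) (u : U n),
      π (incl (Nat.le_succ n) u) (π (rowMon b) v) ∈ K1 := by
    intro b u
    apply Submodule.mem_sup_right
    exact Submodule.subset_span ⟨b, u, rfl⟩
  have hK1 : K1 ∈ Sset := by
    refine ⟨le_sup_left, ?_, ?_⟩
    · have := hgen 0 1
      simpa using this
    · intro i j
      have : K1 ≤ K1.comap (π (E i j.castSucc)) := by
        apply sup_le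
        · intro x hx
          rw [Submodule.mem_comap]
          exact Submodule.mem_sup_left (h.stab _ x hx)
        · rw [Submodule.span_le]
          rintro _ ⟨b, w, rfl⟩
          change π (E i j.castSucc) _ ∈ K1
          refine Fin.lastCases ?_ (fun i => ?_) i
          · obtain ⟨w', hw'⟩ := X_incl w j
            rw [← Module.End.mul_apply, ← map_mul, hw', map_sum, LinearMap.sum_apply]
            apply Submodule.sum_mem
            intro k _
            rw [map_mul, Module.End.mul_apply, ← Module.End.mul_apply (π (E _ _)), ← map_mul,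
              X_mul_rowMon]
            exact hgen _ _
          · rw [← castLE_succ i, ← castLE_succ j, ← incl_E, ← Module.End.mul_apply, ← map_mul,
              ← map_mul]
            exact hgen _ _
      intro x hx
      exact this hx
  have hfin : K1 ≤ K := by
    apply sup_le h0
    rw [Submodule.span_le]
    rintro _ ⟨b, w, rfl⟩
    exact h1 b w
  exact hfin ((sInf_le hK1 : K2 ≤ K1) hu)

/-- span of the monomials -/
theorem HW.span : ∀ {n : ℕ} {π : U n →ₐ[ℂ] Module.End ℂ N} {N0 : Submodule ℂ N} {v : N}
    {lam : Fin n → ℂ} (_ : HW π N0 v lam) (u : U n),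
    π u v ∈ N0 ⊔ Submodule.span ℂ (Set.range fun T : Tab n => π (mon n T) v) := by
  intro n
  induction n with
  | zero =>
    intro π N0 v lam h u
    have hu : ∃ c : ℂ, u = algebraMap ℂ _ c := by
      induction u using induction_U with
      | hc c => exact ⟨c, rfl⟩
      | hE i j => exact i.elim0
      | hadd u v hu hv =>
        obtain ⟨c, rfl⟩ := hu
        obtain ⟨d, rfl⟩ := hv
        exact ⟨c + d, by rw [map_add]⟩
      | hmul u v hu hv =>
        obtain ⟨c, rfl⟩ := hu
        obtain ⟨d, rfl⟩ := hv
        exact ⟨c * d, by rw [map_mul]⟩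
    obtain ⟨c, rfl⟩ := hu
    rw [AlgHom.commutes, Module.algebraMap_end_apply]
    apply Submodule.smul_mem
    apply Submodule.mem_sup_right
    apply Submodule.subset_span
    exact ⟨(PUnit.unit : PUnit), by simp [mon]⟩
  | succ n ih =>
    intro π N0 v lam h u
    apply h.span1 le_sup_left
    have key : ∀ a : Lex (Fin n → ℕ), ∀ u : U n,
        π (incl (Nat.le_succ n) u) (π (rowMon (ofLex a)) v) ∈
          N0 ⊔ Submodule.span ℂ (Set.range fun T : Tab (n + 1) => π (mon (n + 1) T) v) := by
      intro a
      induction a using WellFoundedLT.induction with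
      | _ a iha =>
        intro u
        have h1 := ih (h.step (ofLex a)) u
        have h2 : below π N0 v (ofLex a) ≤
            N0 ⊔ Submodule.span ℂ (Set.range fun T : Tab (n + 1) => π (mon (n + 1) T) v) := by
          apply below_le le_sup_left
          intro b hb w
          exact iha (toLex b) hb w
        refine (sup_le h2 ?_) h1
        rw [Submodule.span_le]
        rintro _ ⟨T, rfl⟩
        apply Submodule.mem_sup_right
        apply Submodule.subset_span
        refine ⟨tab (ofLex a) T, ?_⟩
        have : mon (n + 1) (tab (ofLex a) T) = incl (Nat.le_succ n) (mon n T) * rowMon (ofLex a) :=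
          rfl
        simp only [this, map_mul, Module.End.mul_apply]
        rfl
    intro b u
    exact key (toLex b) u

end HW

end Pool.Agent.J4H84.GT
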