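import Pool.Agent.J4H84.GT.Span

/-!
# Verma modules, central characters, triangularity
-/

namespace Pool.Agent.J4H84.GT

/-- The left ideal of `U(gl(n))` generated by the `E_ij`, `i < j`, and the `E_ii - lam_i`. -/
noncomputable def J {n : ℕ} (lam : Fin n → ℂ) : Submodule (U n) (U n) :=
  Submodule.span (U n) ({u | ∃ i j, i < j ∧ u = E i j} ∪
    {u | ∃ i, u = E i i - algebraMap ℂ (U n) (lam i)})

/-- The Verma module `M(lam) = U(gl(n)) ⊗_{U(b)} ℂ_lam`, as the quotient of `U(gl(n))` by the left
ideal generated by the `E_ij`, `i < j`, and the `E_ii - lam_i`. -/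
abbrev Verma {n : ℕ} (lam : Fin n → ℂ) := U n ⧸ J lam

theorem hwJ {n : ℕ} (lam : Fin n → ℂ) :
    HW (Algebra.lmul ℂ (U n)) ((J lam).restrictScalars ℂ) 1 lam where
  stab u x hx := by
    rw [Submodule.restrictScalars_mem] at hx ⊢
    exact Submodule.smul_mem _ u hx
  up i j hij := by
    rw [Submodule.restrictScalars_mem]
    simp only [Algebra.coe_lmul_eq_mul, LinearMap.mul_apply', mul_one]
    exact Submodule.subset_span (Or.inl ⟨i, j, hij, rfl⟩)
  wt i := by
    rw [Submodule.restrictScalars_mem]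
    simp only [Algebra.coe_lmul_eq_mul, LinearMap.mul_apply', mul_one]
    have : lam i • (1 : U n) = algebraMap ℂ (U n) (lam i) := by
      rw [Algebra.algebraMap_eq_smul_one]
    rw [this]
    exact Submodule.subset_span (Or.inr ⟨i, rfl⟩)

section
variable {N : Type*} [AddCommGroup N] [Module ℂ N]

theorem HW.kill {n : ℕ} {π : U n →ₐ[ℂ] Module.End ℂ N} {N0 : Submodule ℂ N} {v : N}
    {lam : Fin n → ℂ} (h : HW π N0 v lam) {u : U n} (hu : u ∈ J lam) : π u v ∈ N0 := by
  unfold J at hu
  induction hu using Submodule.span_induction with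
  | mem x hx =>
    rcases hx with ⟨i, j, hij, rfl⟩ | ⟨i, rfl⟩
    · exact h.up i j hij
    · rw [map_sub, LinearMap.sub_apply, AlgHom.commutes, Module.algebraMap_end_apply]
      exact h.wt i
  | zero => simp
  | add x y _ _ hx hy => rw [map_add, LinearMap.add_apply]; exact Submodule.add_mem _ hx hy
  | smul a x _ hx =>
    rw [smul_eq_mul, map_mul, Module.End.mul_apply]
    exact h.stab _ _ hx

end

/-- the monomials are linearly independent modulo `J`. -/
theorem indep_J {n : ℕ} (lam : Fin n → ℂ) (l : Tab n →₀ ℂ)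
    (hl : Finsupp.linearCombination ℂ (mon n) l ∈ J lam) : l = 0 := by
  obtain ⟨V, _, _, e, he, v0, h1, h2, h3⟩ := exists_model n lam
  have hw : HW (liftE e he) (⊥ : Submodule ℂ V) v0 lam := by
    refine ⟨?_, ?_, ?_⟩
    · intro u x hx
      rw [Submodule.mem_bot] at hx ⊢
      rw [hx, map_zero]
    · intro i j hij
      rw [Submodule.mem_bot, liftE_E]; exact h1 i j hij
    · intro i
      rw [Submodule.mem_bot, liftE_E, h2 i, sub_self]
  have h4 := hw.kill hl
  rw [Submodule.mem_bot] at h4
  rw [linearIndependent_iff] at h3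
  apply h3
  rw [← h4, Finsupp.linearCombination_apply, Finsupp.linearCombination_apply, Finsupp.sum,
    Finsupp.sum, map_sum, LinearMap.sum_apply]
  apply Finset.sum_congr rfl
  intro T _
  rw [map_smul, LinearMap.smul_apply]

/-- the zero pattern -/
def zt : (n : ℕ) → Tab n
  | 0 => PUnit.unit
  | n + 1 => tab 0 (zt n)

@[simp] theorem mon_zt : ∀ n : ℕ, mon n (zt n) = 1
  | 0 => rfl
  | n + 1 => by
    have : mon (n + 1) (zt (n + 1)) = incl (Nat.le_succ n) (mon n (zt n)) * rowMon 0 := rfl
    rw [this, mon_zt n, map_one, rowMon_zero, mul_one]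

theorem one_notMem_J {n : ℕ} (lam : Fin n → ℂ) {c : ℂ} (h : algebraMap ℂ (U n) c ∈ J lam) :
    c = 0 := by
  have := indep_J lam (Finsupp.single (zt n) c) (by
    rw [Finsupp.linearCombination_single, mon_zt]
    rw [Algebra.algebraMap_eq_smul_one] at h
    exact h)
  simpa using this

/-- every element is a combination of monomials modulo `J` -/
theorem exists_comb {n : ℕ} (lam : Fin n → ℂ) (u : U n) :
    ∃ l : Tab n →₀ ℂ, u - Finsupp.linearCombination ℂ (mon n) l ∈ J lam := by
  have h := (hwJ lam).span u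
  simp only [Algebra.coe_lmul_eq_mul, LinearMap.mul_apply', mul_one] at h
  rw [Submodule.mem_sup] at h
  obtain ⟨y, hy, z, hz, hyz⟩ := h
  rw [Finsupp.mem_span_range_iff_exists_finsupp] at hz
  obtain ⟨l, hl⟩ := hz
  refine ⟨l, ?_⟩
  rw [Finsupp.linearCombination_apply, hl, ← hyz, add_sub_cancel_right]
  exact hy

/-! ## The height -/

/-- The element `∑ i E_ii`. -/
noncomputable def Dn (n : ℕ) : U n := ∑ i : Fin n, ((i : ℕ) : ℂ) • E i i

/-- height of a pattern -/
def ht : (n : ℕ) → Tab n → ℕ
  | 0, _ => 0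
  | n + 1, T => ht n (rest T) + ∑ j : Fin n, row T j * (n - j)

theorem com_smul_left {n : ℕ} (c : ℂ) (a b : U n) : com (c • a) b = c • com a b := by
  unfold com; rw [smul_mul_assoc, mul_smul_comm, smul_sub]
theorem com_smul_right {n : ℕ} (c : ℂ) (a b : U n) : com a (c • b) = c • com a b := by
  unfold com; rw [smul_mul_assoc, mul_smul_comm, smul_sub]

theorem com_Dn_E {n : ℕ} (k l : Fin n) :
    com (Dn n) (E k l) = (((k : ℕ) : ℂ) - ((l : ℕ) : ℂ)) • E k l := by
  unfold Dn
  rw [com_sum_left]
  simp only [com_smul_left, com_E, smul_sub]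
  rw [Finset.sum_sub_distrib, sub_smul]
  congr 1
  · rw [Finset.sum_eq_single k]
    · simp
    · intro b _ hb; simp [hb]
    · simp
  · rw [Finset.sum_eq_single l]
    · simp
    · intro b _ hb; simp [Ne.symm hb]
    · simp

theorem com_last_incl {n : ℕ} (u : U n) :
    com (E (Fin.last n) (Fin.last n) : U (n + 1)) (incl (Nat.le_succ n) u) = 0 := by
  induction u using induction_U with
  | hc c => rw [AlgHom.commutes]; unfold com; rw [Algebra.commutes, sub_self]
  | hE i j =>
    rw [incl_E, castLE_succ, castLE_succ, com_E]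
    simp [(Fin.castSucc_ne_last i).symm]
  | hadd u v hu hv => rw [map_add, com_add_right, hu, hv, add_zero]
  | hmul u v hu hv => rw [map_mul, com_mul_right, hu, hv, zero_mul, mul_zero, add_zero]

theorem Dn_succ (n : ℕ) :
    Dn (n + 1) = incl (Nat.le_succ n) (Dn n) + ((n : ℕ) : ℂ) • E (Fin.last n) (Fin.last n) := by
  unfold Dn
  rw [Fin.sum_univ_castSucc, map_sum]
  congr 1
  apply Finset.sum_congr rfl
  intro i _
  rw [map_smul, incl_E]; rfl

theorem com_Dn_incl {n : ℕ} (u : U n) :
    com (Dn (n + 1)) (incl (Nat.le_succ n) u) = incl (Nat.le_succ n) (com (Dn n) u) := by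
  rw [Dn_succ, com_add_left, com_smul_left, com_last_incl, smul_zero, add_zero]
  unfold com
  rw [map_sub, map_mul, map_mul]

theorem com_Dn_rowMon {n : ℕ} (a : Fin n → ℕ) :
    com (Dn (n + 1)) (rowMon a) = ((∑ j : Fin n, a j * (n - j) : ℕ) : ℂ) • rowMon a := by
  induction a using ind_fun with
  | h0 => simp [com]
  | h1 a k ih =>
    rw [← X_mul_rowMon, com_mul_right, ih, com_Dn_E, mul_smul_comm, smul_mul_assoc, ← add_smul]
    congr 1
    simp only [Pi.add_apply, add_mul, Finset.sum_add_distrib]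
    have h1 : ∑ j : Fin n, (Pi.single k 1 : Fin n → ℕ) j * (n - j) = n - k := by
      rw [Finset.sum_eq_single k]
      · simp
      · intro b _ hb; simp [hb]
      · simp
    rw [h1]
    have h2 : (k : ℕ) ≤ n := k.2.le
    push_cast [Nat.cast_sub h2]
    simp
    ring

theorem com_Dn_mon : ∀ (n : ℕ) (T : Tab n), com (Dn n) (mon n T) = (ht n T : ℂ) • mon n T
  | 0, T => by simp [mon, com, ht]
  | n + 1, T => by
    have h1 : mon (n + 1) T = incl (Nat.le_succ n) (mon n (rest T)) * rowMon (row T) := rfl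
    have h2 : ht (n + 1) T = ht n (rest T) + ∑ j : Fin n, row T j * (n - j) := rfl
    rw [h1, h2, com_mul_right, com_Dn_incl, com_Dn_mon n, com_Dn_rowMon, map_smul, smul_mul_assoc,
      mul_smul_comm, ← add_smul]
    congr 1
    push_cast
    ring

theorem ht_eq_zero : ∀ (n : ℕ) (T : Tab n), ht n T = 0 → T = zt n
  | 0, T, _ => rfl
  | n + 1, T, h => by
    have h2 : ht (n + 1) T = ht n (rest T) + ∑ j : Fin n, row T j * (n - j) := rfl
    rw [h2] at h
    have h3 : ht n (rest T) = 0 := by omega
    have h4 : ∑ j : Fin n, row T j * (n - j) = 0 := by omega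
    apply tab_ext
    · change row T = 0
      funext j
      have := Finset.sum_eq_zero_iff.1 h4 j (Finset.mem_univ j)
      rcases Nat.mul_eq_zero.1 this with h5 | h5
      · exact h5
      · have := j.2; omega
    · exact ht_eq_zero n _ h3

theorem ht_zt : ∀ n : ℕ, ht n (zt n) = 0
  | 0 => rfl
  | n + 1 => by
    have h2 : ht (n + 1) (zt (n + 1)) = ht n (zt n)
      + ∑ j : Fin n, (0 : Fin n → ℕ) j * (n - j) := rfl
    rw [h2, ht_zt n]; simp

/-- `Dn ≡ d0` modulo `J`. -/
theorem Dn_J {n : ℕ} (lam : Fin n → ℂ) :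
    Dn n - algebraMap ℂ (U n) (∑ i : Fin n, ((i : ℕ) : ℂ) * lam i) ∈ J lam := by
  unfold Dn
  rw [map_sum, ← Finset.sum_sub_distrib]
  apply Submodule.sum_mem
  intro i _
  have : ((i : ℕ) : ℂ) • E i i - algebraMap ℂ (U n) (((i : ℕ) : ℂ) * lam i)
      = (algebraMap ℂ (U n) ((i : ℕ) : ℂ)) • (E i i - algebraMap ℂ (U n) (lam i)) := by
    rw [smul_eq_mul, mul_sub, ← map_mul, Algebra.smul_def]
  rw [this]
  apply Submodule.smul_mem
  exact Submodule.subset_span (Or.inr ⟨i, rfl⟩)

theorem Dn_mon_J {n : ℕ} (lam : Fin n → ℂ) (T : Tab n) :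
    Dn n * mon n T - ((∑ i : Fin n, ((i : ℕ) : ℂ) * lam i) + ht n T) • mon n T ∈ J lam := by
  have h1 := com_Dn_mon n T
  unfold com at h1
  rw [sub_eq_iff_eq_add] at h1
  rw [h1, add_smul]
  have h2 := Submodule.smul_mem _ (mon n T) (Dn_J lam)
  rw [smul_eq_mul, mul_sub, ← Algebra.commutes, ← Algebra.smul_def] at h2
  have : (ht n T : ℂ) • mon n T + mon n T * Dn n
      - ((∑ i : Fin n, ((i : ℕ) : ℂ) * lam i) • mon n T + (ht n T : ℂ) • mon n T)
      = mon n T * Dn n - (∑ i : Fin n, ((i : ℕ) : ℂ) * lam i) • mon n T := by abel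
  rw [this]
  exact h2

/-! ## Central characters -/

theorem exists_cc {n : ℕ} (lam : Fin n → ℂ) {z : U n} (hz : z ∈ Subalgebra.center ℂ (U n)) :
    ∃ c : ℂ, z - algebraMap ℂ (U n) c ∈ J lam := by
  obtain ⟨l, hl⟩ := exists_comb lam z
  set d0 := ∑ i : Fin n, ((i : ℕ) : ℂ) * lam i with hd0
  rw [Subalgebra.mem_center_iff] at hz
  -- `D z ≡ d0 z`
  have h1 : Dn n * z - d0 • z ∈ J lam := by
    have := Submodule.smul_mem _ z (Dn_J lam)
    rw [smul_eq_mul, mul_sub, ← hz (Dn n), ← hd0, ← Algebra.commutes, ← Algebra.smul_def] at this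
    exact this
  have h2 : Dn n * z - Dn n * Finsupp.linearCombination ℂ (mon n) l ∈ J lam := by
    have := Submodule.smul_mem _ (Dn n) hl
    rwa [smul_eq_mul, mul_sub] at this
  have h3 : Dn n * Finsupp.linearCombination ℂ (mon n) l
      - ∑ T ∈ l.support, (l T * (d0 + ht n T)) • mon n T ∈ J lam := by
    rw [Finsupp.linearCombination_apply, Finsupp.sum, Finset.mul_sum, ← Finset.sum_sub_distrib]
    apply Submodule.sum_mem
    intro T _
    have h4 := Submodule.smul_mem _ (algebraMap ℂ (U n) (l T)) (Dn_mon_J lam T)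
    rw [smul_eq_mul, ← Algebra.smul_def, smul_sub, smul_smul] at h4
    rw [mul_smul_comm]
    exact h4
  have h5 : d0 • z - d0 • Finsupp.linearCombination ℂ (mon n) l ∈ J lam := by
    have := Submodule.smul_mem _ (algebraMap ℂ (U n) d0) hl
    rwa [smul_eq_mul, ← Algebra.smul_def, smul_sub] at this
  have h6 : ∑ T ∈ l.support, (l T * ht n T) • mon n T ∈ J lam := by
    have e1 : ∑ T ∈ l.support, (l T * ht n T) • mon n T
        = (d0 • z - d0 • Finsupp.linearCombination ℂ (mon n) l)
          + (Dn n * z - d0 • z)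
          - (Dn n * z - Dn n * Finsupp.linearCombination ℂ (mon n) l)
          - (Dn n * Finsupp.linearCombination ℂ (mon n) l
            - ∑ T ∈ l.support, (l T * (d0 + ht n T)) • mon n T) := by
      have e2 : ∑ T ∈ l.support, (l T * (d0 + ht n T)) • mon n T
          = d0 • Finsupp.linearCombination ℂ (mon n) l
            + ∑ T ∈ l.support, (l T * ht n T) • mon n T := by
        rw [Finsupp.linearCombination_apply, Finsupp.sum, Finset.smul_sum,
          ← Finset.sum_add_distrib]
        apply Finset.sum_congr rfl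
        intro T _
        rw [smul_smul, ← add_smul]
        congr 1
        ring
      rw [e2]
      abel
    rw [e1]
    exact Submodule.sub_mem _ (Submodule.sub_mem _ (Submodule.add_mem _ h5 h1) h2) h3
  have h7 : ∀ T, T ≠ zt n → l T = 0 := by
    intro T hT
    have hsub : ∀ S, l S * (ht n S : ℂ) ≠ 0 → S ∈ l.support := by
      intro S hS
      rw [Finsupp.mem_support_iff]
      intro h0
      apply hS
      rw [h0, zero_mul]
    have h8 := indep_J lam (Finsupp.onFinset l.support (fun S => l S * (ht n S : ℂ)) hsub) (by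
      rw [Finsupp.linearCombination_onFinset]
      exact h6)
    have h9 := DFunLike.congr_fun h8 T
    rw [Finsupp.onFinset_apply, Finsupp.coe_zero, Pi.zero_apply, mul_eq_zero] at h9
    rcases h9 with h9 | h9
    · exact h9
    · exfalso
      apply hT
      apply ht_eq_zero
      exact_mod_cast h9
  refine ⟨l (zt n), ?_⟩
  have h10 : Finsupp.linearCombination ℂ (mon n) l = algebraMap ℂ (U n) (l (zt n)) := by
    have : l = Finsupp.single (zt n) (l (zt n)) := by
      ext T
      by_cases hT : T = zt n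
      · rw [hT]; simp
      · rw [h7 T hT, Finsupp.single_apply, if_neg (Ne.symm hT)]
    rw [this, Finsupp.linearCombination_single, mon_zt, Algebra.algebraMap_eq_smul_one]
    simp
  rw [← h10]
  exact hl

open Classical in
/-- The central character of the Verma module of highest weight `(lam 0, …, lam (n-1))`. -/
noncomputable def cc (n : ℕ) (lam : ℕ → ℂ) (z : U n) : ℂ :=
  if h : ∃ c : ℂ, z - algebraMap ℂ (U n) c ∈ J (fun i : Fin n => lam i) then h.choose else 0

theorem cc_spec {n : ℕ} (lam : ℕ → ℂ) {z : U n} (hz : z ∈ Subalgebra.center ℂ (U n)) :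
    z - algebraMap ℂ (U n) (cc n lam z) ∈ J (fun i : Fin n => lam i) := by
  have h := exists_cc (fun i : Fin n => lam i) hz
  unfold cc
  rw [dif_pos h]
  exact h.choose_spec

theorem cc_unique {n : ℕ} (lam : ℕ → ℂ) {z : U n} {c : ℂ}
    (h : z - algebraMap ℂ (U n) c ∈ J (fun i : Fin n => lam i)) : cc n lam z = c := by
  have h1 : ∃ c : ℂ, z - algebraMap ℂ (U n) c ∈ J (fun i : Fin n => lam i) := ⟨c, h⟩
  have h2 : z - algebraMap ℂ (U n) (cc n lam z) ∈ J (fun i : Fin n => lam i) := by
    unfold cc
    rw [dif_pos h1]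
    exact h1.choose_spec
  have h3 := Submodule.sub_mem _ h h2
  rw [sub_sub_sub_cancel_left, ← map_sub] at h3
  have := one_notMem_J _ h3
  exact sub_eq_zero.1 this

section
variable {N : Type*} [AddCommGroup N] [Module ℂ N]

theorem HW.central {n : ℕ} {π : U n →ₐ[ℂ] Module.End ℂ N} {N0 : Submodule ℂ N} {v : N}
    {lam : ℕ → ℂ} (h : HW π N0 v (fun i : Fin n => lam i)) {z : U n}
    (hz : z ∈ Subalgebra.center ℂ (U n)) : π z v - cc n lam z • v ∈ N0 := by
  have := h.kill (cc_spec lam hz)
  rwa [map_sub, LinearMap.sub_apply, AlgHom.commutes, Module.algebraMap_end_apply] at this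

/-- refined spanning -/
theorem HW.span_row {n : ℕ} {π : U (n + 1) →ₐ[ℂ] Module.End ℂ N} {N0 : Submodule ℂ N} {v : N}
    {lam : Fin (n + 1) → ℂ} (h : HW π N0 v lam) : ∀ (b : Lex (Fin n → ℕ)) (u : U n),
    π (incl (Nat.le_succ n) u) (π (rowMon (ofLex b)) v) ∈
      N0 ⊔ Submodule.span ℂ {x | ∃ S : Tab (n + 1), toLex (row S) ≤ b ∧ x = π (mon (n + 1) S) v} := by
  intro b
  induction b using WellFoundedLT.induction with
  | _ b ihb =>
    intro u
    have h1 := (h.step (ofLex b)).span u
    refine SetLike.le_def.1 (sup_le (below_le le_sup_left ?_) ?_) h1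
    · intro c hc w
      refine SetLike.le_def.1 (sup_le le_sup_left ?_) (ihb (toLex c) hc w)
      apply le_sup_of_le_right
      apply Submodule.span_mono
      rintro _ ⟨S, hS, rfl⟩
      exact ⟨S, hS.trans (le_of_lt hc), rfl⟩
    · rw [Submodule.span_le]
      rintro _ ⟨T, rfl⟩
      apply Submodule.mem_sup_right
      apply Submodule.subset_span
      refine ⟨tab (ofLex b) T, le_of_eq rfl, ?_⟩
      have : mon (n + 1) (tab (ofLex b) T) = incl (Nat.le_succ n) (mon n T) * rowMon (ofLex b) :=
        rfl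
      simp only [this, map_mul, Module.End.mul_apply]
      rfl

/-- the weight of row `k` -/
noncomputable def rw' : (n : ℕ) → (ℕ → ℂ) → Tab n → ℕ → (ℕ → ℂ)
  | 0, lam, _, _ => lam
  | n + 1, lam, T, k => if k = n + 1 then lam else
      rw' n (fun i => lam i - (if h : i < n then (row T ⟨i, h⟩ : ℂ) else 0)) (rest T) k

/-- the weight after removing the last row -/
noncomputable def low (n : ℕ) (lam : ℕ → ℂ) (a : Fin n → ℕ) : ℕ → ℂ :=
  fun i => lam i - (if h : i < n then (a ⟨i, h⟩ : ℂ) else 0)

theorem rw'_top {n : ℕ} (lam : ℕ → ℂ) (T : Tab n) : rw' n lam T n = lam := by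
  cases n with
  | zero => rfl
  | succ n => simp [rw']

theorem rw'_low {n : ℕ} (lam : ℕ → ℂ) (T : Tab (n + 1)) {k : ℕ} (hk : k ≤ n) :
    rw' (n + 1) lam T k = rw' n (low n lam (row T)) (rest T) k := by
  have : k ≠ n + 1 := by omega
  simp only [rw', this, if_false]
  rfl

/-- The centers act triangularly on the monomials. -/
theorem HW.tri : ∀ {n : ℕ} {π : U n →ₐ[ℂ] Module.End ℂ N} {N0 : Submodule ℂ N} {v : N}
    {lam : ℕ → ℂ} (_ : HW π N0 v (fun i : Fin n => lam i)) (T : Tab n) {k : ℕ} (hk : k ≤ n)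
    {z : U k} (_ : z ∈ Subalgebra.center ℂ (U k)),
    π (incl hk z) (π (mon n T) v) - cc k (rw' n lam T k) z • π (mon n T) v ∈
      N0 ⊔ Submodule.span ℂ {x | ∃ S : Tab n, S < T ∧ x = π (mon n S) v} := by
  intro n
  induction n with
  | zero =>
    intro π N0 v lam h T k hk z hz
    obtain rfl : k = 0 := by omega
    rw [incl_self, rw'_top]
    have h1 : mon 0 T = 1 := rfl
    rw [h1, map_one, Module.End.one_apply]
    exact Submodule.mem_sup_left (h.central hz)
  | succ n ih =>
    intro π N0 v lam h T k hk z hz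
    rcases Nat.lt_or_ge n k with hk' | hk'
    · obtain rfl : k = n + 1 := by omega
      rw [incl_self, rw'_top]
      rw [Subalgebra.mem_center_iff] at hz
      rw [← Module.End.mul_apply, ← map_mul, ← hz, map_mul, Module.End.mul_apply]
      apply Submodule.mem_sup_left
      rw [← map_smul, ← map_sub]
      apply h.stab
      apply h.central
      rw [Subalgebra.mem_center_iff]
      exact hz
    · rw [rw'_low _ _ hk']
      have h1 : HW (π.comp (incl (Nat.le_succ n))) (below π N0 v (row T)) (π (rowMon (row T)) v)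
          (fun i : Fin n => low n lam (row T) i) := by
        have h2 := h.step (row T)
        convert h2 using 2 with i
        unfold low
        simp
      have h3 := ih h1 (rest T) hk' hz
      have h4 : mon (n + 1) T = incl (Nat.le_succ n) (mon n (rest T)) * rowMon (row T) := rfl
      have h5 : π (mon (n + 1) T) v
          = (π.comp (incl (Nat.le_succ n))) (mon n (rest T)) (π (rowMon (row T)) v) := by
        rw [h4, map_mul, Module.End.mul_apply]; rfl
      have h6 : π (incl hk z) = (π.comp (incl (Nat.le_succ n))) (incl hk' z) := by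
        change _ = π (incl (Nat.le_succ n) (incl hk' z))
        rw [incl_incl]
      rw [h5, h6]
      refine SetLike.le_def.1 (sup_le (below_le le_sup_left ?_) ?_) h3
      · intro b hb u
        refine SetLike.le_def.1 (sup_le le_sup_left ?_) (h.span_row (toLex b) u)
        apply le_sup_of_le_right
        apply Submodule.span_mono
        rintro _ ⟨S, hS, rfl⟩
        refine ⟨S, ?_, rfl⟩
        rw [← tab_eta S, ← tab_eta T, tab_lt_iff]
        left
        exact lt_of_le_of_lt hS hb
      · apply le_sup_of_le_right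
        apply Submodule.span_mono
        rintro _ ⟨S, hS, rfl⟩
        refine ⟨tab (row T) S, ?_, ?_⟩
        · rw [← tab_eta T, tab_lt_iff]
          right
          exact ⟨rfl, hS⟩
        · have : mon (n + 1) (tab (row T) S)
              = incl (Nat.le_succ n) (mon n S) * rowMon (row T) := rfl
          rw [this, map_mul, Module.End.mul_apply]; rfl

end

end Pool.Agent.J4H84.GT
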