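import Pool.Agent.J4H84.GT.Basic

/-!
# Induction from `gl(n)` to `gl(n+1)` inside a ring
-/

namespace Pool.Agent.J4H84.GT

section com
variable {A : Type*} [Ring A]

/-- commutator -/
def com (a b : A) : A := a * b - b * a

theorem com_mul_left (a b c : A) : com (a * b) c = a * com b c + com a c * b := by
  unfold com; noncomm_ring
theorem com_mul_right (a b c : A) : com a (b * c) = com a b * c + b * com a c := by
  unfold com; noncomm_ring
theorem com_add_left (a b c : A) : com (a + b) c = com a c + com b c := by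
  unfold com; noncomm_ring
theorem com_add_right (a b c : A) : com a (b + c) = com a b + com a c := by
  unfold com; noncomm_ring
theorem com_sub_left (a b c : A) : com (a - b) c = com a c - com b c := by
  unfold com; noncomm_ring
theorem com_sub_right (a b c : A) : com a (b - c) = com a b - com a c := by
  unfold com; noncomm_ring
theorem com_sum_left {ι : Type*} (s : Finset ι) (f : ι → A) (c : A) :
    com (∑ i ∈ s, f i) c = ∑ i ∈ s, com (f i) c := by
  unfold com; rw [Finset.sum_mul, Finset.mul_sum, Finset.sum_sub_distrib]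
theorem com_sum_right {ι : Type*} (s : Finset ι) (f : ι → A) (c : A) :
    com c (∑ i ∈ s, f i) = ∑ i ∈ s, com c (f i) := by
  unfold com; rw [Finset.sum_mul, Finset.mul_sum, Finset.sum_sub_distrib]
theorem com_swap (a b : A) : com a b = - com b a := by
  unfold com; noncomm_ring
theorem com_self (a : A) : com a a = 0 := by
  unfold com; noncomm_ring
theorem com_eq_zero_iff (a b : A) : com a b = 0 ↔ a * b = b * a := by
  unfold com; exact sub_eq_zero

end com

variable {n : ℕ} {A : Type*} [Ring A]

/-- The data used for induction: `X_j, D_j` (Weyl algebra), a commuting copy `e` of `gl(n)`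
and a central element `c`. -/
structure Data (n : ℕ) (A : Type*) [Ring A] where
  X : Fin n → A
  D : Fin n → A
  e : Fin n → Fin n → A
  c : A
  XX : ∀ i j, com (X i) (X j) = 0
  DD : ∀ i j, com (D i) (D j) = 0
  DX : ∀ i j, com (D i) (X j) = if i = j then 1 else 0
  eX : ∀ i j k, com (e i j) (X k) = 0
  eD : ∀ i j k, com (e i j) (D k) = 0
  ee : ∀ i j k l, com (e i j) (e k l)
    = (if j = k then e i l else 0) - (if l = i then e k j else 0)
  cX : ∀ i, com c (X i) = 0
  cD : ∀ i, com c (D i) = 0
  ce : ∀ i j, com c (e i j) = 0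

namespace Data
variable (d : Data n A)

/-- `E_{n+1,n+1}` -/
def H : A := d.c + ∑ k, d.X k * d.D k

/-- auxiliary sum -/
def S (i : Fin n) : A := ∑ k, d.D k * d.e i k

theorem HX (l : Fin n) : com d.H (d.X l) = d.X l := by
  unfold H
  simp only [com_add_left, com_sum_left, com_mul_left, d.cX, d.DX, d.XX]
  simp

theorem HD (l : Fin n) : com d.H (d.D l) = - d.D l := by
  unfold H
  have h : ∀ k, com (d.X k) (d.D l) = - (if l = k then 1 else 0) := by
    intro k; rw [com_swap, d.DX]
  simp only [com_add_left, com_sum_left, com_mul_left, d.cD, d.DD, h]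
  simp

theorem He (i j : Fin n) : com d.H (d.e i j) = 0 := by
  unfold H
  have h1 : ∀ k, com (d.X k) (d.e i j) = 0 := by
    intro k; rw [com_swap, d.eX, neg_zero]
  have h2 : ∀ k, com (d.D k) (d.e i j) = 0 := by
    intro k; rw [com_swap, d.eD, neg_zero]
  simp only [com_add_left, com_sum_left, com_mul_left, d.ce, h1, h2]
  simp

theorem SX (i l : Fin n) : com (d.S i) (d.X l) = d.e i l := by
  unfold S
  simp only [com_sum_left, com_mul_left, d.eX, d.DX]
  simp

theorem SD (i l : Fin n) : com (d.S i) (d.D l) = 0 := by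
  unfold S
  simp only [com_sum_left, com_mul_left, d.eD, d.DD]
  simp

theorem eS (i j k : Fin n) :
    com (d.e i j) (d.S k) = (if j = k then d.S i else 0) - d.D i * d.e k j := by
  unfold S
  simp only [com_sum_right, com_mul_right, d.eD, d.ee, zero_mul, zero_add, mul_sub]
  rw [Finset.sum_sub_distrib]
  congr 1
  · split_ifs with h
    · simp
    · simp
  · simp [mul_ite]

theorem HS (i : Fin n) : com d.H (d.S i) = - d.S i := by
  unfold S
  simp only [com_sum_right, com_mul_right, d.HD, d.He]
  simp

theorem SS (i j : Fin n) : com (d.S i) (d.S j) = d.D j * d.S i - d.D i * d.S j := by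
  have h1 : ∀ k, com (d.S i) (d.e j k) = - (if k = i then d.S j else 0) + d.D j * d.e i k := by
    intro k
    rw [com_swap, d.eS]
    abel
  conv_lhs => rw [S.eq_1 d j]
  simp only [com_sum_right, com_mul_right, d.SD, h1, zero_mul, zero_add, mul_add]
  rw [Finset.sum_add_distrib]
  have h2 : ∑ k, d.D k * -(if k = i then d.S j else 0) = - (d.D i * d.S j) := by
    simp [mul_neg, mul_ite]
  have h3 : ∑ k, d.D k * (d.D j * d.e i k) = d.D j * d.S i := by
    unfold S
    rw [Finset.mul_sum]
    apply Finset.sum_congr rfl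
    intro k _
    have := (com_eq_zero_iff _ _).1 (d.DD k j)
    rw [← mul_assoc, this, mul_assoc]
  rw [h2, h3]
  abel

/-- The induced family for `gl(n+1)`. -/
def ind : Fin (n + 1) → Fin (n + 1) → A :=
  Fin.lastCases
    (Fin.lastCases d.H (fun j => d.X j))
    (fun i => Fin.lastCases (d.S i - d.H * d.D i) (fun j => d.e i j - d.X j * d.D i))

@[simp] theorem ind_ll : d.ind (Fin.last n) (Fin.last n) = d.H := by
  simp [ind]
@[simp] theorem ind_lc (j : Fin n) : d.ind (Fin.last n) j.castSucc = d.X j := by
  simp [ind]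
@[simp] theorem ind_cl (i : Fin n) :
    d.ind i.castSucc (Fin.last n) = d.S i - d.H * d.D i := by
  simp [ind]
@[simp] theorem ind_cc (i j : Fin n) :
    d.ind i.castSucc j.castSucc = d.e i j - d.X j * d.D i := by
  simp [ind]

theorem XD (i j : Fin n) : com (d.X i) (d.D j) = - (if j = i then 1 else 0) := by
  rw [com_swap, d.DX]
theorem Xe (i j k : Fin n) : com (d.X k) (d.e i j) = 0 := by
  rw [com_swap, d.eX, neg_zero]
theorem De (i j k : Fin n) : com (d.D k) (d.e i j) = 0 := by
  rw [com_swap, d.eD, neg_zero]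
theorem XH (l : Fin n) : com (d.X l) d.H = - d.X l := by
  rw [com_swap, d.HX]
theorem DH (l : Fin n) : com (d.D l) d.H = d.D l := by
  rw [com_swap, d.HD, neg_neg]
theorem eH (i j : Fin n) : com (d.e i j) d.H = 0 := by
  rw [com_swap, d.He, neg_zero]
theorem XS (i l : Fin n) : com (d.X l) (d.S i) = - d.e i l := by
  rw [com_swap, d.SX]
theorem DS (i l : Fin n) : com (d.D l) (d.S i) = 0 := by
  rw [com_swap, d.SD, neg_zero]

theorem rel_cc (i j k l : Fin n) :
    com (d.e i j - d.X j * d.D i) (d.e k l - d.X l * d.D k)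
      = (if j = k then (d.e i l - d.X l * d.D i) else 0)
        - (if l = i then (d.e k j - d.X j * d.D k) else 0) := by
  simp only [com_sub_left, com_sub_right, com_mul_left, com_mul_right, d.ee, d.eX, d.eD, d.Xe,
    d.De, d.XX, d.DD, d.DX, d.XD]
  by_cases h1 : j = k <;> by_cases h2 : l = i
  · subst h1; subst h2; simp; abel
  · subst h1
    have : ¬ (i = l) := fun h => h2 h.symm
    simp [h2, this]
  · subst h2
    have : ¬ (k = j) := fun h => h1 h.symm
    simp [h1, this]; abel
  · have h3 : ¬ (i = l) := fun h => h2 h.symm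
    have h4 : ¬ (k = j) := fun h => h1 h.symm
    simp [h1, h2, h3, h4]

theorem rel_cX (i j l : Fin n) :
    com (d.e i j - d.X j * d.D i) (d.X l) = - (if l = i then d.X j else 0) := by
  simp only [com_sub_left, com_mul_left, d.eX, d.XX, d.DX]
  by_cases h : l = i
  · subst h; simp
  · have : ¬ (i = l) := fun h' => h h'.symm
    simp [h, this]

theorem rel_cH (i j : Fin n) : com (d.e i j - d.X j * d.D i) d.H = 0 := by
  simp only [com_sub_left, com_mul_left, d.eH, d.XH, d.DH]
  simp

theorem rel_cG (i j k : Fin n) :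
    com (d.e i j - d.X j * d.D i) (d.S k - d.H * d.D k)
      = if j = k then d.S i - d.H * d.D i else 0 := by
  simp only [com_sub_left, com_sub_right, com_mul_left, com_mul_right, d.eS, d.eH, d.eD, d.XS,
    d.DS, d.XH, d.DH, d.XD, d.DD]
  by_cases h : j = k
  · subst h
    have h1 := (com_eq_zero_iff _ _).1 (d.De j j i)
    simp only [if_true]
    have h2 := (com_eq_zero_iff _ _).1 (d.De j j i)
    rw [(com_eq_zero_iff _ _).1 (d.De j j i)]
    noncomm_ring
  · have h' : ¬ (k = j) := fun h' => h h'.symm
    simp only [h, h', if_false]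
    rw [(com_eq_zero_iff _ _).1 (d.De k j i)]
    noncomm_ring

theorem rel_GX (i l : Fin n) :
    com (d.S i - d.H * d.D i) (d.X l)
      = (d.e i l - d.X l * d.D i) - (if l = i then d.H else 0) := by
  simp only [com_sub_left, com_mul_left, d.SX, d.DX, d.HX]
  by_cases h : l = i
  · subst h; simp; abel
  · have : ¬ (i = l) := fun h' => h h'.symm
    simp [h, this]

theorem rel_HG (i : Fin n) :
    com d.H (d.S i - d.H * d.D i) = - (d.S i - d.H * d.D i) := by
  simp only [com_sub_right, com_mul_right, d.HS, d.HD, com_self]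
  noncomm_ring

theorem rel_GG (i j : Fin n) : com (d.S i - d.H * d.D i) (d.S j - d.H * d.D j) = 0 := by
  have hS : ∀ k, com (d.S k) d.H = d.S k := by
    intro k; rw [com_swap, d.HS, neg_neg]
  simp only [com_sub_left, com_sub_right, com_mul_left, com_mul_right, d.SS, hS, d.SD, d.HS,
    d.DS, d.HD, d.DH, d.DD, com_self]
  have h1 := (com_eq_zero_iff _ _).1 (d.SD i j)
  have h2 := (com_eq_zero_iff _ _).1 (d.SD j i)
  have h3 := (com_eq_zero_iff _ _).1 (d.DD i j)
  simp only [mul_zero, zero_mul, add_zero, zero_add, neg_mul, h2]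
  noncomm_ring
  rw [h1, h3]
  abel

theorem rel_ind : Rel d.ind := by
  intro i j k l
  change com (d.ind i j) (d.ind k l) = _
  refine Fin.lastCases ?_ (fun i => ?_) i <;> refine Fin.lastCases ?_ (fun j => ?_) j <;>
    refine Fin.lastCases ?_ (fun k => ?_) k <;> refine Fin.lastCases ?_ (fun l => ?_) l
  · simp [com_self]
  · simp [d.HX, Fin.castSucc_ne_last]
  · have := (Fin.castSucc_ne_last k).symm
    simp [d.rel_HG, this]
  · have h1 := (Fin.castSucc_ne_last k).symm
    have h2 := (Fin.castSucc_ne_last l)
    simp only [ind_ll, ind_cc, h1, h2, if_false]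
    rw [com_swap, d.rel_cH]; simp
  · have h1 := (Fin.castSucc_ne_last j)
    simp [h1, d.XH]
  · have h1 := (Fin.castSucc_ne_last j)
    have h2 := (Fin.castSucc_ne_last l)
    simp [h1, h2, d.XX]
  · simp only [ind_lc, ind_cl, if_true, Fin.castSucc_inj]
    rw [com_swap, d.rel_GX]
    by_cases h : j = k
    · subst h; simp
    · simp [h]
  · have h2 := (Fin.castSucc_ne_last l)
    simp only [ind_lc, ind_cc, h2, if_false, Fin.castSucc_inj]
    rw [com_swap, d.rel_cX]
    by_cases h : j = k
    · subst h; simp
    · simp [h]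
  · have h1 := (Fin.castSucc_ne_last i).symm
    simp only [ind_cl, ind_ll, h1, if_false, if_true]
    rw [com_swap, d.rel_HG]; simp
  · simp only [ind_cl, ind_lc, if_true, Fin.castSucc_inj]
    rw [d.rel_GX]
    simp
  · have h1 := (Fin.castSucc_ne_last i).symm
    have h2 := (Fin.castSucc_ne_last k).symm
    simp only [ind_cl, h1, h2, if_false]
    rw [d.rel_GG]; simp
  · have h2 := (Fin.castSucc_ne_last k).symm
    simp only [ind_cl, ind_cc, h2, if_false, Fin.castSucc_inj]
    rw [com_swap, d.rel_cG]
    simp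
  · have h1 := (Fin.castSucc_ne_last i).symm
    have h2 := (Fin.castSucc_ne_last j)
    simp only [ind_cc, ind_ll, h1, h2, if_false]
    rw [d.rel_cH]; simp
  · have h2 := (Fin.castSucc_ne_last j)
    simp only [ind_cc, ind_lc, h2, if_false, Fin.castSucc_inj]
    rw [d.rel_cX]; simp
  · have h1 := (Fin.castSucc_ne_last i).symm
    simp only [ind_cc, ind_cl, h1, if_false, Fin.castSucc_inj]
    rw [d.rel_cG]; simp
  · simp only [ind_cc, Fin.castSucc_inj]
    rw [d.rel_cc]

end Data

end Pool.Agent.J4H84.GT
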